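import Pool.Agent.Lib.MP_adb389_agW.SpecL

/-!
# Clebsch-Gordan
-/

set_option autoImplicit false

namespace Pool.Agent.Lib.MP_adb389_agW

namespace CGAux

section ext

variable {K : Type} [Field K] {W : Type} [AddCommGroup W] [Module K W]

/-- The operator `L + ε` on `W + ε W`. -/
def ext (L : W →ₗ[K] W) : W × W →ₗ[K] W × W :=
  (L.comp (LinearMap.fst K W W)).prod (L.comp (LinearMap.snd K W W) + LinearMap.fst K W W)

theorem ext_apply (L : W →ₗ[K] W) (a b : W) : ext L (a, b) = (L a, L b + a) := rfl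

theorem ext_pow (L : W →ₗ[K] W) (p : ℕ) (a b : W) :
    (ext L ^ (p + 1)) (a, b) = ((L ^ (p + 1)) a, (L ^ (p + 1)) b + ((p : K) + 1) • (L ^ p) a) := by
  induction p with
  | zero => simp [ext_apply]
  | succ p ih =>
    rw [pow_succ', Module.End.mul_apply, ih, ext_apply, map_add, map_smul,
      ← Module.End.mul_apply, ← pow_succ', ← Module.End.mul_apply, ← pow_succ',
      ← Module.End.mul_apply, ← pow_succ', add_assoc]
    push_cast
    rw [add_smul ((p : K) + 1) 1, one_smul, add_assoc]

end ext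

section main

variable {K : Type} [Field K] {V : Type} [AddCommGroup V] [Module K V]

/-- The operator `g + w` on `V[w]/w^m`. -/
def Lw (g : V →ₗ[K] V) (m : ℕ) : (Fin m → V) →ₗ[K] (Fin m → V) :=
  g.compLeft (Fin m) + shift K V m

theorem Lw_apply_zero (g : V →ₗ[K] V) (m : ℕ) (α : Fin m → V) (j : Fin m) (hj : (j : ℕ) = 0) :
    Lw g m α j = g (α j) := by
  unfold Lw shift
  rw [LinearMap.add_apply, Pi.add_apply, LinearMap.pi_apply, dif_pos hj]
  simp

theorem Lw_apply_pos (g : V →ₗ[K] V) (m : ℕ) (α : Fin m → V) (j : Fin m) (hj : (j : ℕ) ≠ 0) :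
    Lw g m α j = g (α j) + α ⟨(j : ℕ) - 1, by omega⟩ := by
  unfold Lw shift
  rw [LinearMap.add_apply, Pi.add_apply, LinearMap.pi_apply, dif_neg hj]
  simp

/-- Pairs of functions as functions with values in the pairs. -/
def pr2 (m : ℕ) (w : (Fin m → V) × (Fin m → V)) : Fin m → V × V := fun j => (w.1 j, w.2 j)

theorem Lw_pr2 (g : V →ₗ[K] V) (m : ℕ) (w : (Fin m → V) × (Fin m → V)) :
    Lw (ext g) m (pr2 m w) = pr2 m (ext (Lw g m) w) := by
  funext j
  obtain ⟨x, y⟩ := w
  rw [ext_apply]
  by_cases hj : (j : ℕ) = 0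
  · rw [Lw_apply_zero _ _ _ _ hj]
    simp only [pr2, ext_apply, Pi.add_apply]
    rw [Lw_apply_zero _ _ _ _ hj, Lw_apply_zero _ _ _ _ hj]
  · rw [Lw_apply_pos _ _ _ _ hj]
    simp only [pr2, ext_apply, Pi.add_apply]
    rw [Lw_apply_pos _ _ _ _ hj, Lw_apply_pos _ _ _ _ hj, Prod.mk_add_mk]
    congr 1
    abel

theorem Lw_pow_pr2 (g : V →ₗ[K] V) (m : ℕ) (p : ℕ) (w : (Fin m → V) × (Fin m → V)) :
    (Lw (ext g) m ^ p) (pr2 m w) = pr2 m ((ext (Lw g m) ^ p) w) := by
  induction p with
  | zero => rfl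
  | succ p ih => rw [pow_succ', Module.End.mul_apply, ih, Lw_pr2, pow_succ', Module.End.mul_apply]

theorem base (g : V →ₗ[K] V) (H : ℤ → Submodule K V) (i : ℤ) (m : ℕ)
    (hyp : ∀ a ∈ H i, (g ^ m) a = 0 → a = 0)
    (α : Fin m → V) (hα : ∀ j : Fin m, α j ∈ H (i + m - 1 - (j : ℕ)))
    (h : Lw g m α = 0) : α = 0 := by
  rcases m with _ | m
  · funext j
    exact j.elim0
  · have key : ∀ t : ℕ, ∀ ht : t ≤ m, α ⟨m - t, by omega⟩ =
        ((-1 : K) ^ t) • (g ^ t) (α ⟨m, by omega⟩) := by
      intro t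
      induction t with
      | zero =>
        intro _
        simp
      | succ t ih =>
        intro ht
        have h1 := congrFun h ⟨m - t, by omega⟩
        rw [Lw_apply_pos _ _ _ _ (by simp only []; omega), ih (by omega), map_smul,
          ← Module.End.mul_apply, ← pow_succ', Pi.zero_apply] at h1
        have h2 : (⟨m - t - 1, by omega⟩ : Fin (m + 1)) = ⟨m - (t + 1), by omega⟩ :=
          Fin.ext (by simp only []; omega)
        have h3 := eq_neg_of_add_eq_zero_right h1
        rw [← h2]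
        refine h3.trans ?_
        have h5 : (-1 : K) ^ (t + 1) = -((-1) ^ t) := by ring
        rw [h5, neg_smul]
    have h0 : (g ^ (m + 1)) (α ⟨m, by omega⟩) = 0 := by
      have h1 := congrFun h ⟨m - m, by omega⟩
      rw [Lw_apply_zero _ _ _ _ (by simp), key m le_rfl, map_smul, ← Module.End.mul_apply,
        ← pow_succ', Pi.zero_apply] at h1
      exact (smul_eq_zero.1 h1).resolve_left (pow_ne_zero _ (neg_ne_zero.2 one_ne_zero))
    have hm : α ⟨m, by omega⟩ = 0 := by
      refine hyp _ ?_ h0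
      have h1 := hα ⟨m, by omega⟩
      have e : i + ((m + 1 : ℕ) : ℤ) - 1 - ((⟨m, by omega⟩ : Fin (m + 1)) : ℕ) = i := by
        push_cast
        ring
      rwa [e] at h1
    funext j
    have h1 := key (m - j) (by omega)
    rw [hm, map_zero, smul_zero] at h1
    have h2 : (⟨m - (m - j), by omega⟩ : Fin (m + 1)) = j := Fin.ext (by
      have := j.isLt
      simp only []
      omega)
    rw [h2] at h1
    exact h1

end main

theorem main {K : Type} [Field K] [CharZero K] (i : ℤ) (m : ℕ) : ∀ (f : ℕ) (V : Type)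
    [AddCommGroup V] [Module K V] (g : V →ₗ[K] V) (H : ℤ → Submodule K V),
    (∀ i, ∀ x ∈ H i, g x ∈ H (i + 1)) → ∀ c : ℤ, 2 * i + m = c + f →
    (∀ q ≤ i, ∀ p : ℕ, 2 * q + p = c → ∀ a ∈ H q, (g ^ p) a = 0 → a = 0) →
    ∀ α : Fin m → V, (∀ j : Fin m, α j ∈ H (i + m - (f + 1) - (j : ℕ))) →
      (Lw g m ^ (f + 1)) α = 0 → α = 0
  | 0 => by
    intro V _ _ g H _ c hc hyp α hα h
    refine base g H i m (hyp i le_rfl m (by rw [hc]; simp)) α (fun j => ?_) ?_
    · have h1 := hα j
      simpa using h1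
    · simpa using h
  | f + 1 => by
    intro V _ _ g H hg c hc hyp α hα h
    have hf : (f : K) + 1 ≠ 0 := Nat.cast_add_one_ne_zero f
    have ih := main (K := K) i m f (V × V) (ext g) (fun q => (H q).prod (H (q - 1))) ?_ (c + 1)
      (by rw [hc]; push_cast; ring) ?_
      (pr2 m (Lw g m α, -(((f : K) + 1) • α))) ?_ ?_
    · funext j
      have h1 := congrArg Prod.snd (congrFun ih j)
      have h2 : -(((f : K) + 1) • α j) = 0 := h1
      exact (smul_eq_zero.1 (neg_eq_zero.1 h2)).resolve_left hf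
    · rintro q ⟨a, b⟩ ⟨ha, hb⟩
      refine ⟨hg q a ha, ?_⟩
      have e : q + 1 - 1 = q := by ring
      change g b + a ∈ H (q + 1 - 1)
      rw [e]
      have h1 := hg _ b hb
      have e2 : q - 1 + 1 = q := by ring
      rw [e2] at h1
      exact add_mem h1 ha
    · rintro q hq p hp ⟨a, b⟩ ⟨ha, hb⟩ h0
      rcases p with _ | p
      · exact h0
      · rw [ext_pow] at h0
        have h1 : (g ^ (p + 1)) a = 0 := congrArg Prod.fst h0
        have h2 : (g ^ (p + 1)) b + ((p : K) + 1) • (g ^ p) a = 0 := congrArg Prod.snd h0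
        have h3 : (g ^ (p + 2)) b = 0 := by
          have h4 := congrArg g h2
          rw [map_add, map_smul, ← Module.End.mul_apply, ← pow_succ', ← Module.End.mul_apply,
            ← pow_succ', h1, smul_zero, add_zero, map_zero] at h4
          exact h4
        have hb0 : b = 0 := by
          refine hyp (q - 1) (by omega) (p + 2) ?_ b hb h3
          push_cast at hp ⊢
          linarith
        rw [hb0, map_zero, zero_add] at h2
        have h4 := (smul_eq_zero.1 h2).resolve_left (Nat.cast_add_one_ne_zero p)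
        have ha0 : a = 0 := by
          refine hyp q hq p ?_ a ha h4
          push_cast at hp
          linarith
        rw [ha0, hb0]
        rfl
    · intro j
      have hα' : ∀ j : Fin m, α j ∈ H (i + m - ((f : ℤ) + 2) - (j : ℕ)) := by
        intro j
        have h1 := hα j
        have e : i + (m : ℤ) - (((f + 1 : ℕ) : ℤ) + 1) - ((j : ℕ) : ℤ) =
            i + m - ((f : ℤ) + 2) - (j : ℕ) := by
          push_cast
          ring
        rwa [e] at h1
      refine ⟨?_, ?_⟩
      · change Lw g m α j ∈ H (i + m - (f + 1) - (j : ℕ))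
        have h1 := hg _ _ (hα' j)
        have e : i + (m : ℤ) - ((f : ℤ) + 2) - ((j : ℕ) : ℤ) + 1 =
            i + m - (f + 1) - (j : ℕ) := by ring
        rw [e] at h1
        by_cases hj : (j : ℕ) = 0
        · rw [Lw_apply_zero _ _ _ _ hj]
          exact h1
        · rw [Lw_apply_pos _ _ _ _ hj]
          refine add_mem h1 ?_
          have h2 := hα' ⟨(j : ℕ) - 1, by omega⟩
          have e2 : i + (m : ℤ) - ((f : ℤ) + 2) -
              ((((⟨(j : ℕ) - 1, by omega⟩ : Fin m) : ℕ)) : ℤ) = i + m - (f + 1) - (j : ℕ) := by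
            have h5 : (((j : ℕ) - 1 : ℕ) : ℤ) = ((j : ℕ) : ℤ) - 1 := by
              rw [Nat.cast_sub (by omega)]
              rfl
            simp only []
            rw [h5]
            ring
          rw [e2] at h2
          exact h2
      · change -(((f : K) + 1) • α) j ∈ H (i + m - (f + 1) - (j : ℕ) - 1)
        have e : i + (m : ℤ) - ((f : ℤ) + 1) - ((j : ℕ) : ℤ) - 1 =
            i + m - ((f : ℤ) + 2) - (j : ℕ) := by ring
        rw [e]
        exact neg_mem (Submodule.smul_mem _ _ (hα' j))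
    · rw [Lw_pow_pr2, ext_pow]
      have h1 : (Lw g m ^ (f + 1)) (Lw g m α) = 0 := by
        rw [← Module.End.mul_apply, ← pow_succ]
        exact h
      have h2 : (Lw g m ^ (f + 1)) (-(((f : K) + 1) • α)) +
          ((f : K) + 1) • (Lw g m ^ f) (Lw g m α) = 0 := by
        rw [map_neg, map_smul, ← Module.End.mul_apply, ← pow_succ, neg_add_cancel]
      rw [h1, h2]
      rfl

end CGAux

open CGAux in
theorem CG : S_CG := by
  intro K V _ _ _ _ g H hg i c f m hc hyp α hα h
  exact main i m f V g H hg c hc hyp α hα h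

end Pool.Agent.Lib.MP_adb389_agW
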