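import Pool.Agent.Lib.MP_adb389_agW.SpecN

/-!
# MP_adb389_agW, task D1: elements of small degree of the ideal
-/

set_option autoImplicit false

namespace Pool.Agent.Lib.MP_adb389_agW

open MvPolynomial Pool.Agent.Lib.MP_adb389_ag

namespace D1Aux

variable {n : ℕ} {K : Type} [Field K]

theorem hc_gen (A : Matrix (Fin n) (Fin n) K) (d : Fin n → ℕ) (h : ℕ)
    (g : MvPolynomial (Fin n) K) (j : Fin n) :
    ∃ r, homogeneousComponent h (g * gen A d j) = gen A d j * r ∧ (h ≤ d j → r = 0) := by
  by_cases hj : h ≤ d j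
  · refine ⟨0, ?_, fun _ => rfl⟩
    rw [mul_comm, mul_zero]
    exact hc_mul_zero (gen_hom A d j) (by omega)
  · refine ⟨homogeneousComponent (h - (d j + 1)) g, ?_, fun h' => absurd h' hj⟩
    rw [mul_comm]
    have h1 := hc_mul (k := h - (d j + 1)) (g := g) (gen_hom A d j)
    have h2 : d j + 1 + (h - (d j + 1)) = h := by omega
    rwa [h2] at h1

end D1Aux

open D1Aux in
theorem D1 (hPrj : S_Prj) : S_D1 := by
  intro n K _ A hA d e a b c hI he p h hp hb hc hpm
  obtain ⟨h1, _, _, _, h5, _⟩ := hPrj n K A hA e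
  have hpm' : p ∈ Ideal.span (Set.range (gen A d)) := hpm
  obtain ⟨g, hg⟩ := Ideal.mem_span_range_iff_exists_fun.1 hpm'
  choose r hr hr0 using fun j => hc_gen A d h (g j) j
  have hp' : p = ∑ j, gen A d j * r j := by
    have h2 : homogeneousComponent h p = p := by
      rw [homogeneousComponent_of_mem ((mem_homogeneousSubmodule _ _).2 hp), if_pos rfl]
    rw [← h2, ← hg, map_sum]
    exact Finset.sum_congr rfl fun j _ => hr j
  refine ⟨prj A e (r a), ?_⟩
  have hX : prj A e (X a) = X a := h5 a hI.ea.symm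
  have hy : prj A e (yf A e) = 0 := (h1 _).2 (Ideal.subset_span rfl)
  rw [hp', map_sum, Finset.sum_eq_single a]
  · rw [map_mul]
    unfold gen
    rw [map_mul, map_pow, hX]
  · intro j _ hj
    rcases hI.all j with h3 | h3 | h3 | h3
    · rw [map_mul]
      unfold gen
      rw [map_mul, h3, hy, mul_zero, zero_mul]
    · exact absurd h3 hj
    · rw [hr0 j (by rw [h3]; exact hb), mul_zero, map_zero]
    · rw [hr0 j (by rw [h3]; exact hc), mul_zero, map_zero]
  · intro h3; exact absurd (Finset.mem_univ a) h3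

end Pool.Agent.Lib.MP_adb389_agW
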