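import Pool.Agent.Lib.MP_adb389_agW.SpecL

/-!
# MP_adb389_agW, block L: quotients of polynomial rings as GM structures (helper60)
-/

set_option autoImplicit false

namespace Pool.Agent.Lib.MP_adb389_agW

open MvPolynomial Pool.Agent.Lib.MP_adb389_ag

namespace GMpAux

variable {n : ℕ} {K : Type} [Field K]

/-- the quotient map as a `K`-linear map -/
noncomputable def mkK (J : Ideal (MvPolynomial (Fin n) K)) :
    MvPolynomial (Fin n) K →ₗ[K] MvPolynomial (Fin n) K ⧸ J :=
  (Ideal.Quotient.mkₐ K J).toLinearMap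

theorem mkK_apply (J : Ideal (MvPolynomial (Fin n) K)) (f : MvPolynomial (Fin n) K) :
    mkK J f = Ideal.Quotient.mk J f := rfl

/-- the projection to the homogeneous component -/
noncomputable def P (J : Ideal (MvPolynomial (Fin n) K)) (hJ : HomI J) (k : ℕ) :
    (MvPolynomial (Fin n) K ⧸ J) →ₗ[K] MvPolynomial (Fin n) K ⧸ J :=
  ((J.restrictScalars K).liftQ ((mkK J).comp (homogeneousComponent k)) (by
    intro f hf
    rw [LinearMap.mem_ker, LinearMap.comp_apply, mkK_apply]
    exact Ideal.Quotient.eq_zero_iff_mem.2 (hJ f hf k))).comp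
      (Submodule.Quotient.restrictScalarsEquiv K J).symm.toLinearMap

theorem P_mk (J : Ideal (MvPolynomial (Fin n) K)) (hJ : HomI J) (k : ℕ) (f : MvPolynomial (Fin n) K) :
    P J hJ k (Ideal.Quotient.mk J f) = Ideal.Quotient.mk J (homogeneousComponent k f) := rfl

open Classical in
/-- the projections -/
noncomputable def Q (J : Ideal (MvPolynomial (Fin n) K)) (hJ : HomI J) (i : ℤ) :
    (MvPolynomial (Fin n) K ⧸ J) →ₗ[K] MvPolynomial (Fin n) K ⧸ J :=
  if 0 ≤ i then P J hJ i.toNat else 0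

theorem Q_nat (J : Ideal (MvPolynomial (Fin n) K)) (hJ : HomI J) (k : ℕ) :
    Q J hJ (k : ℤ) = P J hJ k := by
  unfold Q
  rw [if_pos (Int.natCast_nonneg k), Int.toNat_natCast]

theorem Q_neg (J : Ideal (MvPolynomial (Fin n) K)) (hJ : HomI J) (i : ℤ) (hi : i < 0) :
    Q J hJ i = 0 := by
  unfold Q
  rw [if_neg (by omega)]

theorem mul_Q (J : Ideal (MvPolynomial (Fin n) K)) (hJ : HomI J) (c : Fin n → K) (i : ℤ)
    (x : MvPolynomial (Fin n) K ⧸ J) :
    Ideal.Quotient.mk J (lin c) * Q J hJ i x = Q J hJ (i + 1) (Ideal.Quotient.mk J (lin c) * x) := by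
  obtain ⟨f, rfl⟩ := Ideal.Quotient.mk_surjective x
  rw [← map_mul]
  by_cases h0 : 0 ≤ i
  · obtain ⟨k, rfl⟩ := Int.eq_ofNat_of_zero_le h0
    have h1 : ((k : ℤ) + 1) = ((1 + k : ℕ) : ℤ) := by push_cast; ring
    rw [h1, Q_nat, Q_nat, P_mk, P_mk, ← map_mul, hc_mul (lin_hom' c)]
  · rw [Q_neg J hJ i (by omega), LinearMap.zero_apply, mul_zero]
    by_cases h1 : i + 1 = 0
    · rw [h1]
      have h2 : (0 : ℤ) = ((0 : ℕ) : ℤ) := rfl
      rw [h2, Q_nat, P_mk, hc_mul_zero (lin_hom' c) Nat.zero_lt_one, map_zero]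
    · rw [Q_neg J hJ (i + 1) (by omega), LinearMap.zero_apply]

end GMpAux

open GMpAux in
/-- **GMp** -/
theorem GMp : S_GMp := by
  intro n K _ J c e hJ
  refine ⟨{
    z := LinearMap.mulLeft K (Ideal.Quotient.mk J (lin c))
    g := LinearMap.mulLeft K (Ideal.Quotient.mk J (lin e))
    pr := Q J hJ
    comm := ?_
    idem := ?_
    zpr := ?_
    gpr := ?_
    neg := ?_
    fin := ?_ }, ?_, ?_, ?_⟩
  · intro x
    rw [LinearMap.mulLeft_apply, LinearMap.mulLeft_apply, LinearMap.mulLeft_apply,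
      LinearMap.mulLeft_apply, mul_left_comm]
  · intro i x
    by_cases h0 : 0 ≤ i
    · obtain ⟨k, rfl⟩ := Int.eq_ofNat_of_zero_le h0
      obtain ⟨f, rfl⟩ := Ideal.Quotient.mk_surjective x
      rw [Q_nat, P_mk, P_mk, homogeneousComponent_of_mem (homogeneousComponent_isHomogeneous k f),
        if_pos rfl]
    · rw [Q_neg J hJ i (by omega), LinearMap.zero_apply, LinearMap.zero_apply]
  · intro i x
    rw [LinearMap.mulLeft_apply, LinearMap.mulLeft_apply]
    exact mul_Q J hJ c i x
  · intro i x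
    rw [LinearMap.mulLeft_apply, LinearMap.mulLeft_apply]
    exact mul_Q J hJ e i x
  · intro i hi x
    rw [Q_neg J hJ i hi, LinearMap.zero_apply]
  · intro i
    rw [Module.Finite.iff_fg]
    by_cases h0 : 0 ≤ i
    · obtain ⟨k, rfl⟩ := Int.eq_ofNat_of_zero_le h0
      have h1 : LinearMap.range (Q J hJ (k : ℤ)) = (homogeneousSubmodule (Fin n) K k).map (mkK J) := by
        rw [Q_nat]
        ext y
        rw [LinearMap.mem_range, Submodule.mem_map]
        constructor
        · rintro ⟨x, rfl⟩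
          obtain ⟨f, rfl⟩ := Ideal.Quotient.mk_surjective x
          exact ⟨homogeneousComponent k f, homogeneousComponent_mem k f, rfl⟩
        · rintro ⟨f, hf, rfl⟩
          refine ⟨Ideal.Quotient.mk J f, ?_⟩
          rw [P_mk, homogeneousComponent_of_mem hf, if_pos rfl]
          rfl
      rw [h1]
      exact (homogeneousSubmodule_fg (σ := Fin n) (R := K) k).map _
    · rw [Q_neg J hJ i (by omega), LinearMap.range_zero]
      exact Submodule.fg_bot
  · intro f
    show Ideal.Quotient.mk J (lin c) * Ideal.Quotient.mk J f = _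
    rw [map_mul]
  · intro f
    show Ideal.Quotient.mk J (lin e) * Ideal.Quotient.mk J f = _
    rw [map_mul]
  · intro k f
    show Q J hJ (k : ℤ) (Ideal.Quotient.mk J f) = _
    rw [Q_nat, P_mk]

end Pool.Agent.Lib.MP_adb389_agW
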