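import Pool.Agent.Lib.MP_adb389_agW.SpecL

/-!
# MP_adb389_agW (GMw): the graded vector space `M[w]/w^m`
-/

set_option autoImplicit false

namespace Pool.Agent.Lib.MP_adb389_agW

open MvPolynomial Pool.Agent.Lib.MP_adb389_ag

namespace GMwAux

theorem shift_apply {K M : Type} [Field K] [AddCommGroup M] [Module K M] (m : ℕ) (x : Fin m → M)
    (j : Fin m) : shift K M m x j = if (j : ℕ) = 0 then 0 else x ⟨(j : ℕ) - 1, by omega⟩ := by
  unfold shift
  rw [LinearMap.pi_apply]
  by_cases h : (j : ℕ) = 0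
  · rw [dif_pos h, if_pos h, LinearMap.zero_apply]
  · rw [dif_neg h, if_neg h, LinearMap.proj_apply]

end GMwAux

open GMwAux in
theorem GMw : S_GMw := by
  intro K M _ _ _ G m
  refine ⟨{ z := G.z.compLeft (Fin m)
            g := G.g.compLeft (Fin m) + shift K M m
            pr := fun κ => LinearMap.pi fun j => (G.pr (κ - (j : ℕ))).comp (LinearMap.proj j)
            comm := ?_
            idem := ?_
            zpr := ?_
            gpr := ?_
            neg := ?_
            fin := ?_ }, rfl, rfl, fun κ α j => rfl⟩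
  · intro x
    funext j
    change G.z (G.g (x j) + shift K M m x j) = G.g (G.z (x j)) +
      shift K M m (fun i => G.z (x i)) j
    rw [map_add, G.comm, shift_apply, shift_apply]
    split_ifs
    · rw [map_zero]
    · rfl
  · intro κ x
    funext j
    exact G.idem _ _
  · intro κ x
    funext j
    change G.z (G.pr (κ - (j : ℕ)) (x j)) = G.pr (κ + 1 - (j : ℕ)) (G.z (x j))
    rw [G.zpr]
    congr 2
    ring
  · intro κ x
    funext j
    change G.g (G.pr (κ - (j : ℕ)) (x j)) +
        shift K M m (fun i => G.pr (κ - (i : ℕ)) (x i)) j =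
      G.pr (κ + 1 - (j : ℕ)) (G.g (x j) + shift K M m x j)
    rw [G.gpr, map_add, shift_apply, shift_apply]
    have e : κ - (j : ℕ) + 1 = κ + 1 - (j : ℕ) := by ring
    rw [e]
    split_ifs with h
    · rw [map_zero]
    · congr 3
      have h1 : (((j : ℕ) - 1 : ℕ) : ℤ) = (j : ℕ) - 1 := by
        rw [Nat.cast_sub (by omega), Nat.cast_one]
      change κ - (((j : ℕ) - 1 : ℕ) : ℤ) = κ + 1 - (j : ℕ)
      rw [h1]
      ring
  · intro κ hκ x
    funext j
    exact G.neg _ (by omega) _
  · intro κ
    have hfin : ∀ j : Fin m, Module.Finite K (LinearMap.range (G.pr (κ - (j : ℕ)))) :=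
      fun j => G.fin _
    let Φ : ((j : Fin m) → LinearMap.range (G.pr (κ - (j : ℕ)))) →ₗ[K] (Fin m → M) :=
      LinearMap.pi fun j => (LinearMap.range (G.pr (κ - (j : ℕ)))).subtype.comp (LinearMap.proj j)
    have h1 : Module.Finite K (LinearMap.range Φ) := Module.Finite.range Φ
    refine Submodule.finiteDimensional_of_le (S₂ := LinearMap.range Φ) ?_
    rintro _ ⟨x, rfl⟩
    exact ⟨fun j => ⟨G.pr (κ - (j : ℕ)) (x j), ⟨x j, rfl⟩⟩, rfl⟩

end Pool.Agent.Lib.MP_adb389_agW
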