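import Pool.Agent.Lib.MP_adb389_agW.SpecN

set_option autoImplicit false

namespace Pool.Agent.Lib.MP_adb389_agW

open MvPolynomial Pool.Agent.Lib.MP_adb389_ag

theorem L (hL1 : S_L1) (hL2 : S_L2) (hL3 : S_L3) (hS3 : S_S3) (hTV0 : S_TV0) (hLP : S_LP)
    (hOpen : S_Open) (hPrj : S_Prj) : S_L := by
  intro n K _ _ A hA d e a b c cv hI he hye hab hbc i m him hi
  have hinf : Infinite K := Infinite.of_injective (fun n : ℕ => (n : K)) Nat.cast_injective
  obtain ⟨-, hp2, -, -, -, -⟩ := hPrj n K A hA e
  have hdeg : IsDeg (psi A d (lin cv)) (2 * i + m) := isDeg_psi hA (lin_hom' cv) (by omega)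
  have hspan : ∀ p ∈ Ideal.span {yf A e}, p ∈ idl A d := by
    intro p hp
    have : Ideal.span {yf A e} ≤ idl A d := by
      rw [Ideal.span_le, Set.singleton_subset_iff]
      exact yf_mem he
    exact this hp
  by_cases ha0 : d a = 0
  · have hd : ∀ j, j ≠ b → j ≠ c → d j = 0 := by
      intro j h1 h2
      rcases hI.all j with rfl | rfl | rfl | rfl
      · exact he
      · exact ha0
      · exact absurd rfl h1
      · exact absurd rfl h2
    exact hTV0 n K _ _ hdeg ⟨_, _, two_psi hA hd _⟩ i m rfl
  · by_cases hx : ∃ x : K, prj A e (lin cv) = C x * X a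
    · obtain ⟨x, hx⟩ := hx
      have h1 : lin cv - C x * X a ∈ idl A d := by
        rw [← hx]
        exact hspan _ (hp2 _)
      have hmem : ∀ u, u ∈ ann (psi A d (lin cv)) ↔ C x * (X a * u) ∈ idl A d := by
        intro u
        rw [mem_ann_psi hA]
        have e1 : lin cv * u = (lin cv - C x * X a) * u + C x * (X a * u) := by ring
        rw [e1]
        exact Ideal.add_mem_iff_right _ (Ideal.mul_mem_right _ _ h1)
      by_cases hx0 : x = 0
      · refine gen_true fun g f _ _ => (hmem f).2 ?_
        rw [hx0, C_0, zero_mul]
        exact Ideal.zero_mem _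
      · have hmem2 : ∀ u, u ∈ ann (psi A d (lin cv)) ↔
            u ∈ idl A (Function.update d a (d a - 1)) := by
          intro u
          have h2 := mem_pow_iff hA (d := d) (i := a) (j := 1) (by omega) (f := u)
          rw [pow_one] at h2
          rw [hmem, ← h2]
          constructor
          · intro h3
            have h4 := Ideal.mul_mem_left _ (C x⁻¹) h3
            rwa [← mul_assoc, ← C_mul, inv_mul_cancel₀ hx0, C_1, one_mul] at h4
          · intro h3
            exact Ideal.mul_mem_left _ _ h3
        have hsum : ∑ j, d j = 1 + ∑ j, Function.update d a (d a - 1) j := by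
          rw [Finset.sum_update_of_mem (Finset.mem_univ a),
            Finset.sdiff_singleton_eq_erase, ← Finset.add_sum_erase _ _ (Finset.mem_univ a)]
          omega
        have h5 := hS3 n K A hA (Function.update d a (d a - 1)) a b c (by
          intro j h1 h2 h3
          rw [Function.update_of_ne h1]
          rcases hI.all j with rfl | rfl | rfl | rfl
          · exact he
          · exact absurd rfl h1
          · exact absurd rfl h2
          · exact absurd rfl h3) i m (by omega)
        refine h5.mono fun g hg f hf h6 => ?_
        rw [hmem2] at h6 ⊢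
        exact hg f hf h6
    · push Not at hx
      have hd : ∀ j, j ≠ a → j ≠ b → j ≠ c → d j = 0 := by
        intro j h1 h2 h3
        rcases hI.all j with rfl | rfl | rfl | rfl
        · exact he
        · exact absurd rfl h1
        · exact absurd rfl h2
        · exact absurd rfl h3
      obtain ⟨g, hg2, hg3⟩ := ((hL2 n K A hA d e a b c cv hI he hye hx).and
        (hL3 n K A hA d a b c cv hd)).exists
      have hfin := hLP.1 n K (ann (psi A d (lin cv))) (Pi.single a 1) g i m (homI_ann hdeg) (by
        intro f q p hq hqp
        rw [lin_single]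
        rcases lt_trichotomy (f + 1) (d a) with hf | hf | hf
        · exact hL1 n K A hA d e a b c cv hI he hye hx g f q p hf (by omega) (by omega)
        · exact hg2 f q p hf (by omega) (by omega) (by omega)
        · exact hg3 f q p (by omega) (by omega))
      obtain ⟨s, hs⟩ := hfin.exists_notMem
      apply hOpen
      refine ⟨Pi.single a 1 + s • g, ?_⟩
      by_contra hc
      exact hs hc

end Pool.Agent.Lib.MP_adb389_agW
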