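import Pool.Agent.Lib.MP_adb389_agW.SpecN

/-!
# MP_adb389_agW, (L1): the colon by a linear form, small powers
-/

set_option autoImplicit false

namespace Pool.Agent.Lib.MP_adb389_agW

open MvPolynomial Pool.Agent.Lib.MP_adb389_ag

namespace L1Aux

variable {n : ℕ} {K : Type} [Field K]

theorem lin_zero : lin (0 : Fin n → K) = 0 := by
  unfold lin
  refine Finset.sum_eq_zero fun j _ => ?_
  rw [Pi.zero_apply, C_0, zero_mul]

/-- A prime element which does not divide `x` can be cancelled. -/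
theorem cancel {R : Type} [CommRing R] [IsDomain R] {π x y u r : R} {m : ℕ} (hπ : Prime π)
    (hx : ¬ π ∣ x) (h : π * y = x ^ m * u * r) : ∃ t, y = x ^ m * t := by
  have h1 : π ∣ x ^ m * (u * r) := ⟨y, by rw [← mul_assoc, h]⟩
  have h2 : π ∣ u * r := (hπ.dvd_or_dvd h1).resolve_left fun h3 => hx (hπ.dvd_of_dvd_pow h3)
  obtain ⟨t, ht⟩ := h2
  refine ⟨t, ?_⟩
  apply mul_left_cancel₀ hπ.ne_zero
  rw [h, mul_assoc, ht]
  ring

end L1Aux

open L1Aux in
theorem L1 (hPr : S_Pr) (hPrj : S_Prj) (hD1 : S_D1) : S_L1 := by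
  intro n K _ A hA d e a b c cv hI hde _ hcv g f q p hf hb hc x hx hxa _
  obtain ⟨-, h2, -, h4, -, -⟩ := hPrj n K A hA e
  obtain ⟨c', hc'⟩ := h4 cv
  have hne : c' ≠ 0 := by
    rintro rfl
    rw [lin_zero] at hc'
    exact hcv 0 (by rw [hc', C_0, zero_mul])
  obtain ⟨hpr, hdv⟩ := hPr n K c' hne
  have hnd : ¬ lin c' ∣ X a := by
    intro h
    rw [← lin_single] at h
    obtain ⟨y, hy⟩ := hdv _ h
    rw [lin_single] at hy
    have hy0 : y ≠ 0 := by
      rintro rfl
      rw [C_0, zero_mul] at hy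
      exact X_ne_zero a hy
    apply hcv y⁻¹
    rw [hc', hy, ← mul_assoc, ← C_mul, inv_mul_cancel₀ hy0, C_1, one_mul]
  rw [mem_ann_psi hA] at hxa
  have e1 : lin cv * (X a ^ (f + 1) * x) = X a ^ (f + 1) * (lin cv * x) := by ring
  rw [e1, mem_pow_iff hA hf.le] at hxa
  obtain ⟨r, hr⟩ := hD1 n K A hA (Function.update d a (d a - (f + 1))) e a b c hI
    (by rw [Function.update_of_ne hI.ea]; exact hde) (lin cv * x) (1 + q)
    ((lin_hom' cv).mul hx)
    (by rw [Function.update_of_ne hI.ab.symm]; omega)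
    (by rw [Function.update_of_ne hI.ac.symm]; omega) hxa
  rw [Function.update_self, map_mul, hc'] at hr
  obtain ⟨t, ht⟩ := cancel hpr hnd hr
  refine ⟨x - prj A e x, X a ^ (d a - (f + 1) - 1) * t, ?_, ?_⟩
  · have h5 : X a * (X a ^ (d a - (f + 1) - 1) * t) = prj A e x := by
      rw [ht, ← mul_assoc, ← pow_succ']
      congr 2
      omega
    rw [h5]
    ring
  · rw [mem_ann_psi hA]
    refine Ideal.mul_mem_left _ _ (Ideal.mul_mem_left _ _ ?_)
    have h6 : Ideal.span {yf A e} ≤ idl A d := by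
      rw [Ideal.span_le, Set.singleton_subset_iff]
      exact yf_mem hde
    exact h6 (h2 x)

end Pool.Agent.Lib.MP_adb389_agW
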