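import Pool.Agent.Lib.MP_adb389_agW.SpecN

/-! (L2): the colon by a linear form, the critical power. -/

set_option autoImplicit false

namespace Pool.Agent.Lib.MP_adb389_agW

open MvPolynomial Pool.Agent.Lib.MP_adb389_ag

namespace L2Aux

variable {n : ℕ} {K : Type} [Field K]

theorem prj_unitRow (A : Matrix (Fin n) (Fin n) K) {e a : Fin n} (h : e ≠ a) :
    prj (unitRow A a) e = prj A e := by
  unfold prj
  congr 1
  funext j
  by_cases hj : j = e
  · rw [if_pos hj, if_pos hj, unitRow_ne A h,
      Finset.sum_congr rfl fun l _ => by rw [unitRow_ne A h]]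
  · rw [if_neg hj, if_neg hj]

theorem sum_split (d : Fin n → ℕ) (a : Fin n) :
    ∑ j, d j = d a + ∑ j, Function.update d a 0 j := by
  rw [Finset.sum_update_of_mem (Finset.mem_univ a), zero_add, Finset.sdiff_singleton_eq_erase,
    Finset.add_sum_erase _ _ (Finset.mem_univ a)]

theorem lin_zero' : lin (0 : Fin n → K) = 0 := by
  unfold lin
  refine Finset.sum_eq_zero fun j _ => ?_
  rw [Pi.zero_apply, C_0, zero_mul]

theorem isDeg_sub {A : Matrix (Fin n) (Fin n) K} (hA : Good A) {d : Fin n → ℕ}
    {v : MvPolynomial (Fin n) K} {t : ℕ} (hv : v.IsHomogeneous t) :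
    IsDeg (psi A d v) (∑ i, d i - t) := by
  by_cases h : t ≤ ∑ i, d i
  · exact isDeg_psi hA hv (by omega)
  · exact isDeg_psi' hA hv (by omega) _

/-- Homogeneous components of a decomposition. -/
theorem split_hom {x l l' r s : MvPolynomial (Fin n) K} (hl : l.IsHomogeneous 1)
    (hl' : l'.IsHomogeneous 1) (hx : x = l * r + l' * s) {q : ℕ} (hq : x.IsHomogeneous q) :
    (q = 0 ∧ x = 0) ∨ ∃ q', q = q' + 1 ∧ ∃ r' s', r'.IsHomogeneous q' ∧ x = l * r' + l' * s' := by
  have hxq : homogeneousComponent q x = x := by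
    rw [homogeneousComponent_of_mem hq, if_pos rfl]
  rcases Nat.eq_zero_or_pos q with h0 | h0
  · left
    refine ⟨h0, ?_⟩
    rw [← hxq, hx, map_add, hc_mul_zero hl (by omega), hc_mul_zero hl' (by omega), add_zero]
  · right
    obtain ⟨q', rfl⟩ : ∃ q', q = q' + 1 := ⟨q - 1, by omega⟩
    refine ⟨q', rfl, homogeneousComponent q' r, homogeneousComponent q' s,
      homogeneousComponent_isHomogeneous _ _, ?_⟩
    rw [← hc_mul hl, ← hc_mul hl', ← map_add, ← hx, add_comm 1 q', hxq]

end L2Aux

open L2Aux in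
theorem L2 (hPr : S_Pr) (hPrj : S_Prj) (hD1 : S_D1) (hTV0 : S_TV0) : S_L2 := by
  intro n K _ _ A hA d e a b c cv hidx hde hye hnm
  have hA' : Good (unitRow A a) := good_unitRow hA a
  have hea : e ≠ a := hidx.ea
  obtain ⟨hker, hsub, hidem, hlin, hvar, hyne⟩ := hPrj n K A hA e
  -- the data `d₀`
  have hd0e : Function.update d a 0 e = 0 := by rw [Function.update_of_ne hea]; exact hde
  have hd0a : Function.update d a 0 a = 0 := by rw [Function.update_self]
  have hd0b : Function.update d a 0 b = d b := by rw [Function.update_of_ne hidx.ab.symm]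
  have hd0c : Function.update d a 0 c = d c := by rw [Function.update_of_ne hidx.ac.symm]
  have hd0 : ∀ j, j ≠ b → j ≠ c → Function.update d a 0 j = 0 := by
    intro j hb hc
    rcases hidx.all j with h | h | h | h
    · rw [h]; exact hd0e
    · rw [h]; exact hd0a
    · exact absurd h hb
    · exact absurd h hc
  have hsum := sum_split d a
  -- the linear form `P v`
  obtain ⟨c', hc'⟩ := hlin cv
  have hc'0 : c' ≠ 0 := by
    rintro rfl
    refine hnm 0 ?_
    rw [hc', lin_zero', C_0, zero_mul]
  obtain ⟨hprime, hdvd⟩ := hPr n K c' hc'0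
  rw [← hc'] at hprime
  have hPa : prj A e (X a) = X a := hvar a hea.symm
  have hXa0 : (Pi.single a 1 : Fin n → K) ≠ 0 := by
    intro h
    have := congrFun h a
    rw [Pi.single_eq_same] at this
    exact one_ne_zero this
  obtain ⟨hXprime, hXdvd⟩ := hPr n K (Pi.single a 1) hXa0
  rw [lin_single] at hXprime hXdvd
  have hXv : ¬ (X a : MvPolynomial (Fin n) K) ∣ prj A e (lin cv) := by
    intro h
    rw [hc'] at h
    obtain ⟨x, hx⟩ := hXdvd c' h
    exact hnm x (hc'.trans hx)
  have hcancel : ∀ u w : MvPolynomial (Fin n) K,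
      prj A e u = prj A e w → ∃ s, u = w + yf A e * s := by
    intro u w h
    have h1 : prj A e (u - w) = 0 := by rw [map_sub, h, sub_self]
    obtain ⟨s, hs⟩ := Ideal.mem_span_singleton.1 ((hker _).1 h1)
    exact ⟨s, by rw [← hs]; ring⟩
  have hye_mem : yf A e ∈ idl A d := yf_mem hde
  have hye_mem' : yf A e ∈ idl (unitRow A a) (Function.update d a 0) := by
    have h := yf_mem (A := unitRow A a) hd0e
    rwa [yf_unitRow_ne A hea] at h
  have hXI : (X a : MvPolynomial (Fin n) K) ∈ idl (unitRow A a) (Function.update d a 0) :=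
    X_mem_unitRow A d a
  -- consequences of `X a ^ f * β ∈ ann`
  have hβI : ∀ (f : ℕ) (β : MvPolynomial (Fin n) K), f + 1 = d a →
      X a ^ f * β ∈ ann (psi A d (lin cv)) →
      lin cv * β ∈ idl (unitRow A a) (Function.update d a 0) := by
    intro f β hf hβ
    rw [mem_ann_psi hA] at hβ
    have h1 : X a ^ f * (lin cv * β) ∈ idl A d := by
      have e1 : X a ^ f * (lin cv * β) = lin cv * (X a ^ f * β) := by ring
      rw [e1]; exact hβ
    rw [mem_pow_iff hA (by omega)] at h1
    have e2 : d a - f = 1 := by omega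
    rw [e2] at h1
    exact idl_one_le h1
  by_cases hcase : prj A e (lin cv) ∣ prj A e (yf A a)
  · -- Case 2
    have hya0 : prj A e (yf A a) ≠ 0 := hyne a hea.symm
    obtain ⟨c'', hc''⟩ := hlin (A a)
    rw [← yf_eq_lin] at hc''
    obtain ⟨y, hy⟩ := hdvd c'' (by rw [← hc', ← hc'']; exact hcase)
    obtain ⟨s, hs⟩ := hcancel (yf A a) (C y * lin cv) (by
      rw [hc'', hy, map_mul, hc']
      congr 1
      exact (AlgHom.commutes (prj A e) y).symm)
    have hdeg : IsDeg (psi (unitRow A a) (Function.update d a 0) 1)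
        (∑ j, Function.update d a 0 j) :=
      isDeg_psi hA' (isHomogeneous_one (Fin n) K) (by omega)
    have hG := gen_forall_two (∑ j, Function.update d a 0 j) fun q p h =>
      hTV0 n K (psi (unitRow A a) (Function.update d a 0) 1) _ hdeg
        ⟨_, _, two_psi hA' hd0 1⟩ q p h
    refine hG.mono fun g hg f q p hf hqb hqc hsumq x hx hxm hVW => ?_
    obtain ⟨β, γ, hβγ, hβ⟩ := hVW
    have hinj := hg q p (by omega)
    rw [ann_psi_one hA'] at hinj
    have hβ' : β ∈ idl (unitRow A a) (Function.update d a 0) := by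
      rw [← mem_y_iff hA (i := a) (by omega)]
      have e1 : X a ^ (d a - 1) * yf A a * β =
          C y * (lin cv * (X a ^ f * β)) + yf A e * (s * X a ^ f * β) := by
        rw [hs]
        have e2 : d a - 1 = f := by omega
        rw [e2]
        ring
      rw [e1]
      exact Ideal.add_mem _ (Ideal.mul_mem_left _ _ ((mem_ann_psi hA).1 hβ))
        (Ideal.mul_mem_right _ _ hye_mem)
    have hxI : x ∈ idl (unitRow A a) (Function.update d a 0) := by
      refine hinj x hx ?_
      rw [hβγ]
      exact Ideal.add_mem _ hβ' (Ideal.mul_mem_right _ _ hXI)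
    obtain ⟨b1, h1, hb1, hb1m⟩ := exists_X hxI
    refine ⟨b1, h1, hb1, ?_⟩
    rw [mem_ann_psi hA]
    exact Ideal.mul_mem_left _ _ (Ideal.mul_mem_left _ _ hb1m)
  · -- Case 1
    have hdeg : IsDeg (psi (unitRow A a) (Function.update d a 0) (lin cv * yf A a))
        (∑ j, Function.update d a 0 j - 2) :=
      isDeg_sub hA' ((lin_hom' cv).mul (yf_hom A a))
    have hG := gen_forall_two (∑ j, Function.update d a 0 j - 2) fun q p h =>
      hTV0 n K (psi (unitRow A a) (Function.update d a 0) (lin cv * yf A a)) _ hdeg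
        ⟨_, _, two_psi hA' hd0 _⟩ q p h
    refine hG.mono fun g hg f q p hf hqb hqc hsumq x hx hxm hVW => ?_
    obtain ⟨β, γ, hβγ, hβ⟩ := hVW
    -- `v x ∈ idl A d₀`
    have h1 : lin cv * x ∈ idl A (Function.update d a 0) := by
      rw [mem_ann_psi hA] at hxm
      have e1 : X a ^ d a * (lin cv * x) = lin cv * (X a ^ (f + 1) * x) := by
        rw [hf]; ring
      have h2 : X a ^ d a * (lin cv * x) ∈ idl A d := by rw [e1]; exact hxm
      rw [mem_pow_iff hA le_rfl, Nat.sub_self] at h2
      exact h2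
    obtain ⟨r, hr⟩ := hD1 n K A hA (Function.update d a 0) e a b c hidx hd0e (lin cv * x) (1 + q)
      ((lin_hom' cv).mul hx) (by rw [hd0b]; omega) (by rw [hd0c]; omega) h1
    rw [hd0a, pow_zero, one_mul, map_mul] at hr
    obtain ⟨r₁, hr₁⟩ : prj A e (lin cv) ∣ r := by
      refine (hprime.dvd_or_dvd ?_).resolve_left hcase
      rw [← hr]
      exact dvd_mul_right _ _
    have hPx : prj A e x = prj A e (yf A a) * r₁ := by
      refine mul_left_cancel₀ hprime.ne_zero ?_
      rw [hr, hr₁]
      ring
    have hPx' : prj A e x = prj A e (yf A a * r₁) := by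
      rw [← hidem x, hPx, map_mul, hidem, map_mul]
    obtain ⟨s, hs⟩ := hcancel x _ hPx'
    rcases split_hom (yf_hom A a) (yf_hom A e) hs hx with ⟨_, hx0⟩ | ⟨q', hq', r', s', hr', hxr'⟩
    · refine ⟨0, 0, ?_, ?_⟩
      · rw [hx0, mul_zero, add_zero]
      · rw [mul_zero]
        exact Ideal.zero_mem _
    · have hm : lin cv * yf A a * (lin g ^ p * r') ∈
          idl (unitRow A a) (Function.update d a 0) := by
        have e1 : lin cv * yf A a * (lin g ^ p * r') =
            lin cv * β + X a * (lin cv * γ) - yf A e * (lin cv * lin g ^ p * s') := by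
          have e2 : lin cv * (lin g ^ p * x) = lin cv * β + X a * (lin cv * γ) := by
            rw [hβγ]; ring
          rw [← e2, hxr']
          ring
        rw [e1]
        exact Ideal.sub_mem _ (Ideal.add_mem _ (hβI f β hf hβ) (Ideal.mul_mem_right _ _ hXI))
          (Ideal.mul_mem_right _ _ hye_mem')
      have hr'm := hg q' p (by omega) r' hr' ((mem_ann_psi hA').2 hm)
      rw [mem_ann_psi hA'] at hr'm
      obtain ⟨t, ht⟩ := hD1 n K (unitRow A a) hA' (Function.update d a 0) e a b c hidx hd0e _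
        (1 + 1 + q') (((lin_hom' cv).mul (yf_hom A a)).mul hr') (by rw [hd0b]; omega)
        (by rw [hd0c]; omega) hr'm
      rw [hd0a, pow_zero, one_mul, prj_unitRow A hea, yf_unitRow_self, hPa, map_mul, map_mul,
        mul_assoc, ← map_mul] at ht
      have hPx2 : prj A e x = prj A e (yf A a * r') := by
        rw [hxr', map_add, map_mul (prj A e) (yf A e) s',
          (hker (yf A e)).2 (Ideal.subset_span rfl), zero_mul, add_zero]
      rw [← hPx2] at ht
      obtain ⟨w, hw⟩ : X a ∣ prj A e x := by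
        refine (hXprime.dvd_or_dvd ?_).resolve_left hXv
        rw [ht]
        exact dvd_mul_right _ _
      obtain ⟨s2, hs2⟩ := Ideal.mem_span_singleton.1 (hsub x)
      refine ⟨yf A e * s2, w, ?_, ?_⟩
      · rw [← hs2, ← hw]
        ring
      · rw [mem_ann_psi hA]
        exact Ideal.mul_mem_left _ _ (Ideal.mul_mem_left _ _ (Ideal.mul_mem_right _ _ hye_mem))

end Pool.Agent.Lib.MP_adb389_agW
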