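import Pool.Agent.Lib.MP_adb389_agW.SpecN

/-!
# Colon by a linear form, large powers
-/

set_option autoImplicit false

namespace Pool.Agent.Lib.MP_adb389_agW

open MvPolynomial Pool.Agent.Lib.MP_adb389_ag

namespace L3Aux

variable {n : ℕ} {K : Type} [Field K]

theorem sum_update (d : Fin n → ℕ) (a : Fin n) :
    ∑ j, Function.update d a 0 j + d a = ∑ j, d j := by
  classical
  rw [Finset.sum_update_of_mem (Finset.mem_univ a), zero_add,
    ← Finset.sum_erase_add Finset.univ d (Finset.mem_univ a), Finset.sdiff_singleton_eq_erase]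

theorem mem_iff {A : Matrix (Fin n) (Fin n) K} (hA : Good A) (d : Fin n → ℕ) (a : Fin n)
    (v : MvPolynomial (Fin n) K) {j : ℕ} (hj : d a ≤ j) (x : MvPolynomial (Fin n) K) :
    X a ^ j * x ∈ ann (psi A d v) ↔
      X a ^ (j - d a) * x ∈ ann (psi A (Function.update d a 0) v) := by
  rw [mem_ann_psi hA, mem_ann_psi hA, mul_left_comm v (X a ^ j) x,
    mul_left_comm v (X a ^ (j - d a)) x]
  exact mem_pow_iff' hA hj

theorem vw_iff {A : Matrix (Fin n) (Fin n) K} (hA : Good A) (d : Fin n → ℕ) (a : Fin n)
    (v : MvPolynomial (Fin n) K) {f : ℕ} (hf : d a ≤ f) (y : MvPolynomial (Fin n) K) :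
    VW (ann (psi A d v)) (X a) f y ↔
      VW (ann (psi A (Function.update d a 0) v)) (X a) (f - d a) y := by
  unfold VW
  refine exists_congr fun b => exists_congr fun c => and_congr Iff.rfl ?_
  exact mem_iff hA d a v hf b

end L3Aux

theorem L3 (hTV1 : S_TV1) : S_L3 := by
  intro n K _ _ A hA d a b c cv hd
  have hv : (lin cv).IsHomogeneous 1 := lin_hom' cv
  have hs := L3Aux.sum_update d a
  by_cases h0 : ∑ j, Function.update d a 0 j = 0
  · refine gen_true fun g f q p hf hE => ?_
    omega
  · have hE : 1 + (∑ j, Function.update d a 0 j - 1) = ∑ j, Function.update d a 0 j := by omega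
    have h1 := hTV1 n K (psi A (Function.update d a 0) (lin cv))
      (∑ j, Function.update d a 0 j - 1) (isDeg_psi hA hv hE)
      ⟨Pi.single b 1, Pi.single c 1, two_psi hA (fun j hb hc => by
        by_cases hja : j = a
        · rw [hja, Function.update_self]
        · rw [Function.update_of_ne hja]
          exact hd j hja hb hc) _⟩ (Pi.single a 1)
    refine h1.mono fun g hg f q p hf hEE => ?_
    have h2 := hg (f - d a) q p (by omega)
    rw [lin_single] at h2
    intro x hx hxm hxv
    rw [L3Aux.vw_iff hA d a _ hf] at hxv ⊢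
    refine h2 x hx ?_ hxv
    rw [L3Aux.mem_iff hA d a _ (by omega)] at hxm
    have e : f + 1 - d a = f - d a + 1 := by omega
    rwa [e] at hxm

end Pool.Agent.Lib.MP_adb389_agW
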