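import Pool.Agent.Lib.MP_adb389_agW.SpecL

/-!
# MP_adb389_agW, module LA: injectivity of powers of `z + s g`
-/

set_option autoImplicit false

namespace Pool.Agent.Lib.MP_adb389_agW

open MvPolynomial Pool.Agent.Lib.MP_adb389_ag

namespace LAAux

variable {K M : Type} [Field K] [AddCommGroup M] [Module K M]

theorem z_pow_g (G : GM K M) (n : ℕ) (x : M) : (G.z ^ n) (G.g x) = G.g ((G.z ^ n) x) := by
  induction n with
  | zero => rfl
  | succ n ih => rw [pow_succ', Module.End.mul_apply, ih, G.comm, Module.End.mul_apply]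

theorem z_pow_z (G : GM K M) (n : ℕ) (x : M) : (G.z ^ n) (G.z x) = G.z ((G.z ^ n) x) := by
  rw [← Module.End.mul_apply, ← Module.End.mul_apply, ← pow_succ, ← pow_succ']

/-- The submodule `ker z^f + z M`. -/
def J (G : GM K M) (f : ℕ) : Submodule K M := LinearMap.ker (G.z ^ f) ⊔ LinearMap.range G.z

theorem mem_J (G : GM K M) (f : ℕ) (a : M) : a ∈ J G f ↔ G.W f a := by
  unfold J GM.W
  rw [Submodule.mem_sup]
  constructor
  · rintro ⟨b, hb, _, ⟨c, rfl⟩, h⟩
    exact ⟨b, c, h.symm, hb⟩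
  · rintro ⟨b, c, h, hb⟩
    exact ⟨b, hb, G.z c, ⟨c, rfl⟩, h.symm⟩

theorem J_le (G : GM K M) (f : ℕ) : J G f ≤ (J G f).comap G.g := by
  intro a ha
  rw [Submodule.mem_comap, mem_J]
  obtain ⟨b, c, h, hb⟩ := (mem_J G f a).1 ha
  refine ⟨G.g b, G.g c, ?_, ?_⟩
  · rw [h, map_add, G.comm]
  · rw [z_pow_g, hb, map_zero]

/-- The map induced by `g` on the quotient. -/
def gV (G : GM K M) (f : ℕ) : (M ⧸ J G f) →ₗ[K] (M ⧸ J G f) := (J G f).mapQ (J G f) G.g (J_le G f)

theorem gV_mk (G : GM K M) (f : ℕ) (x : M) : gV G f ((J G f).mkQ x) = (J G f).mkQ (G.g x) := rfl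

theorem gV_pow_mk (G : GM K M) (f n : ℕ) (x : M) :
    (gV G f ^ n) ((J G f).mkQ x) = (J G f).mkQ ((G.g ^ n) x) := by
  induction n with
  | zero => rfl
  | succ n ih => rw [pow_succ', Module.End.mul_apply, ih, gV_mk, pow_succ', Module.End.mul_apply]

/-- The elements of degree `q` killed by `z^(f+1)`. -/
def D (G : GM K M) (f : ℕ) (q : ℤ) : Submodule K M :=
  LinearMap.ker (G.pr q - LinearMap.id) ⊓ LinearMap.ker (G.z ^ (f + 1))

theorem mem_D (G : GM K M) (f : ℕ) (q : ℤ) (a : M) :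
    a ∈ D G f q ↔ G.pr q a = a ∧ (G.z ^ (f + 1)) a = 0 := by
  unfold D
  rw [Submodule.mem_inf, LinearMap.mem_ker, LinearMap.mem_ker, LinearMap.sub_apply,
    LinearMap.id_apply, sub_eq_zero]

theorem shift_zero {V : Type} [AddCommGroup V] [Module K V] (m : ℕ) (x : Fin m → V) (j : Fin m)
    (hj : (j : ℕ) = 0) : shift K V m x j = 0 := by
  unfold shift
  rw [LinearMap.pi_apply, dif_pos hj]
  rfl

theorem shift_pos {V : Type} [AddCommGroup V] [Module K V] (m : ℕ) (x : Fin m → V) (j : Fin m)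
    (hj : (j : ℕ) ≠ 0) : shift K V m x j = x ⟨(j : ℕ) - 1, by omega⟩ := by
  unfold shift
  rw [LinearMap.pi_apply, dif_neg hj]
  rfl

/-- The projection of `M[w]/w^m` to the quotient. -/
def pi (G : GM K M) (f m : ℕ) : (Fin m → M) →ₗ[K] (Fin m → M ⧸ J G f) :=
  (J G f).mkQ.compLeft (Fin m)

theorem pi_apply (G : GM K M) (f m : ℕ) (x : Fin m → M) (j : Fin m) :
    pi G f m x j = (J G f).mkQ (x j) := rfl

theorem pi_step (G : GM K M) (f m : ℕ) (x : Fin m → M) :
    pi G f m ((G.g.compLeft (Fin m) + shift K M m) x) =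
      ((gV G f).compLeft (Fin m) + shift K (M ⧸ J G f) m) (pi G f m x) := by
  funext j
  have h1 : ((G.g.compLeft (Fin m) + shift K M m) x) j = G.g (x j) + shift K M m x j := rfl
  have h2 : (((gV G f).compLeft (Fin m) + shift K (M ⧸ J G f) m) (pi G f m x)) j =
      gV G f (pi G f m x j) + shift K (M ⧸ J G f) m (pi G f m x) j := rfl
  rw [pi_apply, h1, h2, map_add, pi_apply, gV_mk]
  congr 1
  by_cases hj : (j : ℕ) = 0
  · rw [shift_zero m x j hj, shift_zero m _ j hj, map_zero]
  · rw [shift_pos m x j hj, shift_pos m _ j hj, pi_apply]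

theorem pi_pow (G : GM K M) (f m n : ℕ) (x : Fin m → M) :
    pi G f m (((G.g.compLeft (Fin m) + shift K M m) ^ n) x) =
      (((gV G f).compLeft (Fin m) + shift K (M ⧸ J G f) m) ^ n) (pi G f m x) := by
  induction n with
  | zero => rfl
  | succ n ih => rw [pow_succ', Module.End.mul_apply, pi_step, ih, pow_succ', Module.End.mul_apply]

theorem compLeft_pow {V : Type} [AddCommGroup V] [Module K V] (z : V →ₗ[K] V) (m n : ℕ)
    (x : Fin m → V) (j : Fin m) : ((z.compLeft (Fin m)) ^ n) x j = (z ^ n) (x j) := by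
  induction n with
  | zero => rfl
  | succ n ih =>
    rw [pow_succ', Module.End.mul_apply, pow_succ', Module.End.mul_apply, ← ih]
    rfl

theorem L_deg (G : GM K M) (s : K) (i : ℤ) (a : M) (ha : G.pr i a = a) (n : ℕ) :
    G.pr (i + n) (((G.z + s • G.g) ^ n) a) = ((G.z + s • G.g) ^ n) a := by
  induction n with
  | zero =>
    rw [Nat.cast_zero, add_zero]
    exact ha
  | succ n ih =>
    have e : (i + ((n + 1 : ℕ) : ℤ)) = (i + n) + 1 := by push_cast; ring
    have h1 : ((G.z + s • G.g) ^ (n + 1)) a = G.z (((G.z + s • G.g) ^ n) a) +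
        s • G.g (((G.z + s • G.g) ^ n) a) := by
      rw [pow_succ', Module.End.mul_apply]
      rfl
    rw [h1, e, map_add, map_smul, ← G.zpr, ← G.gpr, ih]

end LAAux

open LAAux in
theorem LA (hLB : S_LB) (hCG : S_CG) (hGMw : S_GMw) : S_LA := by
  intro K M _ _ _ _ G i m h
  rcases Nat.eq_zero_or_pos m with hm | hm
  · subst hm
    refine Set.Finite.subset Set.finite_empty ?_
    rintro s ⟨a, _, h2, h3⟩
    exact absurd h3 h2
  obtain ⟨G', hz, hg, hpr⟩ := hGMw K M G m
  have hF := hLB K (Fin m → M) G' (i + m - 1) ?_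
  · refine Set.Finite.subset (hF.union (Set.finite_singleton 0)) ?_
    rintro s ⟨a, ha, ha0, hs⟩
    by_cases hs0 : s = 0
    · exact Or.inr hs0
    left
    let α : Fin m → M := fun j => (-s) ^ (j : ℕ) • ((G.z + s • G.g) ^ (m - 1 - (j : ℕ))) a
    have hα : ∀ j : Fin m, α j = (-s) ^ (j : ℕ) • ((G.z + s • G.g) ^ (m - 1 - (j : ℕ))) a :=
      fun j => rfl
    refine ⟨α, ?_, ?_, ?_⟩
    · funext j
      rw [hpr, hα, map_smul]
      have hj := j.isLt
      have e : i + (m : ℤ) - 1 - ((j : ℕ) : ℤ) = i + ((m - 1 - (j : ℕ) : ℕ) : ℤ) := by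
        omega
      rw [e, L_deg G s i a ha]
    · intro h0
      have h1 := congrFun h0 ⟨m - 1, by omega⟩
      rw [hα] at h1
      simp only [Nat.sub_self, pow_zero, Module.End.one_apply, Pi.zero_apply] at h1
      rcases smul_eq_zero.1 h1 with h2 | h2
      · exact absurd h2 (pow_ne_zero _ (neg_ne_zero.2 hs0))
      · exact ha0 h2
    · funext j
      rw [hz, hg]
      have hj := j.isLt
      have e1 : ((G.z.compLeft (Fin m)) α + s • (G.g.compLeft (Fin m) + shift K M m) α) j =
          G.z (α j) + s • (G.g (α j) + shift K M m α j) := rfl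
      rw [e1, smul_add, ← add_assoc]
      have e2 : ∀ x : M, G.z x + s • G.g x = (G.z + s • G.g) x := fun x => rfl
      rw [e2, hα, map_smul, ← Module.End.mul_apply, ← pow_succ']
      have e3 : m - 1 - (j : ℕ) + 1 = m - (j : ℕ) := by omega
      rw [e3]
      by_cases hj0 : (j : ℕ) = 0
      · rw [shift_zero m α j hj0, smul_zero, add_zero, hj0, Nat.sub_zero, hs, smul_zero]
        rfl
      · rw [shift_pos m α j hj0, hα]
        have e4 : m - 1 - ((j : ℕ) - 1) = m - (j : ℕ) := by omega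
        have e5 : (-s) ^ (j : ℕ) = -s * (-s) ^ ((j : ℕ) - 1) := by
          rw [← pow_succ']
          congr 1
          omega
        rw [e4, e5, smul_smul, ← add_smul]
        have e6 : -s * (-s) ^ ((j : ℕ) - 1) + s * (-s) ^ ((j : ℕ) - 1) = 0 := by ring
        rw [e6, zero_smul]
        rfl
  · intro f α h1 h2 h3
    have hdeg : ∀ j : Fin m, G.pr (i + m - (f + 1) - ((j : ℕ) : ℤ)) (α j) = α j := by
      intro j
      have h4 := congrFun h1 j
      rw [hpr] at h4
      have e : i + (m : ℤ) - 1 - (f : ℤ) - ((j : ℕ) : ℤ) =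
          i + m - (f + 1) - ((j : ℕ) : ℤ) := by ring
      rwa [e] at h4
    have hz' : ∀ j : Fin m, (G.z ^ (f + 1)) (α j) = 0 := by
      intro j
      have h4 := congrFun h2 j
      rwa [hz, compLeft_pow] at h4
    have hJ : ∀ j : Fin m, (((G.g.compLeft (Fin m) + shift K M m) ^ (f + 1)) α) j ∈ J G f := by
      intro j
      rw [hg] at h3
      obtain ⟨β, γ, h4, h5⟩ := h3
      rw [hz] at h4 h5
      rw [mem_J, h4]
      refine ⟨β j, γ j, rfl, ?_⟩
      have h6 := congrFun h5 j
      rwa [compLeft_pow] at h6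
    have key : pi G f m α = 0 := by
      refine hCG K (M ⧸ J G f) (gV G f) (fun q => (D G f q).map (J G f).mkQ) ?_ i
        (2 * i + m - f) f m (by ring) ?_ (pi G f m α) ?_ ?_
      · rintro q _ ⟨a, ha, rfl⟩
        have ha' := (mem_D G f q a).1 ha
        refine ⟨G.g a, (mem_D G f (q + 1) _).2 ⟨?_, ?_⟩, rfl⟩
        · rw [← G.gpr, ha'.1]
        · rw [z_pow_g, ha'.2, map_zero]
      · rintro q hq p hp _ ⟨a, ha, rfl⟩ h4
        have ha' := (mem_D G f q a).1 ha
        rw [gV_pow_mk, Submodule.mkQ_apply, Submodule.Quotient.mk_eq_zero, mem_J] at h4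
        have h5 := h f p q hq (by linarith) a ha'.1 ha'.2 h4
        rw [Submodule.mkQ_apply, Submodule.Quotient.mk_eq_zero, mem_J]
        exact h5
      · intro j
        exact ⟨α j, (mem_D G f _ _).2 ⟨hdeg j, hz' j⟩, rfl⟩
      · rw [← pi_pow]
        funext j
        rw [pi_apply, Submodule.mkQ_apply, Pi.zero_apply, Submodule.Quotient.mk_eq_zero]
        exact hJ j
    have hW : ∀ j : Fin m, G.W f (α j) := by
      intro j
      have h4 := congrFun key j
      rw [pi_apply, Submodule.mkQ_apply, Pi.zero_apply, Submodule.Quotient.mk_eq_zero, mem_J] at h4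
      exact h4
    choose β γ h4 h5 using hW
    refine ⟨β, γ, ?_, ?_⟩
    · funext j
      rw [hz]
      exact h4 j
    · funext j
      rw [hz, compLeft_pow]
      exact h5 j

end Pool.Agent.Lib.MP_adb389_agW
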