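import Pool.Agent.Lib.MP_adb389_agW.SpecL

/-!
# MP_adb389_agW, (LB): middle injectivity from the graded pieces
-/

set_option autoImplicit false

namespace Pool.Agent.Lib.MP_adb389_agW

open MvPolynomial Pool.Agent.Lib.MP_adb389_ag

namespace LBAux

variable {K M : Type} [Field K] [AddCommGroup M] [Module K M] (G : GM K M)

theorem commute : Commute G.z G.g := LinearMap.ext G.comm

theorem pow_comm (i j : ℕ) (x : M) : (G.z ^ i) ((G.g ^ j) x) = (G.g ^ j) ((G.z ^ i) x) := by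
  have h := ((commute G).pow_pow i j).eq
  exact LinearMap.congr_fun h x

theorem pow_pr (j : ℕ) (i : ℤ) (x : M) : (G.z ^ j) (G.pr i x) = G.pr (i + j) ((G.z ^ j) x) := by
  induction j generalizing i x with
  | zero => simp
  | succ j ih =>
    rw [pow_succ, Module.End.mul_apply, Module.End.mul_apply, G.zpr, ih]
    congr 2
    push_cast
    ring

theorem rec_pow {Q : ℕ → M} (hrec : ∀ r, G.z (Q (r + 1)) + G.g (Q r) = 0) (j : ℕ) :
    (G.z ^ j) (Q j) = (-1 : K) ^ j • (G.g ^ j) (Q 0) := by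
  induction j with
  | zero => simp
  | succ j ih =>
    have h1 : G.z (Q (j + 1)) = -G.g (Q j) := eq_neg_of_add_eq_zero_left (hrec j)
    have h2 : (G.z ^ j) (G.g (Q j)) = G.g ((G.z ^ j) (Q j)) := by
      have := pow_comm G j 1 (Q j)
      rwa [pow_one] at this
    rw [pow_succ, Module.End.mul_apply, h1, map_neg, h2, ih, map_smul, pow_succ' G.g,
      Module.End.mul_apply, pow_succ' (-1 : K), mul_smul, neg_one_smul]

theorem main {k : ℤ} (h : ∀ f : ℕ, ∀ a : M, G.pr (k - f) a = a → (G.z ^ (f + 1)) a = 0 →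
      G.W f ((G.g ^ (f + 1)) a) → G.W f a) {Q : ℕ → M} (hQ : G.pr k (Q 0) = Q 0)
    (h0 : G.z (Q 0) = 0) (hrec : ∀ r, G.z (Q (r + 1)) + G.g (Q r) = 0) : Q 0 = 0 := by
  by_contra hne
  have step : ∀ f : ℕ, (∃ a, G.pr (k - f) a = a ∧ (G.z ^ f) a = Q 0) →
      ∃ a, G.pr (k - (f + 1 : ℕ)) a = a ∧ (G.z ^ (f + 1)) a = Q 0 := by
    rintro f ⟨a, ha, hza⟩
    have h1 : (G.z ^ (f + 1)) a = 0 := by
      rw [pow_succ', Module.End.mul_apply, hza, h0]
    have h2 : G.W f ((G.g ^ (f + 1)) a) := by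
      refine ⟨(G.g ^ (f + 1)) a - (-1 : K) ^ (f + 1) • G.z (Q (f + 1)),
        (-1 : K) ^ (f + 1) • Q (f + 1), ?_, ?_⟩
      · rw [map_smul, sub_add_cancel]
      · have h3 : (G.z ^ f) (G.z (Q (f + 1))) = (-1 : K) ^ (f + 1) • (G.g ^ (f + 1)) (Q 0) := by
          rw [← Module.End.mul_apply, ← pow_succ, rec_pow G hrec]
        rw [map_sub, map_smul, h3, pow_comm, hza, smul_smul, ← mul_pow]
        simp
    obtain ⟨b, c, hab, hb⟩ := h f a ha h1 h2
    refine ⟨G.pr (k - (f + 1 : ℕ)) c, G.idem _ _, ?_⟩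
    have h4 : a = G.pr (k - f) b + G.z (G.pr (k - (f + 1 : ℕ)) c) := by
      rw [G.zpr]
      have h5 : k - ((f + 1 : ℕ) : ℤ) + 1 = k - f := by
        push_cast
        ring
      rw [h5, ← map_add, ← hab, ha]
    have h6 : (G.z ^ f) (G.pr (k - f) b) = 0 := by
      rw [pow_pr, hb, map_zero]
    rw [pow_succ, Module.End.mul_apply]
    calc (G.z ^ f) (G.z (G.pr (k - (f + 1 : ℕ)) c)) =
        (G.z ^ f) (G.pr (k - f) b + G.z (G.pr (k - (f + 1 : ℕ)) c)) := by
          rw [map_add, h6, zero_add]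
      _ = Q 0 := by rw [← h4, hza]
  have all : ∀ f : ℕ, ∃ a, G.pr (k - f) a = a ∧ (G.z ^ f) a = Q 0 := by
    intro f
    induction f with
    | zero => exact ⟨Q 0, by simpa using hQ, by simp⟩
    | succ f ih => exact step f ih
  obtain ⟨a, ha, hza⟩ := all (k.toNat + 1)
  have h7 : G.pr (k - ((k.toNat + 1 : ℕ) : ℤ)) a = 0 := G.neg _ (by push_cast; omega) a
  rw [ha] at h7
  rw [h7, map_zero] at hza
  exact hne hza.symm

end LBAux

open LBAux in
theorem LB (hP : S_Pencil) : S_LB := by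
  intro K M _ _ _ G k h
  by_contra hinf
  have hfk := G.fin k
  have hfk1 := G.fin (k + 1)
  have hz : ∀ x ∈ LinearMap.range (G.pr k), G.z x ∈ LinearMap.range (G.pr (k + 1)) := by
    rintro _ ⟨x, rfl⟩
    exact ⟨G.z x, (G.zpr k x).symm⟩
  have hg : ∀ x ∈ LinearMap.range (G.pr k), G.g x ∈ LinearMap.range (G.pr (k + 1)) := by
    rintro _ ⟨x, rfl⟩
    exact ⟨G.g x, (G.gpr k x).symm⟩
  obtain ⟨P, hP0, hz0, hrec⟩ := hP K (LinearMap.range (G.pr k)) (LinearMap.range (G.pr (k + 1)))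
    (G.z.restrict hz) (G.g.restrict hg) (by
      refine Set.Infinite.mono ?_ hinf
      rintro s ⟨a, ha, ha0, hs⟩
      refine ⟨⟨a, ⟨a, ha⟩⟩, fun h0 => ha0 (congrArg Subtype.val h0), ?_⟩
      apply Subtype.ext
      exact hs)
  apply hP0
  apply Subtype.ext
  refine main G h (Q := fun r => (P r : M)) ?_ ?_ ?_
  · obtain ⟨x, hx⟩ := (P 0).2
    rw [← hx, G.idem]
  · exact congrArg Subtype.val hz0
  · exact fun r => congrArg Subtype.val (hrec r)

end Pool.Agent.Lib.MP_adb389_agW
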