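import Pool.Agent.Lib.MP_adb389_agW.SpecL

/-!
# The degeneration lemma for polynomials
-/

set_option autoImplicit false

namespace Pool.Agent.Lib.MP_adb389_agW

open MvPolynomial Pool.Agent.Lib.MP_adb389_ag

namespace LPAux

variable {n : ℕ} {K : Type} [Field K] {J : Ideal (MvPolynomial (Fin n) K)} {c e : Fin n → K}

theorem pow_mk {F : (MvPolynomial (Fin n) K ⧸ J) →ₗ[K] (MvPolynomial (Fin n) K ⧸ J)}
    {l : MvPolynomial (Fin n) K}
    (hF : ∀ f, F (Ideal.Quotient.mk J f) = Ideal.Quotient.mk J (l * f)) (m : ℕ)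
    (f : MvPolynomial (Fin n) K) :
    (F ^ m) (Ideal.Quotient.mk J f) = Ideal.Quotient.mk J (l ^ m * f) := by
  induction m generalizing f with
  | zero => rw [pow_zero, pow_zero, one_mul]; rfl
  | succ m ih => rw [pow_succ, Module.End.mul_apply, hF, ih, pow_succ, mul_assoc]

theorem add_mk {Z G : (MvPolynomial (Fin n) K ⧸ J) →ₗ[K] (MvPolynomial (Fin n) K ⧸ J)}
    (hz : ∀ f, Z (Ideal.Quotient.mk J f) = Ideal.Quotient.mk J (lin c * f))
    (hg : ∀ f, G (Ideal.Quotient.mk J f) = Ideal.Quotient.mk J (lin e * f)) (s : K)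
    (f : MvPolynomial (Fin n) K) :
    (Z + s • G) (Ideal.Quotient.mk J f) = Ideal.Quotient.mk J (lin (c + s • e) * f) := by
  rw [LinearMap.add_apply, LinearMap.smul_apply, hz, hg, lin_add_smul, add_mul, map_add, mul_assoc,
    ← smul_eq_C_mul]
  rfl

theorem W_iff {G : GM K (MvPolynomial (Fin n) K ⧸ J)}
    (hz : ∀ f, G.z (Ideal.Quotient.mk J f) = Ideal.Quotient.mk J (lin c * f)) (f : ℕ)
    (a : MvPolynomial (Fin n) K) : G.W f (Ideal.Quotient.mk J a) ↔ VW J (lin c) f a := by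
  constructor
  · rintro ⟨b, c', h1, h2⟩
    obtain ⟨b, rfl⟩ := Ideal.Quotient.mk_surjective b
    obtain ⟨c', rfl⟩ := Ideal.Quotient.mk_surjective c'
    rw [hz, ← map_add, Ideal.Quotient.eq] at h1
    rw [pow_mk hz, Ideal.Quotient.eq_zero_iff_mem] at h2
    refine ⟨a - lin c * c', c', by ring, ?_⟩
    have e1 : lin c ^ f * (a - lin c * c') =
        lin c ^ f * b + lin c ^ f * (a - (b + lin c * c')) := by ring
    rw [e1]
    exact J.add_mem h2 (J.mul_mem_left _ h1)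
  · rintro ⟨b, c', h1, h2⟩
    refine ⟨Ideal.Quotient.mk J b, Ideal.Quotient.mk J c', ?_, ?_⟩
    · rw [hz, ← map_add, h1]
    · rw [pow_mk hz, Ideal.Quotient.eq_zero_iff_mem]
      exact h2

theorem transfer {G : GM K (MvPolynomial (Fin n) K ⧸ J)}
    (hz : ∀ f, G.z (Ideal.Quotient.mk J f) = Ideal.Quotient.mk J (lin c * f))
    (hg : ∀ f, G.g (Ideal.Quotient.mk J f) = Ideal.Quotient.mk J (lin e * f))
    (hp : ∀ (k : ℕ) (f : MvPolynomial (Fin n) K),
        G.pr k (Ideal.Quotient.mk J f) = Ideal.Quotient.mk J (homogeneousComponent k f))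
    (f p : ℕ) (q : ℤ) (h : ∀ k : ℕ, (k : ℤ) = q → Cond J (lin c) e f k p)
    (a : MvPolynomial (Fin n) K ⧸ J) (ha : G.pr q a = a) (h1 : (G.z ^ (f + 1)) a = 0)
    (h2 : G.W f ((G.g ^ p) a)) : G.W f a := by
  by_cases hq : q < 0
  · rw [← ha, G.neg q hq]
    exact ⟨0, 0, by simp, by simp⟩
  obtain ⟨k, rfl⟩ : ∃ k : ℕ, (k : ℤ) = q := ⟨q.toNat, Int.toNat_of_nonneg (by omega)⟩
  obtain ⟨a', rfl⟩ := Ideal.Quotient.mk_surjective a
  rw [hp] at ha
  rw [← ha] at h1 h2 ⊢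
  rw [pow_mk hz, Ideal.Quotient.eq_zero_iff_mem] at h1
  rw [pow_mk hg, W_iff hz] at h2
  rw [W_iff hz]
  exact h k rfl _ (homogeneousComponent_isHomogeneous k a') h1 h2

theorem not_inj {G : GM K (MvPolynomial (Fin n) K ⧸ J)}
    (hz : ∀ f, G.z (Ideal.Quotient.mk J f) = Ideal.Quotient.mk J (lin c * f))
    (hg : ∀ f, G.g (Ideal.Quotient.mk J f) = Ideal.Quotient.mk J (lin e * f))
    (hp : ∀ (k : ℕ) (f : MvPolynomial (Fin n) K),
        G.pr k (Ideal.Quotient.mk J f) = Ideal.Quotient.mk J (homogeneousComponent k f))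
    (s : K) (m i : ℕ) (h : ¬ Inj J (lin (c + s • e) ^ m) i) :
    ∃ a : MvPolynomial (Fin n) K ⧸ J, G.pr i a = a ∧ a ≠ 0 ∧ ((G.z + s • G.g) ^ m) a = 0 := by
  unfold Inj at h
  push Not at h
  obtain ⟨f, hf, h1, h2⟩ := h
  refine ⟨Ideal.Quotient.mk J f, ?_, ?_, ?_⟩
  · rw [hp, homogeneousComponent_of_mem hf, if_pos rfl]
  · intro h3
    exact h2 (Ideal.Quotient.eq_zero_iff_mem.1 h3)
  · rw [pow_mk (add_mk hz hg s), Ideal.Quotient.eq_zero_iff_mem]
    exact h1

end LPAux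

open LPAux

theorem LP (hLA : S_LA) (hLB : S_LB) (hGMp : S_GMp) : S_LP := by
  refine ⟨?_, ?_⟩
  · intro n K _ _ J c e i m hJ hC
    obtain ⟨G, hz, hg, hp⟩ := hGMp n K J c e hJ
    refine (hLA K _ G i m ?_).subset ?_
    · intro f p q hq hs a ha h1 h2
      refine transfer hz hg hp f p q ?_ a ha h1 h2
      rintro k rfl
      exact hC f k p (by omega) (by omega)
    · intro s hs
      exact not_inj hz hg hp s m i hs
  · intro n K _ J c e k hJ hC
    obtain ⟨G, hz, hg, hp⟩ := hGMp n K J c e hJ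
    refine (hLB K _ G k ?_).subset ?_
    · intro f a ha h1 h2
      refine transfer hz hg hp f (f + 1) _ ?_ a ha h1 h2
      intro q hq
      exact hC f q (by omega)
    · intro s hs
      have hs' : ¬ Inj J (lin (c + s • e) ^ 1) k := by rw [pow_one]; exact hs
      obtain ⟨a, h1, h2, h3⟩ := not_inj hz hg hp s 1 k hs'
      refine ⟨a, h1, h2, ?_⟩
      rw [pow_one] at h3
      exact h3

end Pool.Agent.Lib.MP_adb389_agW
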