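import Pool.Agent.Lib.MP_adb389_agW.SpecN

/-!
# MP_adb389_agW, task N1: small powers
-/

set_option autoImplicit false

namespace Pool.Agent.Lib.MP_adb389_agW

open MvPolynomial Pool.Agent.Lib.MP_adb389_ag

namespace N1Aux

variable {n : ℕ} {K : Type} [Field K]

theorem update_le (A : Matrix (Fin n) (Fin n) K) (d : Fin n → ℕ) (i : Fin n) (t : ℕ)
    (ht : t ≠ 0) : idl A (Function.update d i t) ≤ idl A d ⊔ Ideal.span {X i} := by
  unfold idl
  rw [Ideal.span_le]
  rintro _ ⟨j, rfl⟩
  by_cases hj : j = i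
  · subst hj
    have h1 : gen A (Function.update d j t) j = X j * (X j ^ (t - 1) * yf A j) := by
      unfold gen
      rw [Function.update_self, ← mul_assoc, ← pow_succ']
      congr 2
      omega
    rw [h1]
    exact Ideal.mem_sup_right (Ideal.mul_mem_right _ _ (Ideal.subset_span rfl))
  · have h1 : gen A (Function.update d i t) j = gen A d j := by
      unfold gen
      rw [Function.update_of_ne hj]
    rw [h1]
    exact Ideal.mem_sup_left (Ideal.subset_span ⟨j, rfl⟩)

end N1Aux

open N1Aux in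
theorem N1 : S_N1 := by
  intro n K _ A hA d a g f q p hf x _ hx _
  have h1 := (mem_pow_iff hA (show f + 1 ≤ d a by omega)).1 hx
  have h2 := update_le A d a (d a - (f + 1)) (by omega) h1
  obtain ⟨b, hb, r, hr, hbr⟩ := Submodule.mem_sup.1 h2
  obtain ⟨c, hc⟩ := Ideal.mem_span_singleton.1 hr
  exact ⟨b, c, by rw [← hc]; exact hbr.symm, Ideal.mul_mem_left _ _ hb⟩

end Pool.Agent.Lib.MP_adb389_agW
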