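import Pool.Agent.Lib.MP_adb389_agW.SpecL

/-!
# MP_adb389_agW: injectivity is an open condition on the linear form
-/

set_option autoImplicit false

namespace Pool.Agent.Lib.MP_adb389_agW

open MvPolynomial Pool.Agent.Lib.MP_adb389_ag

namespace OpenAux

variable {n : ℕ} {K : Type} [Field K]

/-- A linear functional of `lin c ^ m * b` is polynomial in `c`. -/
theorem exists_poly (ξ : MvPolynomial (Fin n) K →ₗ[K] K) (m : ℕ) :
    ∀ b : MvPolynomial (Fin n) K, ∃ Q : MvPolynomial (Fin n) K,
      ∀ c : Fin n → K, eval c Q = ξ (lin c ^ m * b) := by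
  induction m with
  | zero =>
    intro b
    exact ⟨C (ξ b), fun c => by rw [eval_C, pow_zero, one_mul]⟩
  | succ m ih =>
    intro b
    choose Q hQ using fun j : Fin n => ih (X j * b)
    refine ⟨∑ j, X j * Q j, fun c => ?_⟩
    have e : lin c ^ (m + 1) * b = ∑ j, c j • (lin c ^ m * (X j * b)) := by
      rw [pow_succ, mul_assoc]
      have h1 : lin c * b = ∑ j, C (c j) * (X j * b) := by
        unfold lin
        rw [Finset.sum_mul]
        exact Finset.sum_congr rfl fun j _ => mul_assoc _ _ _
      rw [h1, Finset.mul_sum]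
      refine Finset.sum_congr rfl fun j _ => ?_
      rw [smul_eq_C_mul]
      ring
    rw [e, map_sum, map_sum]
    refine Finset.sum_congr rfl fun j _ => ?_
    rw [map_mul, eval_X, hQ, map_smul, smul_eq_mul]

theorem finite_hom (i : ℕ) : Module.Finite K (homogeneousSubmodule (Fin n) K i) :=
  Module.Finite.iff_fg.2 (homogeneousSubmodule_fg (Fin n) K i)

end OpenAux

theorem Open : S_Open := by
  intro n K _ J i m hc
  obtain ⟨c₀, hc₀⟩ := hc
  let π : MvPolynomial (Fin n) K →ₗ[K] (MvPolynomial (Fin n) K ⧸ J) :=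
    (Ideal.Quotient.mkₐ K J).toLinearMap
  have hπ : ∀ f, π f = 0 ↔ f ∈ J := fun f => Ideal.Quotient.eq_zero_iff_mem
  let V : Submodule K (MvPolynomial (Fin n) K ⧸ J) := (homogeneousSubmodule (Fin n) K i).map π
  have hfin := OpenAux.finite_hom (n := n) (K := K) i
  have hV : Module.Finite K V := Module.Finite.map _ _
  let B := Module.finBasis K V
  have hb : ∀ j, ∃ b, b ∈ homogeneousSubmodule (Fin n) K i ∧ π b = (B j : MvPolynomial (Fin n) K ⧸ J) :=
    fun j => (B j).2
  choose b hb1 hb2 using hb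
  have hsum : ∀ u : Fin (Module.finrank K V) → K,
      π (∑ j, u j • b j) = ((∑ j, u j • B j : V) : MvPolynomial (Fin n) K ⧸ J) := by
    intro u
    rw [map_sum, Submodule.coe_sum]
    refine Finset.sum_congr rfl fun j _ => ?_
    rw [map_smul, hb2, Submodule.coe_smul]
  let Φ : (Fin (Module.finrank K V) → K) →ₗ[K] (MvPolynomial (Fin n) K ⧸ J) :=
    Fintype.linearCombination K fun j => π (lin c₀ ^ m * b j)
  have hΦ : ∀ u, Φ u = π (lin c₀ ^ m * ∑ j, u j • b j) := by
    intro u
    show Fintype.linearCombination K _ u = _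
    rw [Fintype.linearCombination_apply, Finset.mul_sum, map_sum]
    refine Finset.sum_congr rfl fun j _ => ?_
    rw [mul_smul_comm, map_smul]
  have hker : LinearMap.ker Φ = ⊥ := by
    rw [LinearMap.ker_eq_bot']
    intro u hu
    rw [hΦ, hπ] at hu
    have h1 : ∑ j, u j • b j ∈ J := by
      refine hc₀ _ ?_ hu
      exact Submodule.sum_mem (homogeneousSubmodule (Fin n) K i)
        fun j _ => Submodule.smul_mem _ _ (hb1 j)
    rw [← hπ, hsum] at h1
    have h2 : ∑ j, u j • B j = 0 := Subtype.ext h1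
    funext j
    exact Fintype.linearIndependent_iff.1 B.linearIndependent u h2 j
  obtain ⟨Ψ, hΨ⟩ := LinearMap.exists_leftInverse_of_injective Φ hker
  let ξ : Fin (Module.finrank K V) → MvPolynomial (Fin n) K →ₗ[K] K := fun l =>
    (LinearMap.proj l).comp (Ψ.comp π)
  have hξJ : ∀ l f, f ∈ J → ξ l f = 0 := by
    intro l f hf
    show Ψ (π f) l = 0
    rw [(hπ f).2 hf, map_zero]
    rfl
  choose Q hQ using fun l j => OpenAux.exists_poly (ξ l) m (b j)
  have hdet : ∀ c, eval c (Matrix.of Q).det =
      (Matrix.of fun l j => ξ l (lin c ^ m * b j)).det := by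
    intro c
    rw [RingHom.map_det]
    congr 1
    ext l j
    rw [RingHom.mapMatrix_apply, Matrix.map_apply, Matrix.of_apply, Matrix.of_apply, hQ]
  refine ⟨(Matrix.of Q).det, ?_, ?_⟩
  · intro h0
    have h1 := hdet c₀
    have h2 : (Matrix.of fun l j => ξ l (lin c₀ ^ m * b j)) = 1 := by
      ext l j
      rw [Matrix.of_apply]
      show Ψ (π (lin c₀ ^ m * b j)) l = _
      have h3 : π (lin c₀ ^ m * b j) = Φ (Pi.single j 1) := by
        rw [hΦ]
        congr 2
        rw [Finset.sum_eq_single j]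
        · rw [Pi.single_eq_same, one_smul]
        · intro k _ hk
          rw [Pi.single_eq_of_ne hk, zero_smul]
        · intro h; exact absurd (Finset.mem_univ j) h
      have h4 : Ψ (Φ (Pi.single j 1)) = Pi.single j 1 := LinearMap.congr_fun hΨ _
      rw [h3, h4, Matrix.one_apply, Pi.single_apply]
    rw [h0, map_zero, h2, Matrix.det_one] at h1
    exact zero_ne_one h1
  · intro c hc f hf hcf
    rw [hdet] at hc
    have hfV : π f ∈ V := ⟨f, hf, rfl⟩
    let u : Fin (Module.finrank K V) → K := fun j => B.repr ⟨π f, hfV⟩ j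
    have h1 : π (∑ j, u j • b j) = π f := by
      rw [hsum]
      exact congrArg Subtype.val (B.sum_repr ⟨π f, hfV⟩)
    have h2 : f - ∑ j, u j • b j ∈ J := by
      rw [← hπ, map_sub, h1, sub_self]
    have h3 : lin c ^ m * ∑ j, u j • b j ∈ J := by
      have e : lin c ^ m * ∑ j, u j • b j = lin c ^ m * f - lin c ^ m * (f - ∑ j, u j • b j) := by
        ring
      rw [e]
      exact J.sub_mem hcf (J.mul_mem_left _ h2)
    have h4 : (Matrix.of fun l j => ξ l (lin c ^ m * b j)).mulVec u = 0 := by
      funext l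
      have h5 := hξJ l _ h3
      rw [Finset.mul_sum, map_sum] at h5
      rw [Pi.zero_apply, ← h5]
      show ∑ j, (ξ l (lin c ^ m * b j)) * u j = _
      refine Finset.sum_congr rfl fun j _ => ?_
      rw [mul_smul_comm, map_smul, smul_eq_mul, mul_comm]
    have h6 : u = 0 := Matrix.eq_zero_of_mulVec_eq_zero hc h4
    have h7 : ∑ j, u j • b j = 0 := by
      refine Finset.sum_eq_zero fun j _ => ?_
      rw [h6, Pi.zero_apply, zero_smul]
    rwa [h7, sub_zero] at h2

end Pool.Agent.Lib.MP_adb389_agW
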