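import Pool.Agent.Lib.MP_adb389_agW.SpecN

/-!
# MP_adb389_agW: the projection along a row form
-/

set_option autoImplicit false

namespace Pool.Agent.Lib.MP_adb389_agW

open MvPolynomial Pool.Agent.Lib.MP_adb389_ag

namespace PrjAux

variable {n : ℕ} {K : Type} [Field K]

theorem coeff_lin (c : Fin n → K) (i : Fin n) : coeff (Finsupp.single i 1) (lin c) = c i := by
  classical
  unfold lin
  rw [coeff_sum, Finset.sum_eq_single i]
  · rw [coeff_C_mul, coeff_X, if_pos rfl, mul_one]
  · intro j _ hj
    rw [coeff_C_mul, coeff_X, if_neg, mul_zero]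
    intro h
    exact hj (Finsupp.single_left_injective one_ne_zero h)
  · intro h; exact absurd (Finset.mem_univ i) h

theorem lin_smul (s : K) (c : Fin n → K) : C s * lin c = lin (s • c) := by
  unfold lin
  rw [Finset.mul_sum]
  refine Finset.sum_congr rfl fun j _ => ?_
  rw [Pi.smul_apply, smul_eq_mul, C_mul, mul_assoc]

theorem lin_add (c e : Fin n → K) : lin (c + e) = lin c + lin e := by
  unfold lin
  rw [← Finset.sum_add_distrib]
  refine Finset.sum_congr rfl fun j _ => ?_
  rw [Pi.add_apply, C_add, add_mul]

theorem diag {A : Matrix (Fin n) (Fin n) K} (hA : Good A) (i : Fin n) : A i i ≠ 0 := by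
  classical
  intro h
  have h1 := hA {i} (Pi.single i 1) (fun j hj => by
    rw [Finset.mem_singleton] at hj
    rw [Pi.single_eq_of_ne hj]) (fun l hl => by
    rw [Finset.mem_singleton] at hl
    subst hl
    rw [Finset.sum_eq_single l]
    · rw [h, zero_mul]
    · intro j _ hj
      rw [Pi.single_eq_of_ne hj, mul_zero]
    · intro h; exact absurd (Finset.mem_univ l) h)
  have h2 := congrFun h1 i
  rw [Pi.single_eq_same, Pi.zero_apply] at h2
  exact one_ne_zero h2

theorem prj_ne (A : Matrix (Fin n) (Fin n) K) {i j : Fin n} (h : j ≠ i) :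
    prj A i (X j) = X j := by
  unfold prj
  rw [aeval_X, if_neg h]

theorem prj_self (A : Matrix (Fin n) (Fin n) K) (i : Fin n) :
    prj A i (X i) = -(C (A i i)⁻¹ * ∑ l ∈ Finset.univ.erase i, C (A i l) * X l) := by
  unfold prj
  rw [aeval_X, if_pos rfl]

theorem yf_split (A : Matrix (Fin n) (Fin n) K) (i : Fin n) :
    yf A i = C (A i i) * X i + ∑ l ∈ Finset.univ.erase i, C (A i l) * X l := by
  unfold yf
  rw [Finset.add_sum_erase Finset.univ (fun l => C (A i l) * X l) (Finset.mem_univ i)]

theorem CC {A : Matrix (Fin n) (Fin n) K} (hA : Good A) (i : Fin n) :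
    (C (A i i)⁻¹ * C (A i i) : MvPolynomial (Fin n) K) = 1 := by
  rw [← C_mul, inv_mul_cancel₀ (diag hA i), C_1]

theorem X_sub {A : Matrix (Fin n) (Fin n) K} (hA : Good A) (i : Fin n) :
    X i - prj A i (X i) = C (A i i)⁻¹ * yf A i := by
  rw [prj_self, yf_split, mul_add, ← mul_assoc, CC hA i, one_mul, sub_neg_eq_add]

/-- the projection is the identity on the span of the other variables -/
theorem prj_sum (A : Matrix (Fin n) (Fin n) K) (i : Fin n) (f : Fin n → K) :
    prj A i (∑ l ∈ Finset.univ.erase i, C (f l) * X l) =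
      ∑ l ∈ Finset.univ.erase i, C (f l) * X l := by
  rw [map_sum]
  refine Finset.sum_congr rfl fun l hl => ?_
  rw [map_mul, prj_ne A (Finset.ne_of_mem_erase hl), ← algebraMap_eq, AlgHom.commutes]

theorem prj_yf {A : Matrix (Fin n) (Fin n) K} (hA : Good A) (i : Fin n) :
    prj A i (yf A i) = 0 := by
  have h : (C (A i i) * C (A i i)⁻¹ : MvPolynomial (Fin n) K) = 1 := by rw [mul_comm, CC hA i]
  have h2 : prj A i (C (A i i)) = C (A i i) := by rw [← algebraMap_eq, AlgHom.commutes]
  rw [yf_split, map_add, map_mul, prj_sum, prj_self, h2, mul_neg, ← mul_assoc, h, one_mul,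
    neg_add_cancel]

theorem sub_mem {A : Matrix (Fin n) (Fin n) K} (hA : Good A) (i : Fin n)
    (p : MvPolynomial (Fin n) K) : p - prj A i p ∈ Ideal.span {yf A i} := by
  induction p using MvPolynomial.induction_on with
  | C a =>
    have h2 : prj A i (C a) = C a := by rw [← algebraMap_eq, AlgHom.commutes]
    rw [h2, sub_self]
    exact Ideal.zero_mem _
  | add p q hp hq =>
    rw [map_add, add_sub_add_comm]
    exact Ideal.add_mem _ hp hq
  | mul_X p j hp =>
    have hX : (X j : MvPolynomial (Fin n) K) - prj A i (X j) ∈ Ideal.span {yf A i} := by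
      by_cases hj : j = i
      · subst hj
        rw [X_sub hA]
        exact Ideal.mul_mem_left _ _ (Ideal.subset_span rfl)
      · rw [prj_ne A hj, sub_self]
        exact Ideal.zero_mem _
    have e : p * X j - prj A i (p * X j) =
        X j * (p - prj A i p) + prj A i p * (X j - prj A i (X j)) := by
      rw [map_mul]; ring
    rw [e]
    exact Ideal.add_mem _ (Ideal.mul_mem_left _ _ hp) (Ideal.mul_mem_left _ _ hX)

theorem ker {A : Matrix (Fin n) (Fin n) K} (hA : Good A) (i : Fin n)
    (p : MvPolynomial (Fin n) K) : prj A i p = 0 ↔ p ∈ Ideal.span {yf A i} := by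
  constructor
  · intro h
    have := sub_mem hA i p
    rwa [h, sub_zero] at this
  · intro h
    rw [Ideal.mem_span_singleton] at h
    obtain ⟨r, rfl⟩ := h
    rw [map_mul, prj_yf hA, zero_mul]

theorem prj_lin (A : Matrix (Fin n) (Fin n) K) (i : Fin n) (c : Fin n → K) :
    ∃ c', prj A i (lin c) = lin c' := by
  classical
  have hX : ∀ j : Fin n, ∃ c', prj A i (X j) = lin c' := by
    intro j
    by_cases hj : j = i
    · subst hj
      refine ⟨(-(A j j)⁻¹) • fun l => if l = j then 0 else A j l, ?_⟩
      rw [← lin_smul, prj_self, C_neg, neg_mul]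
      congr 2
      unfold lin
      rw [← Finset.add_sum_erase Finset.univ _ (Finset.mem_univ j)]
      beta_reduce
      rw [if_pos rfl, C_0, zero_mul, zero_add]
      refine Finset.sum_congr rfl fun l hl => ?_
      rw [if_neg (Finset.ne_of_mem_erase hl)]
    · exact ⟨Pi.single j 1, by rw [prj_ne A hj, lin_single]⟩
  choose v hv using hX
  refine ⟨∑ j, c j • v j, ?_⟩
  have hs : ∀ s : Finset (Fin n), ∑ j ∈ s, C (c j) * lin (v j) = lin (∑ j ∈ s, c j • v j) := by
    intro s
    induction s using Finset.induction_on with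
    | empty =>
      rw [Finset.sum_empty, Finset.sum_empty]
      unfold lin
      symm
      refine Finset.sum_eq_zero fun j _ => ?_
      rw [Pi.zero_apply, C_0, zero_mul]
    | insert a s ha ih =>
      rw [Finset.sum_insert ha, Finset.sum_insert ha, lin_add, ih, lin_smul]
  rw [← hs]
  conv_lhs => unfold lin
  rw [map_sum]
  refine Finset.sum_congr rfl fun j _ => ?_
  rw [map_mul, hv, ← algebraMap_eq, AlgHom.commutes]

theorem last {A : Matrix (Fin n) (Fin n) K} (hA : Good A) {i j : Fin n} (h : j ≠ i) :
    prj A i (yf A j) ≠ 0 := by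
  classical
  intro h0
  rw [ker hA, Ideal.mem_span_singleton] at h0
  obtain ⟨r, hr⟩ := h0
  have h1 : homogeneousComponent (1 + 0) (yf A i * r) = yf A i * homogeneousComponent 0 r :=
    hc_mul (yf_hom A i)
  rw [← hr, homogeneousComponent_zero, homogeneousComponent_of_mem (yf_hom A j), if_pos rfl,
    mul_comm, yf_eq_lin, yf_eq_lin, lin_smul] at h1
  have h2 : ∀ l, A j l = coeff 0 r * A i l := by
    intro l
    have := congrArg (coeff (Finsupp.single l 1)) h1
    rwa [coeff_lin, coeff_lin, Pi.smul_apply, smul_eq_mul] at this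
  have hsum : ∀ l, ∑ m, A l m * (if m = i then A i j else if m = j then -A i i else 0) =
      A l i * A i j - A l j * A i i := by
    intro l
    have e : ∀ m, A l m * (if m = i then A i j else if m = j then -A i i else 0) =
        (if m = i then A l i * A i j else 0) + (if m = j then -(A l j * A i i) else 0) := by
      intro m
      by_cases h3 : m = i
      · subst h3
        rw [if_pos rfl, if_pos rfl, if_neg (Ne.symm h), add_zero]
      · rw [if_neg h3, if_neg h3, zero_add]
        by_cases h4 : m = j
        · subst h4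
          rw [if_pos rfl, if_pos rfl, mul_neg]
        · rw [if_neg h4, if_neg h4, mul_zero]
    rw [Finset.sum_congr rfl fun m _ => e m, Finset.sum_add_distrib, Finset.sum_ite_eq',
      Finset.sum_ite_eq', if_pos (Finset.mem_univ _), if_pos (Finset.mem_univ _), ← sub_eq_add_neg]
  have h5 := hA {i, j} (fun m => if m = i then A i j else if m = j then -A i i else 0)
    (fun m hm => by
      rw [Finset.mem_insert, Finset.mem_singleton, not_or] at hm
      rw [if_neg hm.1, if_neg hm.2])
    (fun l hl => by
      rw [hsum]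
      rw [Finset.mem_insert, Finset.mem_singleton] at hl
      rcases hl with rfl | rfl
      · ring
      · rw [h2 i, h2 l]; ring)
  have h6 := congrFun h5 j
  rw [if_neg h, if_pos rfl, Pi.zero_apply, neg_eq_zero] at h6
  exact diag hA i h6

end PrjAux

open PrjAux in
theorem Prj : S_Prj := by
  intro n K _ A hA i
  refine ⟨ker hA i, sub_mem hA i, ?_, prj_lin A i, fun j hj => prj_ne A hj, fun j hj => last hA hj⟩
  intro p
  have h := (ker hA i (prj A i p - p)).2 (by
    rw [← neg_sub]
    exact neg_mem (sub_mem hA i p))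
  rwa [map_sub, sub_eq_zero] at h

end Pool.Agent.Lib.MP_adb389_agW
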