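import Pool.Agent.Lib.MP_adb389_agW.SpecN

/-!
# The strong Lefschetz property in three variables
-/

set_option autoImplicit false

namespace Pool.Agent.Lib.MP_adb389_agW

open MvPolynomial Pool.Agent.Lib.MP_adb389_ag

theorem S3 (hS3c : S_S3c) (hLP : S_LP) (hOpen : S_Open) : S_S3 := by
  intro n K _ _ A hA d a b c hd i m him
  apply hOpen
  obtain ⟨g, hg⟩ := (hS3c n K A hA d a b c hd).exists
  have hfin := hLP.1 n K (idl A d) (Pi.single a 1) g i m (homI_idl A d) (by
    intro f q p _ hfq
    rw [lin_single]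
    exact hg f q p (by omega))
  have hex : ∃ s : K, s ∉ {s : K | ¬ Inj (idl A d) (lin (Pi.single a 1 + s • g) ^ m) i} := by
    by_contra hcon
    push Not at hcon
    exact Set.infinite_univ (hfin.subset fun s _ => hcon s)
  obtain ⟨s, hs⟩ := hex
  exact ⟨Pi.single a 1 + s • g, not_not.1 hs⟩

end Pool.Agent.Lib.MP_adb389_agW
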