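import Pool.Agent.Lib.MP_adb389_agW.SpecN

set_option autoImplicit false

namespace Pool.Agent.Lib.MP_adb389_agW

open MvPolynomial Pool.Agent.Lib.MP_adb389_ag

namespace S3cAux

theorem sum_upd {n : ℕ} (d : Fin n → ℕ) (a : Fin n) :
    ∑ j, d j = d a + ∑ j, Function.update d a 0 j := by
  rw [Finset.sum_update_of_mem (Finset.mem_univ a), zero_add, Finset.sdiff_singleton_eq_erase,
    Finset.add_sum_erase _ _ (Finset.mem_univ a)]

theorem vw_of_mem {n : ℕ} {K : Type} [Field K] {J : Ideal (MvPolynomial (Fin n) K)}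
    {z : MvPolynomial (Fin n) K} {f : ℕ} {a : MvPolynomial (Fin n) K} (h : a ∈ J) :
    VW J z f a :=
  ⟨a, 0, by rw [mul_zero, add_zero], Ideal.mul_mem_left _ _ h⟩

end S3cAux

open S3cAux in
theorem S3c (hN1 : S_N1) (hTV0 : S_TV0) (hTV1 : S_TV1) : S_S3c := by
  intro n K _ _ A hA d a b c hd
  have hd0 : ∀ j, j ≠ b → j ≠ c → Function.update d a 0 j = 0 := by
    intro j hb hc
    by_cases hj : j = a
    · rw [hj, Function.update_self]
    · rw [Function.update_of_ne hj]
      exact hd j hj hb hc
  have hsum := sum_upd d a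
  have hA' := good_unitRow hA a
  have g1 : Gen fun g : Fin n → K => ∀ q p : ℕ, 2 * q + p + 1 = ∑ j, Function.update d a 0 j →
      Inj (ann (psi (unitRow A a) (Function.update d a 0) (yf A a))) (lin g ^ p) q := by
    by_cases h : 1 ≤ ∑ j, Function.update d a 0 j
    · have := gen_forall_two (n := n) (K := K) (∑ j, Function.update d a 0 j - 1)
        (P := fun q p g => Inj (ann (psi (unitRow A a) (Function.update d a 0) (yf A a)))
          (lin g ^ p) q)
        (fun q p hqp => hTV0 n K _ _ (isDeg_psi hA' (yf_hom A a) (by omega))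
          ⟨_, _, two_psi hA' hd0 _⟩ q p hqp)
      exact this.mono fun g hg q p hqp => hg q p (by omega)
    · exact gen_true fun g q p hqp => absurd hqp (by omega)
  have g2 := hTV1 n K (psi A (Function.update d a 0) 1) (∑ j, Function.update d a 0 j)
    (isDeg_psi hA (t := 0) (isHomogeneous_one _ _) (by omega)) ⟨_, _, two_psi hA hd0 _⟩
    (Pi.single a 1)
  refine (g1.and g2).mono ?_
  rintro g ⟨h1, h2⟩ f q p hqp
  rcases lt_trichotomy (f + 1) (d a) with hf | hf | hf
  · exact hN1 n K A hA d a g f q p hf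
  · rintro x hx hxm ⟨β, γ, hβγ, hβ⟩
    rw [mem_pow_iff hA (by omega)] at hxm hβ
    have e1 : d a - (f + 1) = 0 := by omega
    have e2 : d a - f = 1 := by omega
    rw [e1] at hxm
    rw [e2] at hβ
    obtain ⟨b₁, h, hxb, hb₁⟩ := exists_y hxm
    have hx2 : x = homogeneousComponent q b₁ + homogeneousComponent q (yf A a * h) := by
      have h3 := congrArg (homogeneousComponent q) hxb
      rw [map_add, homogeneousComponent_of_mem hx, if_pos rfl] at h3
      exact h3
    have hb₂ : homogeneousComponent q b₁ ∈ idl A d := hc_mem hb₁ q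
    rcases Nat.eq_zero_or_pos q with hq | hq
    · subst hq
      rw [hc_mul_zero (yf_hom A a) Nat.zero_lt_one, add_zero] at hx2
      exact vw_of_mem (hx2 ▸ hb₂)
    · obtain ⟨q', rfl⟩ : ∃ q', q = 1 + q' := ⟨q - 1, by omega⟩
      rw [hc_mul (yf_hom A a)] at hx2
      have hle := idl_le_unitRow (A := A) (d := d) (i := a) (by omega)
      have hXa := X_mem_unitRow A d a
      have hβ' := idl_one_le hβ
      have h3 : yf A a * (lin g ^ p * homogeneousComponent q' h) ∈
          idl (unitRow A a) (Function.update d a 0) := by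
        have e3 : yf A a * (lin g ^ p * homogeneousComponent q' h) =
            β + X a * γ - lin g ^ p * homogeneousComponent (1 + q') b₁ := by
          rw [← hβγ]
          conv_rhs => rw [hx2]
          ring
        rw [e3]
        exact Ideal.sub_mem _ (Ideal.add_mem _ hβ' (Ideal.mul_mem_right _ _ hXa))
          (Ideal.mul_mem_left _ _ (hle hb₂))
      have h4 := h1 q' p (by omega) _ (homogeneousComponent_isHomogeneous q' h)
        ((mem_ann_psi hA').2 h3)
      have h5 := (mem_ann_psi hA').1 h4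
      have h6 : x ∈ idl (unitRow A a) (Function.update d a 0) := by
        rw [hx2]
        exact Ideal.add_mem _ (hle hb₂) h5
      obtain ⟨b₃, h₃, e4, h7⟩ := exists_X h6
      exact ⟨b₃, h₃, e4, Ideal.mul_mem_left _ _ h7⟩
  · rintro x hx hxm ⟨β, γ, hβγ, hβ⟩
    rw [mem_pow_iff' hA (by omega)] at hxm hβ
    have h3 := h2 (f - d a) q p (by omega)
    rw [ann_psi_one hA, lin_single] at h3
    have e1 : f + 1 - d a = f - d a + 1 := by omega
    rw [e1] at hxm
    obtain ⟨b₃, h₃, e4, h7⟩ := h3 x hx hxm ⟨β, γ, hβγ, hβ⟩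
    refine ⟨b₃, h₃, e4, ?_⟩
    rw [mem_pow_iff' hA (by omega)]
    exact h7

end Pool.Agent.Lib.MP_adb389_agW
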