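import Pool.Agent.Lib.MP_adb389_agW.SpecL

/-!
# The strong Lefschetz property in two variables
-/

set_option autoImplicit false

namespace Pool.Agent.Lib.MP_adb389_agW

open MvPolynomial Pool.Agent.Lib.MP_adb389_ag

theorem TV0 (hTVa : S_TVa) (hLP : S_LP) (hOpen : S_Open) : S_TV0 := by
  intro n K _ _ ψ E hψ hT i m hE
  obtain ⟨c, e, hT⟩ := hT
  refine hOpen n K (ann ψ) i m ?_
  have h := hLP.1 n K (ann ψ) c e i m (homI_ann hψ) fun f q p _ hq =>
    hTVa n K ψ E hψ c e hT f q p (by omega)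
  obtain ⟨s, hs⟩ := h.infinite_compl.nonempty
  refine ⟨c + s • e, ?_⟩
  by_contra hcon
  exact hs hcon

end Pool.Agent.Lib.MP_adb389_agW
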