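import Pool.Agent.Lib.MP_adb389_agW.SpecL

/-!
# The modules of the degeneration in two variables
-/

set_option autoImplicit false

namespace Pool.Agent.Lib.MP_adb389_agW

open MvPolynomial Pool.Agent.Lib.MP_adb389_ag

namespace TV1Aux

variable {n : ℕ} {K : Type} [Field K]

theorem comb (J : Ideal (MvPolynomial (Fin n) K)) (L1 L2 Z Le Ll : MvPolynomial (Fin n) K)
    (x y X' Y' Xl Yl α β : K) (hz : Z - C x * L1 - C y * L2 ∈ J)
    (he : Le - C X' * L1 - C Y' * L2 ∈ J) (hl : Ll - C Xl * L1 - C Yl * L2 ∈ J)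
    (h1 : Xl = α * x + β * X') (h2 : Yl = α * y + β * Y') :
    Ll - C α * Z - C β * Le ∈ J := by
  have e : Ll - C α * Z - C β * Le = (Ll - C Xl * L1 - C Yl * L2) -
      C α * (Z - C x * L1 - C y * L2) - C β * (Le - C X' * L1 - C Y' * L2) := by
    rw [h1, h2, C_add, C_add, C_mul, C_mul, C_mul, C_mul]
    ring
  rw [e]
  exact J.sub_mem (J.sub_mem hl (J.mul_mem_left _ hz)) (J.mul_mem_left _ he)

theorem lin_comb (J : Ideal (MvPolynomial (Fin n) K)) (L1 L2 : MvPolynomial (Fin n) K)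
    (x y : Fin n → K) (h : ∀ j, X j - C (x j) * L1 - C (y j) * L2 ∈ J) (l : Fin n → K) :
    lin l - C (∑ j, l j * x j) * L1 - C (∑ j, l j * y j) * L2 ∈ J := by
  have e : lin l - C (∑ j, l j * x j) * L1 - C (∑ j, l j * y j) * L2 =
      ∑ j, C (l j) * (X j - C (x j) * L1 - C (y j) * L2) := by
    unfold lin
    rw [map_sum, map_sum, Finset.sum_mul, Finset.sum_mul, ← Finset.sum_sub_distrib,
      ← Finset.sum_sub_distrib]
    refine Finset.sum_congr rfl fun j _ => ?_
    rw [C_mul, C_mul]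
    ring
  rw [e]
  exact Ideal.sum_mem _ fun j _ => Ideal.mul_mem_left _ _ (h j)

/-- For generic `e` the forms `lin c` and `lin e` generate all linear forms. -/
theorem gen_two (ψ : MvPolynomial (Fin n) K →ₗ[K] K) (c₁ e₁ : Fin n → K) (h : Two ψ c₁ e₁)
    (c : Fin n → K) (hc : lin c ∉ ann ψ) : Gen fun e => Two ψ c e := by
  have h' : ∀ j : Fin n, ∃ x y : K, X j - C x * lin c₁ - C y * lin e₁ ∈ ann ψ := by
    intro j
    have := h (Pi.single j 1)
    rwa [lin_single] at this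
  choose x y hxy using h'
  have hl := lin_comb (ann ψ) (lin c₁) (lin e₁) x y hxy
  obtain ⟨x₀, hx₀⟩ : ∃ x₀, ∑ j, c j * x j = x₀ := ⟨_, rfl⟩
  obtain ⟨y₀, hy₀⟩ : ∃ y₀, ∑ j, c j * y j = y₀ := ⟨_, rfl⟩
  have hz := hl c
  rw [hx₀, hy₀] at hz
  by_cases hall : ∀ j, x₀ * y j = y₀ * x j
  · refine gen_true fun e l => ?_
    have hll : x₀ * ∑ j, l j * y j = y₀ * ∑ j, l j * x j := by
      rw [Finset.mul_sum, Finset.mul_sum]
      refine Finset.sum_congr rfl fun j _ => ?_
      calc x₀ * (l j * y j) = l j * (x₀ * y j) := by ring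
        _ = l j * (y₀ * x j) := by rw [hall j]
        _ = y₀ * (l j * x j) := by ring
    by_cases hx : x₀ = 0
    · have hy : y₀ ≠ 0 := by
        intro hy
        apply hc
        rw [hx, hy, C_0, zero_mul, zero_mul, sub_zero, sub_zero] at hz
        exact hz
      have hX : ∑ j, l j * x j = 0 := by
        rw [hx, zero_mul] at hll
        exact (mul_eq_zero.1 hll.symm).resolve_left hy
      refine ⟨(∑ j, l j * y j) / y₀, 0, comb _ _ _ _ _ _ _ _ _ _ _ _ _ _ hz (hl e) (hl l) ?_ ?_⟩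
      · rw [hX, hx, mul_zero, zero_mul, add_zero]
      · rw [div_mul_cancel₀ _ hy, zero_mul, add_zero]
    · refine ⟨(∑ j, l j * x j) / x₀, 0, comb _ _ _ _ _ _ _ _ _ _ _ _ _ _ hz (hl e) (hl l) ?_ ?_⟩
      · rw [div_mul_cancel₀ _ hx, zero_mul, add_zero]
      · rw [zero_mul, add_zero, div_mul_eq_mul_div, eq_div_iff hx, mul_comm, hll, mul_comm]
  · push Not at hall
    obtain ⟨j₀, hj₀⟩ := hall
    have hev : ∀ e : Fin n → K, eval e (lin (fun j => x₀ * y j - y₀ * x j)) =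
        x₀ * (∑ j, e j * y j) - y₀ * ∑ j, e j * x j := by
      intro e
      unfold lin
      rw [map_sum, Finset.mul_sum, Finset.mul_sum, ← Finset.sum_sub_distrib]
      refine Finset.sum_congr rfl fun j _ => ?_
      rw [map_mul, eval_C, eval_X]
      ring
    refine ⟨lin (fun j => x₀ * y j - y₀ * x j), ?_, fun e he l => ?_⟩
    · intro h0
      have h1 := hev (Pi.single j₀ 1)
      rw [h0, map_zero, Finset.sum_eq_single j₀, Finset.sum_eq_single j₀, Pi.single_eq_same,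
        one_mul, one_mul] at h1
      · exact hj₀ (sub_eq_zero.1 h1.symm)
      · intro b _ hb
        rw [Pi.single_eq_of_ne hb, zero_mul]
      · intro h2
        exact absurd (Finset.mem_univ _) h2
      · intro b _ hb
        rw [Pi.single_eq_of_ne hb, zero_mul]
      · intro h2
        exact absurd (Finset.mem_univ _) h2
    · rw [hev] at he
      obtain ⟨X', hX'⟩ : ∃ X', ∑ j, e j * x j = X' := ⟨_, rfl⟩
      obtain ⟨Y', hY'⟩ : ∃ Y', ∑ j, e j * y j = Y' := ⟨_, rfl⟩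
      obtain ⟨Xl, hXl⟩ : ∃ Xl, ∑ j, l j * x j = Xl := ⟨_, rfl⟩
      obtain ⟨Yl, hYl⟩ : ∃ Yl, ∑ j, l j * y j = Yl := ⟨_, rfl⟩
      have h1 := hl e
      have h2 := hl l
      rw [hX', hY'] at h1
      rw [hXl, hYl] at h2
      rw [hX', hY'] at he
      refine ⟨(Xl * Y' - Yl * X') / (x₀ * Y' - y₀ * X'),
        (Yl * x₀ - Xl * y₀) / (x₀ * Y' - y₀ * X'),
        comb _ _ _ _ _ _ _ _ _ _ _ _ _ _ hz h1 h2 ?_ ?_⟩
      · rw [div_mul_eq_mul_div, div_mul_eq_mul_div, ← add_div, eq_div_iff he]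
        ring
      · rw [div_mul_eq_mul_div, div_mul_eq_mul_div, ← add_div, eq_div_iff he]
        ring

end TV1Aux

open TV1Aux in
theorem TV1 (hTVa : S_TVa) (hTV0 : S_TV0) : S_TV1 := by
  intro n K _ _ ψ E hE hex c
  by_cases hc : lin c ∈ ann ψ
  · have h0 := gen_forall_two E (P := fun q p e => Inj (ann ψ) (lin e ^ p) q)
      fun q p hqp => hTV0 n K ψ E hE hex q p hqp
    refine h0.mono fun e he f q p hfqp a ha _ hVW => ?_
    rcases Nat.eq_zero_or_pos f with hf | hf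
    · subst hf
      obtain ⟨b, c', hbc, hb⟩ := hVW
      rw [pow_zero, one_mul] at hb
      have h1 : lin e ^ p * a ∈ ann ψ := by
        rw [hbc]
        exact (ann ψ).add_mem hb (Ideal.mul_mem_right _ _ hc)
      have h2 := he q p (by omega) a ha h1
      exact ⟨a, 0, by rw [mul_zero, add_zero], by rw [pow_zero, one_mul]; exact h2⟩
    · refine ⟨a, 0, by rw [mul_zero, add_zero], ?_⟩
      obtain ⟨f', rfl⟩ : ∃ f', f = f' + 1 := ⟨f - 1, by omega⟩
      rw [pow_succ, mul_assoc]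
      exact Ideal.mul_mem_left _ _ (Ideal.mul_mem_right _ _ hc)
  · obtain ⟨c₁, e₁, h⟩ := hex
    exact (gen_two ψ c₁ e₁ h c hc).mono fun e he f q p hfqp => hTVa n K ψ E hE c e he f q p hfqp

end Pool.Agent.Lib.MP_adb389_agW
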