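import Pool.Agent.Lib.MP_adb389_agW.SpecL

/-!
# The key computation in two variables
-/

set_option autoImplicit false

namespace Pool.Agent.Lib.MP_adb389_agW

open MvPolynomial Pool.Agent.Lib.MP_adb389_ag

namespace TVaAux

variable {n : ℕ} {K : Type} [Field K]

/-- `a` is a multiple of `g ^ q` modulo `z` and `J`. -/
def Dec (J : Ideal (MvPolynomial (Fin n) K)) (z g : MvPolynomial (Fin n) K) (q : ℕ)
    (a : MvPolynomial (Fin n) K) : Prop :=
  ∃ (x : K) (a₁ j : MvPolynomial (Fin n) K), a = C x * g ^ q + z * a₁ + j ∧ j ∈ J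

theorem dec_zero (J : Ideal (MvPolynomial (Fin n) K)) (z g : MvPolynomial (Fin n) K) (q : ℕ) :
    Dec J z g q 0 := ⟨0, 0, 0, by rw [C_0]; ring, J.zero_mem⟩

theorem dec_add {J : Ideal (MvPolynomial (Fin n) K)} {z g : MvPolynomial (Fin n) K} {q : ℕ}
    {a b : MvPolynomial (Fin n) K} (ha : Dec J z g q a) (hb : Dec J z g q b) :
    Dec J z g q (a + b) := by
  obtain ⟨x, a₁, j, rfl, hj⟩ := ha
  obtain ⟨y, b₁, k, rfl, hk⟩ := hb
  refine ⟨x + y, a₁ + b₁, j + k, ?_, J.add_mem hj hk⟩
  rw [C_add]
  ring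

theorem dec_sum {ι : Type} {J : Ideal (MvPolynomial (Fin n) K)} {z g : MvPolynomial (Fin n) K}
    {q : ℕ} (s : Finset ι) (a : ι → MvPolynomial (Fin n) K) (h : ∀ i ∈ s, Dec J z g q (a i)) :
    Dec J z g q (∑ i ∈ s, a i) := by
  classical
  induction s using Finset.induction_on with
  | empty => rw [Finset.sum_empty]; exact dec_zero J z g q
  | insert i s hi ih =>
    rw [Finset.sum_insert hi]
    exact dec_add (h i (Finset.mem_insert_self i s))
      (ih fun j hj => h j (Finset.mem_insert_of_mem hj))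

theorem dec_monomial {ψ : MvPolynomial (Fin n) K →ₗ[K] K} {c e : Fin n → K} (hT : Two ψ c e) :
    ∀ (q : ℕ) (m : Fin n →₀ ℕ) (r : K), m.degree = q →
      Dec (ann ψ) (lin c) (lin e) q (monomial m r) := by
  intro q
  induction q with
  | zero =>
    intro m r hm
    have h0 : m = 0 := (Finsupp.degree_eq_zero_iff m).1 hm
    subst h0
    refine ⟨r, 0, 0, ?_, (ann ψ).zero_mem⟩
    rw [pow_zero, mul_one, mul_zero, add_zero, add_zero]
    rfl
  | succ q ih =>
    intro m r hm
    have hm0 : m ≠ 0 := by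
      rintro rfl
      rw [map_zero] at hm
      omega
    obtain ⟨i, hi⟩ : ∃ i, m i ≠ 0 := by
      by_contra hcon
      push Not at hcon
      exact hm0 (Finsupp.ext hcon)
    obtain ⟨m', rfl⟩ : ∃ m', m = m' + Finsupp.single i 1 := by
      refine ⟨m - Finsupp.single i 1, ?_⟩
      ext j
      rw [Finsupp.add_apply, Finsupp.tsub_apply]
      by_cases hj : j = i
      · subst hj
        rw [Finsupp.single_eq_same]
        omega
      · rw [Finsupp.single_eq_of_ne hj]
        omega
    have hm' : m'.degree = q := by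
      rw [map_add, Finsupp.degree_single] at hm
      omega
    obtain ⟨x, a₁, j, h1, hj⟩ := ih m' r hm'
    obtain ⟨u, v, huv⟩ := hT (Pi.single i 1)
    rw [lin_single] at huv
    rw [monomial_add_single, pow_one, h1]
    obtain ⟨w, hw⟩ : ∃ w, w = X i - C u * lin c - C v * lin e := ⟨_, rfl⟩
    rw [← hw] at huv
    have hX : (X i : MvPolynomial (Fin n) K) = C u * lin c + C v * lin e + w := by
      rw [hw]; ring
    refine ⟨x * v, a₁ * X i + C x * C u * lin e ^ q, j * X i + C x * lin e ^ q * w, ?_,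
      (ann ψ).add_mem ((ann ψ).mul_mem_right _ hj) ((ann ψ).mul_mem_left _ huv)⟩
    rw [C_mul]
    have h2 : (C x * lin e ^ q + lin c * a₁ + j) * (X i : MvPolynomial (Fin n) K) =
        C x * lin e ^ q * (C u * lin c + C v * lin e + w) + (lin c * a₁ + j) * X i := by
      rw [← hX]; ring
    rw [h2]
    ring

theorem dec_hom {ψ : MvPolynomial (Fin n) K →ₗ[K] K} {c e : Fin n → K} (hT : Two ψ c e) {q : ℕ}
    {a : MvPolynomial (Fin n) K} (ha : a.IsHomogeneous q) :
    Dec (ann ψ) (lin c) (lin e) q a := by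
  rw [← support_sum_monomial_coeff a]
  refine dec_sum _ _ fun m hm => dec_monomial hT q m _ ?_
  by_contra hd
  exact (mem_support_iff.1 hm) (ha.coeff_eq_zero hd)

end TVaAux

open TVaAux in
theorem TVa : S_TVa := by
  intro n K _ ψ E hψ c e hT f q p hE a ha hza hW
  obtain ⟨x, a₁, j₁, h1, hj₁⟩ := dec_hom hT ha
  by_cases hx : x = 0
  · refine ⟨j₁, a₁, ?_, (ann ψ).mul_mem_left _ hj₁⟩
    rw [h1, hx, C_0]
    ring
  · obtain ⟨b, c', hbc, hb⟩ := hW
    have key : lin c ^ f * a ∈ ann ψ := by
      -- the power of `g`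
      have hpow : lin c ^ f * a * lin e ^ (q + p) ∈ ann ψ := by
        have h2 : C x * (lin c ^ f * a * lin e ^ (q + p)) ∈ ann ψ := by
          have h3 : C x * (lin c ^ f * a * lin e ^ (q + p)) =
              a * (lin c ^ f * b) - lin c ^ f * a * lin e ^ p * j₁ +
                lin c ^ (f + 1) * a * (c' - lin e ^ p * a₁) := by
            have h4 : C x * lin e ^ (q + p) = b + lin c * c' - lin e ^ p * (lin c * a₁ + j₁) := by
              rw [← hbc, h1]
              ring
            calc C x * (lin c ^ f * a * lin e ^ (q + p)) =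
                lin c ^ f * a * (C x * lin e ^ (q + p)) := by ring
              _ = _ := by rw [h4]; ring
          rw [h3]
          exact (ann ψ).add_mem ((ann ψ).sub_mem ((ann ψ).mul_mem_left _ hb)
            ((ann ψ).mul_mem_left _ hj₁)) ((ann ψ).mul_mem_right _ hza)
        have h5 := (ann ψ).mul_mem_left (C x⁻¹) h2
        rwa [← mul_assoc, ← C_mul, inv_mul_cancel₀ hx, C_1, one_mul] at h5
      have hhom : ∀ h : MvPolynomial (Fin n) K, h.IsHomogeneous (q + p) →
          lin c ^ f * a * h ∈ ann ψ := by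
        intro h hh
        obtain ⟨y, h₁, j₂, h6, hj₂⟩ := dec_hom hT hh
        have h7 : lin c ^ f * a * h = C y * (lin c ^ f * a * lin e ^ (q + p)) +
            lin c ^ (f + 1) * a * h₁ + lin c ^ f * a * j₂ := by
          rw [h6]; ring
        rw [h7]
        exact (ann ψ).add_mem ((ann ψ).add_mem ((ann ψ).mul_mem_left _ hpow)
          ((ann ψ).mul_mem_right _ hza)) ((ann ψ).mul_mem_left _ hj₂)
      intro h
      rw [← sum_homogeneousComponent h, Finset.mul_sum, map_sum]
      refine Finset.sum_eq_zero fun k _ => ?_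
      by_cases hk : k = q + p
      · subst hk
        have h8 := hhom _ (homogeneousComponent_isHomogeneous (q + p) h) 1
        rwa [mul_one] at h8
      · exact hψ (f + q + k) _ (((lin_pow_hom c f).mul ha).mul
          (homogeneousComponent_isHomogeneous k h)) (by omega)
    refine ⟨a, 0, ?_, key⟩
    rw [mul_zero, add_zero]

end Pool.Agent.Lib.MP_adb389_agW
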