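import Pool.Agent.Lib.MP_adb389_agW.SpecN

/-!
# MP_adb389_agW, task W2: four variables, the critical power
-/

set_option autoImplicit false

namespace Pool.Agent.Lib.MP_adb389_agW

open MvPolynomial Pool.Agent.Lib.MP_adb389_ag

namespace W2Aux

variable {n : ℕ} {K : Type} [Field K]

theorem sum_idx {e a b c : Fin n} (h : Idx e a b c) (d : Fin n → ℕ) :
    ∑ j, d j = d e + d a + d b + d c := by
  have h1 : (Finset.univ : Finset (Fin n)) = {e, a, b, c} := by
    ext j
    rw [Finset.mem_insert, Finset.mem_insert, Finset.mem_insert, Finset.mem_singleton]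
    exact ⟨fun _ => h.all j, fun _ => Finset.mem_univ j⟩
  rw [h1, Finset.sum_insert, Finset.sum_insert, Finset.sum_insert, Finset.sum_singleton]
  · omega
  · rw [Finset.mem_singleton]
    exact h.bc
  · rw [Finset.mem_insert, Finset.mem_singleton]
    rintro (h2 | h2)
    · exact h.ab h2
    · exact h.ac h2
  · rw [Finset.mem_insert, Finset.mem_insert, Finset.mem_singleton]
    rintro (h2 | h2 | h2)
    · exact h.ea h2
    · exact h.eb h2
    · exact h.ec h2

theorem hc_self {x : MvPolynomial (Fin n) K} {q : ℕ} (hx : x.IsHomogeneous q) :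
    homogeneousComponent q x = x := by
  rw [homogeneousComponent_of_mem ((mem_homogeneousSubmodule _ _).2 hx), if_pos rfl]

theorem key {A : Matrix (Fin n) (Fin n) K} (hA : Good A) {d : Fin n → ℕ} {e : Fin n}
    (g : Fin n → K) {f q : ℕ} (hf : f + 1 = d e)
    (hInj : ∀ i, i + 1 = q → Inj (ann (psi (unitRow A e) (Function.update d e 0) (lin (A e))))
      (lin g ^ (f + 1)) i) : Cond (idl A d) (X e) g f q (f + 1) := by
  intro x hxq hx hvw
  have h0 : d e - (f + 1) = 0 := by omega
  have h1 : x ∈ idl A (Function.update d e 0) := by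
    have := (mem_pow_iff hA (show f + 1 ≤ d e by omega)).1 hx
    rwa [h0] at this
  obtain ⟨b, h, hxb, hb⟩ := exists_y h1
  have triv : x ∈ idl A d → VW (idl A d) (X e) f x := fun hm =>
    ⟨x, 0, by rw [mul_zero, add_zero], Ideal.mul_mem_left _ _ hm⟩
  rcases Nat.eq_zero_or_pos q with hq | hq
  · apply triv
    subst hq
    have h2 : homogeneousComponent 0 (yf A e * h) = 0 := hc_mul_zero (yf_hom A e) (by omega)
    rw [← hc_self hxq, hxb, map_add, h2, add_zero]
    exact hc_mem hb 0
  · obtain ⟨β, γ, hβγ, hβ⟩ := hvw
    set I' := idl (unitRow A e) (Function.update d e 0) with hI'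
    have hXe : X e ∈ I' := X_mem_unitRow A d e
    have h3 : β ∈ I' := by
      have h4 := (mem_pow_iff hA (show f ≤ d e by omega)).1 hβ
      have h5 : d e - f = 1 := by omega
      rw [h5] at h4
      exact idl_one_le h4
    have h4 : lin g ^ (f + 1) * x ∈ I' := by
      rw [hβγ]
      exact Ideal.add_mem _ h3 (Ideal.mul_mem_right _ _ hXe)
    have hde : d e ≠ 0 := by omega
    -- the homogeneous components
    have h5 : x = homogeneousComponent q b + yf A e * homogeneousComponent (q - 1) h := by
      have h6 := hc_mul (k := q - 1) (g := h) (yf_hom A e)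
      have h7 : 1 + (q - 1) = q := by omega
      rw [h7] at h6
      rw [← h6, ← map_add, ← hxb, hc_self hxq]
    have hb' : homogeneousComponent q b ∈ I' := idl_le_unitRow hde (hc_mem hb q)
    have h6 : lin g ^ (f + 1) * homogeneousComponent (q - 1) h ∈
        ann (psi (unitRow A e) (Function.update d e 0) (lin (A e))) := by
      rw [mem_ann_psi (good_unitRow hA e), ← yf_eq_lin]
      have h7 : yf A e * (lin g ^ (f + 1) * homogeneousComponent (q - 1) h) =
          lin g ^ (f + 1) * x - lin g ^ (f + 1) * homogeneousComponent q b := by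
        conv_rhs => rw [h5]
        ring
      rw [h7]
      exact Ideal.sub_mem _ h4 (Ideal.mul_mem_left _ _ hb')
    have h7 := hInj (q - 1) (by omega) _ (homogeneousComponent_isHomogeneous (q - 1) h) h6
    rw [mem_ann_psi (good_unitRow hA e), ← yf_eq_lin] at h7
    have h8 : x ∈ I' := by
      rw [h5]
      exact Ideal.add_mem _ hb' h7
    obtain ⟨b', h', hxb', hb'm⟩ := exists_X h8
    exact ⟨b', h', hxb', Ideal.mul_mem_left _ _ hb'm⟩

end W2Aux

open W2Aux in
theorem W2 (hL : S_L) : S_W2 := by
  intro n K _ _ A hA d e a b c hI hab hbc hce k hk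
  have hs := sum_idx hI d
  by_cases hc : 1 ≤ d e ∧ d e ≤ k
  · have hda : Function.update d e 0 a = d a := Function.update_of_ne hI.ea.symm _ _
    have hdb : Function.update d e 0 b = d b := Function.update_of_ne hI.eb.symm _ _
    have hdc : Function.update d e 0 c = d c := Function.update_of_ne hI.ec.symm _ _
    have hde : Function.update d e 0 e = 0 := Function.update_self _ _ _
    have hs0 := sum_idx hI (Function.update d e 0)
    have h1 := hL n K (unitRow A e) (good_unitRow hA e) (Function.update d e 0) e a b c (A e) hI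
      hde (yf_unitRow_self A e) (by rw [hda, hdb]; exact hab) (by rw [hdb, hdc]; exact hbc)
      (k - d e) (d e) (by rw [hs0, hde, hda, hdb, hdc]; omega) (by rw [hda, hdb]; omega)
    refine h1.mono fun g hg f q hqf hf => ?_
    refine key hA g hf fun i hi => ?_
    have h2 : i = k - d e := by omega
    rw [h2, hf]
    exact hg
  · refine gen_true fun g f q hqf hf => ?_
    exact key hA g hf fun i hi => absurd (show 1 ≤ d e ∧ d e ≤ k by omega) hc

end Pool.Agent.Lib.MP_adb389_agW
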