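import Pool.Agent.Lib.MP_adb389_agW.SpecN

set_option autoImplicit false

namespace Pool.Agent.Lib.MP_adb389_agW

open MvPolynomial Pool.Agent.Lib.MP_adb389_ag

namespace W3Aux

theorem sum_upd {n : ℕ} (d : Fin n → ℕ) (a : Fin n) :
    ∑ j, d j = d a + ∑ j, Function.update d a 0 j := by
  rw [Finset.sum_update_of_mem (Finset.mem_univ a), zero_add, Finset.sdiff_singleton_eq_erase,
    Finset.add_sum_erase _ _ (Finset.mem_univ a)]

theorem sum_idx {n : ℕ} {e a b c : Fin n} (h : Idx e a b c) (d : Fin n → ℕ) :
    ∑ j, d j = d e + d a + d b + d c := by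
  have hu : (Finset.univ : Finset (Fin n)) = {e, a, b, c} := by
    ext j
    simp only [Finset.mem_univ, Finset.mem_insert, Finset.mem_singleton, true_iff]
    exact h.all j
  rw [hu, Finset.sum_insert, Finset.sum_insert, Finset.sum_insert, Finset.sum_singleton]
  · ring
  · simp only [Finset.mem_singleton]
    exact h.bc
  · simp only [Finset.mem_insert, Finset.mem_singleton, not_or]
    exact ⟨h.ab, h.ac⟩
  · simp only [Finset.mem_insert, Finset.mem_singleton, not_or]
    exact ⟨h.ea, h.eb, h.ec⟩

theorem span_le {n : ℕ} {K : Type} [Field K] {A : Matrix (Fin n) (Fin n) K} {d : Fin n → ℕ}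
    {i : Fin n} (hi : d i = 0) {p : MvPolynomial (Fin n) K} (h : p ∈ Ideal.span {yf A i}) :
    p ∈ idl A d := by
  have : Ideal.span {yf A i} ≤ idl A d := by
    rw [Ideal.span_le, Set.singleton_subset_iff]
    exact yf_mem hi
  exact this h

end W3Aux

open W3Aux in
theorem W3 (hPr : S_Pr) (hPrj : S_Prj) (hWA : S_WA) (hWB : S_WB) (hWC : S_WC) (hWD : S_WD) :
    S_W3 := by
  intro n K _ _ A hA d e a b c hI hab hbc hce k hk
  have hsum := sum_upd d e
  have hidx := sum_idx hI d
  have he0 : Function.update d e 0 e = 0 := Function.update_self _ _ _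
  have ha0 : Function.update d e 0 a = d a := Function.update_of_ne hI.ea.symm _ _
  have hb0 : Function.update d e 0 b = d b := Function.update_of_ne hI.eb.symm _ _
  have hc0 : Function.update d e 0 c = d c := Function.update_of_ne hI.ec.symm _ _
  obtain ⟨hp1, hp2, -, hp4, hp5, -⟩ := hPrj n K A hA e
  -- reduction to `d e = 0`
  have red : (Gen fun g : Fin n → K => ∀ f q p : ℕ, q + f + 1 ≤ Function.update d e 0 b →
      q + f + 1 ≤ Function.update d e 0 c → 2 * q + p + f = ∑ j, Function.update d e 0 j →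
      Cond (idl A (Function.update d e 0)) (X e) g f q p) →
      Gen fun g : Fin n → K => ∀ f q : ℕ, q + f = k → d e ≤ f →
        Cond (idl A d) (X e) g f q (f + 1) := by
    intro hG
    refine hG.mono fun g hg f q hqf hf => ?_
    have h3 := hg (f - d e) q (f + 1) (by rw [hb0]; omega) (by rw [hc0]; omega) (by omega)
    rintro x hx hxm ⟨β, γ, hβγ, hβ⟩
    rw [mem_pow_iff' hA (by omega)] at hxm hβ
    have e1 : f + 1 - d e = f - d e + 1 := by omega
    rw [e1] at hxm
    obtain ⟨b₃, h₃, e4, h7⟩ := h3 x hx hxm ⟨β, γ, hβγ, hβ⟩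
    refine ⟨b₃, h₃, e4, ?_⟩
    rw [mem_pow_iff' hA (by omega)]
    exact h7
  by_cases hv : prj A e (X e) = 0
  · have hX : X e ∈ idl A (Function.update d e 0) := span_le he0 ((hp1 _).1 hv)
    exact red ((hWA n K A hA _ e a b c hI he0 hX).mono fun g hg f q p _ _ h => hg f q p h)
  · obtain ⟨c', hc'⟩ := hp4 (Pi.single e 1)
    rw [lin_single] at hc'
    have hc'0 : c' ≠ 0 := by
      rintro rfl
      apply hv
      rw [hc']
      unfold lin
      simp
    obtain ⟨hprime, hdiv⟩ := hPr n K c' hc'0
    rw [← hc'] at hprime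
    by_cases hva : prj A e (X e) ∣ X a ^ Function.update d e 0 a
    · have h1 : prj A e (X e) ∣ X a := hprime.dvd_of_dvd_pow hva
      obtain ⟨y, hy⟩ := hdiv (Pi.single a 1) (by rw [lin_single, ← hc']; exact h1)
      rw [lin_single, ← hc'] at hy
      have hy0 : y ≠ 0 := by
        rintro rfl
        rw [C_0, zero_mul] at hy
        exact X_ne_zero a hy
      have hX : X e - C y⁻¹ * X a ∈ idl A (Function.update d e 0) := by
        have h2 : X e - C y⁻¹ * X a = X e - prj A e (X e) := by
          rw [hy, ← mul_assoc, ← C_mul, inv_mul_cancel₀ hy0, C_1, one_mul]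
        rw [h2]
        exact span_le he0 (hp2 _)
      exact red ((hWB n K A hA _ e a b c hI he0 y⁻¹ (inv_ne_zero hy0) hX).mono
        fun g hg f q p _ _ h => hg f q p h)
    · by_cases hvy : prj A e (X e) ∣ prj A e (yf A a)
      · exact red (hWD n K A hA _ e a b c hI he0 hv hva hvy)
      · have hnd : ¬ prj A e (X e) ∣ X a ^ Function.update d e 0 a * prj A e (yf A a) := by
          intro h
          rcases hprime.dvd_or_dvd h with h | h
          · exact hva h
          · exact hvy h
        exact red (gen_true fun g f q p h1 h2 _ =>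
          hWC n K A hA _ e a b c hI he0 hv hnd g f q p h1 h2)

end Pool.Agent.Lib.MP_adb389_agW
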