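import Pool.Agent.Lib.MP_adb389_agW.SpecN

set_option autoImplicit false

namespace Pool.Agent.Lib.MP_adb389_agW

open MvPolynomial Pool.Agent.Lib.MP_adb389_ag

theorem WA (hS3 : S_S3) : S_WA := by
  intro n K _ _ A hA d e a b c hI hde hX
  have hd : ∀ j, j ≠ a → j ≠ b → j ≠ c → d j = 0 := by
    intro j h1 h2 h3
    rcases hI.all j with h | h | h | h
    · rw [h]; exact hde
    · exact absurd h h1
    · exact absurd h h2
    · exact absurd h h3
  have hG := gen_forall_two (K := K) (n := n) (∑ j, d j)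
    (P := fun i m g => Inj (idl A d) (lin g ^ m) i)
    (fun i m him => hS3 n K A hA d a b c hd i m him)
  refine hG.mono ?_
  intro g hg f q p hf x hx hx1 hx2
  by_cases hf0 : f = 0
  · subst hf0
    obtain ⟨u, v, huv, hu⟩ := hx2
    have h1 : lin g ^ p * x ∈ idl A d := by
      rw [huv]
      refine Ideal.add_mem _ ?_ (Ideal.mul_mem_right _ _ hX)
      simpa using hu
    have h2 : x ∈ idl A d := hg q p (by omega) x hx h1
    exact ⟨x, 0, by simp, by simpa using h2⟩
  · refine ⟨x, 0, by simp, ?_⟩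
    exact Ideal.mul_mem_right _ _ (Ideal.pow_mem_of_mem _ hX f (Nat.pos_of_ne_zero hf0))

end Pool.Agent.Lib.MP_adb389_agW
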