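import Pool.Agent.Lib.MP_adb389_agW.SpecN

set_option autoImplicit false

namespace Pool.Agent.Lib.MP_adb389_agW

open MvPolynomial Pool.Agent.Lib.MP_adb389_ag

theorem WC (hPr : S_Pr) (hPrj : S_Prj) (hD1 : S_D1) : S_WC := by
  intro n K _ A hA d e a b c hI hde hv0 hv g f q p hb hc x hx hxm _
  obtain ⟨P1, P2, P3, P4, P5, P6⟩ := hPrj n K A hA e
  obtain ⟨c', hc'⟩ := P4 (Pi.single e 1)
  rw [lin_single] at hc'
  have hc'0 : c' ≠ 0 := by
    rintro rfl
    apply hv0
    rw [hc']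
    unfold lin
    refine Finset.sum_eq_zero fun j _ => ?_
    rw [Pi.zero_apply, C_0, zero_mul]
  obtain ⟨hprime, -⟩ := hPr n K c' hc'0
  rw [hc'] at hv
  have hspan : Ideal.span {yf A e} ≤ idl A d := by
    rw [Ideal.span_singleton_le_iff_mem]
    exact yf_mem hde
  have hXa : prj A e (X a) = X a := P5 a (Ne.symm hI.ea)
  have hXp : (X e ^ (f + 1) : MvPolynomial (Fin n) K).IsHomogeneous (f + 1) := by
    have := (isHomogeneous_X K e).pow (f + 1)
    rwa [one_mul] at this
  obtain ⟨r, hr⟩ := hD1 n K A hA d e a b c hI hde (X e ^ (f + 1) * x) (f + 1 + q)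
    (hXp.mul hx) (by omega) (by omega) hxm
  rw [map_mul, map_pow, hc'] at hr
  obtain ⟨r', hr'⟩ := hprime.pow_dvd_of_dvd_mul_left (f + 1) hv (Dvd.intro _ hr)
  have h3 : prj A e x = X a ^ d a * prj A e (yf A a) * r' := by
    refine mul_left_cancel₀ (pow_ne_zero (f + 1) hprime.ne_zero) ?_
    rw [hr, hr']
    ring
  have h4 : x - gen A d a * r' ∈ idl A d := by
    refine hspan ((P1 _).1 ?_)
    unfold gen
    have h5 := P3 x
    rw [h3] at h5
    simp only [map_mul, map_pow, hXa, P3] at h5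
    simp only [map_sub, map_mul, map_pow, hXa, h3]
    rw [h5, sub_self]
  have h6 : x ∈ idl A d := by
    have := Ideal.add_mem _ h4 (Ideal.mul_mem_right r' _ (gen_mem A d a))
    rwa [sub_add_cancel] at this
  exact ⟨x, 0, by rw [mul_zero, add_zero], Ideal.mul_mem_left _ _ h6⟩

end Pool.Agent.Lib.MP_adb389_agW
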