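import Pool.Agent.Lib.MP_adb389_agW.SpecN

set_option autoImplicit false

namespace Pool.Agent.Lib.MP_adb389_agW

open MvPolynomial Pool.Agent.Lib.MP_adb389_ag

namespace WDAux

variable {n : ℕ} {K : Type} [Field K]

theorem sum_upd (d : Fin n → ℕ) (a : Fin n) :
    ∑ j, Function.update d a 0 j + d a = ∑ j, d j := by
  rw [Finset.sum_update_of_mem (Finset.mem_univ a), ← Finset.add_sum_erase _ d (Finset.mem_univ a),
    zero_add, Finset.sdiff_singleton_eq_erase]
  omega

theorem X_pow_hom (a : Fin n) (k : ℕ) : (X a ^ k : MvPolynomial (Fin n) K).IsHomogeneous k := by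
  have := (isHomogeneous_X K a).pow k
  rwa [one_mul] at this

theorem vw_of_mem {J : Ideal (MvPolynomial (Fin n) K)} {z x : MvPolynomial (Fin n) K} {f : ℕ}
    (h : z ^ f * x ∈ J) : VW J z f x := ⟨x, 0, by rw [mul_zero, add_zero], h⟩

end WDAux

open WDAux in
theorem WD (hPr : S_Pr) (hPrj : S_Prj) (hD1 : S_D1) (hTV0 : S_TV0) : S_WD := by
  intro n K _ _ A hA d e a b c hI hde hv0 hva hvy
  obtain ⟨P1, P2, P3, P4, P5, P6⟩ := hPrj n K A hA e
  obtain ⟨c', hc'⟩ := P4 (Pi.single e 1)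
  rw [lin_single] at hc'
  have hc'0 : c' ≠ 0 := by
    rintro rfl
    apply hv0
    rw [hc']
    unfold lin
    refine Finset.sum_eq_zero fun j _ => ?_
    rw [Pi.zero_apply, C_0, zero_mul]
  obtain ⟨hprime, hdvd⟩ := hPr n K c' hc'0
  obtain ⟨c'', hc''⟩ := P4 (A a)
  rw [← yf_eq_lin] at hc''
  rw [hc'] at hv0 hva hvy
  rw [hc''] at hvy
  obtain ⟨y, hy⟩ := hdvd c'' hvy
  rw [← hc''] at hy
  have hyn : y ≠ 0 := by
    rintro rfl
    rw [C_0, zero_mul] at hy
    exact P6 a (Ne.symm hI.ea) hy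
  have hspan : Ideal.span {yf A e} ≤ idl A d := by
    rw [Ideal.span_singleton_le_iff_mem]
    exact yf_mem hde
  have hXa : prj A e (X a) = X a := P5 a (Ne.symm hI.ea)
  have hyX : yf A a - C y * X e ∈ idl A d := by
    refine hspan ((P1 _).1 ?_)
    rw [map_sub, map_mul, hy, hc']
    have : prj A e (C y) = C y := (prj A e).commutes y
    rw [this, sub_self]
  obtain ⟨d₄, hd₄⟩ : ∃ d₄ : Fin n → ℕ, d₄ = Function.update d a 0 := ⟨_, rfl⟩
  have hsum : ∑ j, d₄ j + d a = ∑ j, d j := by rw [hd₄]; exact sum_upd d a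
  obtain ⟨E, hE⟩ : ∃ E : ℕ, E = ∑ j, d₄ j - d a := ⟨_, rfl⟩
  have hdeg : IsDeg (psi A d₄ (X a ^ d a)) E := by
    by_cases h : d a ≤ ∑ j, d₄ j
    · exact isDeg_psi hA (X_pow_hom a (d a)) (by omega)
    · exact isDeg_psi' hA (X_pow_hom a (d a)) (by omega) E
  have hd4z : ∀ j, j ≠ b → j ≠ c → d₄ j = 0 := by
    intro j hb hc
    rw [hd₄]
    rcases hI.all j with rfl | rfl | rfl | rfl
    · rw [Function.update_of_ne hI.ea]; exact hde
    · rw [Function.update_self]
    · exact absurd rfl hb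
    · exact absurd rfl hc
  have hG := gen_forall_two E (P := fun q p g => Inj (ann (psi A d₄ (X a ^ d a))) (lin g ^ p) q)
    (fun q p hqp => hTV0 n K _ E hdeg ⟨_, _, two_psi hA hd4z _⟩ q p hqp)
  refine hG.mono fun g hg f q p hb hc hs => ?_
  intro x hx hxm hW
  obtain ⟨r, hr⟩ := hD1 n K A hA d e a b c hI hde (X e ^ (f + 1) * x) (f + 1 + q)
    ((X_pow_hom e (f + 1)).mul hx) (by omega) (by omega) hxm
  have h2 : lin c' ^ f * prj A e x = X a ^ d a * (C y * r) := by
    refine mul_left_cancel₀ hprime.ne_zero ?_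
    rw [map_mul, map_pow, hc', hy] at hr
    linear_combination hr
  rcases Nat.eq_zero_or_pos f with hf | hf
  · subst hf
    rw [pow_zero, one_mul] at h2
    obtain ⟨r₀, hr₀⟩ : ∃ r₀, r₀ = C y * r := ⟨_, rfl⟩
    rw [← hr₀] at h2
    obtain ⟨b₁, hb₁⟩ : ∃ b₁, b₁ = x - X a ^ d a * r₀ := ⟨_, rfl⟩
    have hb₁m : b₁ ∈ idl A d := by
      refine hspan ((P1 _).1 ?_)
      rw [hb₁, map_sub, map_mul, map_pow, hXa]
      have h3 := P3 x
      rw [h2, map_mul, map_pow, hXa] at h3
      rw [h2, ← h3, sub_self]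
    have hx' : x = X a ^ d a * r₀ + b₁ := by rw [hb₁]; ring
    by_cases hq : q < d a
    · refine vw_of_mem ?_
      rw [pow_zero, one_mul]
      have h3 := congrArg (homogeneousComponent q) hx'
      rw [homogeneousComponent_eq_self hx, map_add, hc_mul_zero (X_pow_hom a (d a)) hq,
        zero_add] at h3
      rw [h3]
      exact hc_mem hb₁m q
    · obtain ⟨q', rfl⟩ : ∃ q', q = d a + q' := ⟨q - d a, by omega⟩
      obtain ⟨r', hr'⟩ : ∃ r', r' = homogeneousComponent q' r₀ := ⟨_, rfl⟩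
      obtain ⟨b₂, hb₂⟩ : ∃ b₂, b₂ = homogeneousComponent (d a + q') b₁ := ⟨_, rfl⟩
      have h3 : x = X a ^ d a * r' + b₂ := by
        have h3 := congrArg (homogeneousComponent (d a + q')) hx'
        rw [homogeneousComponent_eq_self hx, map_add, hc_mul (X_pow_hom a (d a))] at h3
        rw [hr', hb₂]
        exact h3
      have hb₂m : b₂ ∈ idl A d := by rw [hb₂]; exact hc_mem hb₁m _
      have hle : idl A d ≤ idl A d₄ := by rw [hd₄]; exact idl_le_zero
      have hya : yf A a ∈ idl A d₄ := yf_mem (by rw [hd₄, Function.update_self])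
      have hXe : X e ∈ idl A d₄ := by
        have h4 := Ideal.sub_mem _ hya (hle hyX)
        have h5 := Ideal.mul_mem_left _ (C y⁻¹) h4
        have e1 : C y⁻¹ * (yf A a - (yf A a - C y * X e)) = (X e : MvPolynomial (Fin n) K) := by
          have : C y⁻¹ * (yf A a - (yf A a - C y * X e)) =
              (C y⁻¹ * C y) * (X e : MvPolynomial (Fin n) K) := by ring
          rw [this, ← C_mul, inv_mul_cancel₀ hyn, C_1, one_mul]
        rwa [e1] at h5
      obtain ⟨β, γ, hβγ, hβ⟩ := hW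
      rw [pow_zero, one_mul] at hβ
      have h4 : r' ∈ ann (psi A d₄ (X a ^ d a)) := by
        refine hg q' p (by omega) r' (by rw [hr']; exact homogeneousComponent_isHomogeneous _ _) ?_
        rw [mem_ann_psi hA]
        have e1 : X a ^ d a * (lin g ^ p * r') = β + X e * γ - lin g ^ p * b₂ := by
          rw [← hβγ, h3]
          ring
        rw [e1]
        exact Ideal.sub_mem _ (Ideal.add_mem _ (hle hβ) (Ideal.mul_mem_right _ _ hXe))
          (Ideal.mul_mem_left _ _ (hle hb₂m))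
      rw [mem_ann_psi hA] at h4
      have h5 : x ∈ idl A d₄ := by
        rw [h3]
        exact Ideal.add_mem _ h4 (hle hb₂m)
      rw [hd₄] at h5
      obtain ⟨b₃, h, hbh, hb₃⟩ := exists_y h5
      refine ⟨b₃ + (yf A a - C y * X e) * h, C y * h, ?_, ?_⟩
      · rw [hbh]; ring
      · rw [pow_zero, one_mul]
        exact Ideal.add_mem _ hb₃ (Ideal.mul_mem_right _ _ hyX)
  · obtain ⟨r'', hr''⟩ := hprime.pow_dvd_of_dvd_mul_left f hva (Dvd.intro _ h2)
    have h3 : prj A e x = X a ^ d a * r'' := by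
      refine mul_left_cancel₀ (pow_ne_zero f hprime.ne_zero) ?_
      rw [h2, hr'']
      ring
    have h4 : prj A e x = X a ^ d a * prj A e r'' := by
      rw [← P3 x, h3, map_mul, map_pow, hXa]
    have h5 : X e * x - C y⁻¹ * gen A d a * r'' ∈ idl A d := by
      refine hspan ((P1 _).1 ?_)
      unfold gen
      have : prj A e (C y⁻¹) = C y⁻¹ := (prj A e).commutes _
      simp only [map_sub, map_mul, map_pow, hXa, this, hy, hc', h4]
      have e1 : (C y⁻¹ * C y : MvPolynomial (Fin n) K) = 1 := by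
        rw [← C_mul, inv_mul_cancel₀ hyn, C_1]
      linear_combination (- lin c' * X a ^ d a * prj A e r'') * e1
    have h6 : X e * x ∈ idl A d := by
      have h7 : C y⁻¹ * gen A d a * r'' ∈ idl A d :=
        Ideal.mul_mem_right _ _ (Ideal.mul_mem_left _ _ (gen_mem A d a))
      have := Ideal.add_mem _ h5 h7
      rwa [sub_add_cancel] at this
    refine vw_of_mem ?_
    obtain ⟨f', rfl⟩ : ∃ f', f = f' + 1 := ⟨f - 1, by omega⟩
    rw [pow_succ, mul_assoc]
    exact Ideal.mul_mem_left _ _ h6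

end Pool.Agent.Lib.MP_adb389_agW
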