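import Pool.Agent.Lib.MP_adb389_agW.SpecN

set_option autoImplicit false

namespace Pool.Agent.Lib.MP_adb389_agW

open MvPolynomial Pool.Agent.Lib.MP_adb389_ag

namespace WFAux

variable {n : ℕ} {K : Type} [Field K]

theorem gen_forall_fin {N : ℕ} {P : Fin N → (Fin n → K) → Prop} (h : ∀ i, Gen (P i)) :
    Gen fun c => ∀ i, P i c := by
  have h1 : ∀ j < N, Gen fun c => ∀ hj : j < N, P ⟨j, hj⟩ c := by
    intro j hj
    exact (h ⟨j, hj⟩).mono fun c hc _ => hc
  exact (gen_forall_lt N h1).mono fun c hc i => hc i.1 i.2 i.2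

/-- From injectivity in the middle to the weak Lefschetz property. -/
theorem wlp_of_mid {A : Matrix (Fin n) (Fin n) K} (hA : Good A) {d : Fin n → ℕ} {c : Fin n → K}
    {k k' : ℕ} (hk : k + 1 + k' = ∑ i, d i) (hkk : k ≤ k' + 1) (h : Inj (idl A d) (lin c) k')
    (j : ℕ) : Inj (idl A d) (lin c) j ∨ Sur (idl A d) (lin c) j 1 := by
  refine maxRank_of_upper hA (fun j hj => ?_) j
  exact sur_mono (k' := k) (by omega) (sur_of_inj hA (lin_hom' c) hk h)

end WFAux

open WFAux in
theorem WF (hWo : S_Wo) : S_WF := by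
  intro K _ _ A hA d
  obtain ⟨D, hD⟩ : ∃ D : ℕ, D = ∑ i, d i := ⟨_, rfl⟩
  rcases Nat.even_or_odd D with ⟨k, hk⟩ | ⟨k, hk⟩
  · by_cases hk0 : k = 0
    · refine ⟨0, fun j => Or.inr fun p hp => ⟨0, isHomogeneous_zero _ _ _, ?_⟩⟩
      rw [mul_zero, sub_zero]
      exact mem_of_top hA hp (by omega)
    · have h1 : ∀ m : Fin 4, Gen fun c => d m ≠ 0 → Inj (idl A (low d m)) (lin c) (k - 1) := by
        intro m
        by_cases hm : d m = 0
        · exact gen_true fun c h => absurd hm h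
        · have h2 := sum_low hm
          exact (hWo K A hA (low d m) (k - 1) (by omega)).mono fun c hc _ => hc
      obtain ⟨c, hc⟩ := (gen_forall_fin h1).exists
      refine ⟨c, wlp_of_mid hA (k := k) (k' := k - 1) (by omega) (by omega) ?_⟩
      intro f hf hlf
      refine mem_of_low hA hf (by omega) fun m hm => ?_
      exact hc m hm f hf (idl_le_low hm hlf)
  · obtain ⟨c, hc⟩ := (hWo K A hA d k (by omega)).exists
    exact ⟨c, wlp_of_mid hA (k := k) (k' := k) (by omega) (by omega) hc⟩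

end Pool.Agent.Lib.MP_adb389_agW
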