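import Pool.Agent.Lib.MP_adb389_agW.SpecN

set_option autoImplicit false

namespace Pool.Agent.Lib.MP_adb389_agW

open MvPolynomial Pool.Agent.Lib.MP_adb389_ag

namespace WoAux

/-- Sorting four numbers. -/
theorem exists_sorted (d : Fin 4 → ℕ) :
    ∃ e a b c : Fin 4, Idx e a b c ∧ d a ≤ d b ∧ d b ≤ d c ∧ d c ≤ d e := by
  obtain ⟨σ, hσ⟩ : ∃ σ : Equiv.Perm (Fin 4), Monotone (d ∘ σ) :=
    ⟨Tuple.sort d, Tuple.monotone_sort d⟩
  have hne : ∀ i j : Fin 4, i ≠ j → σ i ≠ σ j := fun i j hij h => hij (σ.injective h)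
  refine ⟨σ 3, σ 0, σ 1, σ 2, ⟨hne _ _ (by decide), hne _ _ (by decide), hne _ _ (by decide),
    hne _ _ (by decide), hne _ _ (by decide), hne _ _ (by decide), fun j => ?_⟩,
    hσ (by decide : (0 : Fin 4) ≤ 1), hσ (by decide : (1 : Fin 4) ≤ 2),
    hσ (by decide : (2 : Fin 4) ≤ 3)⟩
  obtain ⟨i, rfl⟩ := σ.surjective j
  have : i = 3 ∨ i = 0 ∨ i = 1 ∨ i = 2 := by
    revert i
    decide
  rcases this with rfl | rfl | rfl | rfl <;> simp

end WoAux

open WoAux in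
theorem Wo (hN1 : S_N1) (hW2 : S_W2) (hW3 : S_W3) (hLP : S_LP) (hOpen : S_Open) : S_Wo := by
  intro K _ _ A hA d k hk
  obtain ⟨e, a, b, c, hI, hab, hbc, hce⟩ := exists_sorted d
  obtain ⟨g, hg2, hg3⟩ := ((hW2 4 K A hA d e a b c hI hab hbc hce k hk).and
    (hW3 4 K A hA d e a b c hI hab hbc hce k hk)).exists
  have h1 := hLP.2 4 K (idl A d) (Pi.single e 1) g k (homI_idl A d) (by
    intro f q hqf
    rw [lin_single]
    rcases lt_trichotomy (f + 1) (d e) with h | h | h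
    · exact hN1 4 K A hA d e g f q (f + 1) h
    · exact hg2 f q hqf h
    · exact hg3 f q hqf (by omega))
  have h2 : ∃ s : K, Inj (idl A d) (lin (Pi.single e 1 + s • g)) k := by
    by_contra hcon
    push Not at hcon
    have h3 : {s : K | ¬ Inj (idl A d) (lin (Pi.single e 1 + s • g)) k} = Set.univ :=
      Set.eq_univ_of_forall hcon
    rw [h3] at h1
    exact Set.infinite_univ h1
  obtain ⟨s, hs⟩ := h2
  refine (hOpen 4 K (idl A d) k 1 ⟨Pi.single e 1 + s • g, ?_⟩).mono fun c hc => ?_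
  · rw [pow_one]; exact hs
  · rw [pow_one] at hc; exact hc

end Pool.Agent.Lib.MP_adb389_agW
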