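import Pool.Agent.Lib.MP_adb389_agW.Pencil
import Pool.Agent.Lib.MP_adb389_agW.LB
import Pool.Agent.Lib.MP_adb389_agW.CG
import Pool.Agent.Lib.MP_adb389_agW.GMw
import Pool.Agent.Lib.MP_adb389_agW.LA
import Pool.Agent.Lib.MP_adb389_agW.GMp
import Pool.Agent.Lib.MP_adb389_agW.LP
import Pool.Agent.Lib.MP_adb389_agW.Open
import Pool.Agent.Lib.MP_adb389_agW.TVa
import Pool.Agent.Lib.MP_adb389_agW.TV0
import Pool.Agent.Lib.MP_adb389_agW.TV1
import Pool.Agent.Lib.MP_adb389_agW.Pr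
import Pool.Agent.Lib.MP_adb389_agW.Prj
import Pool.Agent.Lib.MP_adb389_agW.D1
import Pool.Agent.Lib.MP_adb389_agW.N1
import Pool.Agent.Lib.MP_adb389_agW.S3c
import Pool.Agent.Lib.MP_adb389_agW.S3
import Pool.Agent.Lib.MP_adb389_agW.L1
import Pool.Agent.Lib.MP_adb389_agW.L2
import Pool.Agent.Lib.MP_adb389_agW.L3
import Pool.Agent.Lib.MP_adb389_agW.L
import Pool.Agent.Lib.MP_adb389_agW.W2
import Pool.Agent.Lib.MP_adb389_agW.WA
import Pool.Agent.Lib.MP_adb389_agW.WB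
import Pool.Agent.Lib.MP_adb389_agW.WC
import Pool.Agent.Lib.MP_adb389_agW.WD
import Pool.Agent.Lib.MP_adb389_agW.W3
import Pool.Agent.Lib.MP_adb389_agW.Wo
import Pool.Agent.Lib.MP_adb389_agW.WF

/-! The weak Lefschetz property in four variables: assembly. -/

set_option autoImplicit false

namespace Pool.Agent.Lib.MP_adb389_agW

open MvPolynomial Pool.Agent.Lib.MP_adb389_ag

theorem tLB : S_LB := LB Pencil
theorem tLA : S_LA := LA tLB CG GMw
theorem tLP : S_LP := LP tLA tLB GMp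
theorem tTV0 : S_TV0 := TV0 TVa tLP Open
theorem tTV1 : S_TV1 := TV1 TVa tTV0
theorem tD1 : S_D1 := D1 Prj
theorem tS3c : S_S3c := S3c N1 tTV0 tTV1
theorem tS3 : S_S3 := S3 tS3c tLP Open
theorem tL : S_L := L (L1 Pr Prj tD1) (L2 Pr Prj tD1 tTV0) (L3 tTV1) tS3 tTV0 tLP Open Prj
theorem tW3 : S_W3 := W3 Pr Prj (WA tS3) (WB tS3c) (WC Pr Prj tD1) (WD Pr Prj tD1 tTV0)
theorem tWo : S_Wo := Wo N1 (W2 tL) tW3 tLP Open

/-- The weak Lefschetz property for `n = 4`. -/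
theorem wlp_four : S_WF := WF tWo

end Pool.Agent.Lib.MP_adb389_agW
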