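import Pool.Agent.Lib.MP_adb389_agW.SpecC

/-!
# MP_adb389_agW: (CF), final form of the theorem on block triangular matrices
-/

set_option autoImplicit false

namespace Pool.Agent.Lib.MP_adb389_agW

open MvPolynomial Pool.Agent.Lib.MP_adb389_ag

namespace CFAux

variable {n : ℕ} {K : Type} [Field K]

theorem ch2_zero {A : Matrix (Fin n) (Fin n) K} {d : Fin n → ℕ} (hd : ∀ j, d j = 0) :
    Ch2 A d := by
  intro i m him
  have h0 : ∑ j, d j = 0 := Finset.sum_eq_zero fun j _ => hd j
  rw [h0] at him
  have hm : m = 0 := by omega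
  subst hm
  exact gen_true fun c f _ h => by rwa [pow_zero, one_mul] at h

/-- The indices of the blocks below `s`. -/
def Lw (t : Fin n → ℕ) (s : ℕ) : Finset (Fin n) := Finset.univ.filter fun i => t i < s

theorem mem_Lw {t : Fin n → ℕ} {s : ℕ} {i : Fin n} : i ∈ Lw t s ↔ t i < s := by
  unfold Lw
  rw [Finset.mem_filter]
  exact ⟨fun h => h.2, fun h => ⟨Finset.mem_univ _, h⟩⟩

theorem main (hBlk : S_Blk) (hCh : S_Ch) (hTri : S_Tri) [CharZero K]
    {A : Matrix (Fin n) (Fin n) K} (hA : Good A) {t o : Fin n → ℕ} (hS : Shape A t o)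
    (d : Fin n → ℕ) : ∀ s : ℕ, Ch2 A (res d (Lw t s)) := by
  intro s
  induction s with
  | zero =>
    refine ch2_zero fun j => ?_
    unfold res
    rw [if_neg fun h => absurd (mem_Lw.1 h) (Nat.not_lt_zero _)]
  | succ s ih =>
    refine hTri n K A hA (Lw t s) (fun i hi j hj => ?_) _ ?_ ?_
    · by_contra hne
      have h1 := hS.tri i j hne
      exact hj (mem_Lw.2 (lt_of_le_of_lt h1 (mem_Lw.1 hi)))
    · have e : res (res d (Lw t (s + 1))) (Lw t s) = res d (Lw t s) := by
        funext j
        unfold res
        by_cases hj : j ∈ Lw t s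
        · have h1 : j ∈ Lw t (s + 1) := mem_Lw.2 (by have := mem_Lw.1 hj; omega)
          rw [if_pos hj, if_pos h1, if_pos hj]
        · rw [if_neg hj, if_neg hj]
      rw [e]
      exact ih
    · have hd : ∀ j, t j ≠ s → res (res d (Lw t (s + 1))) (Lw t s)ᶜ j = 0 := by
        intro j hj
        unfold res
        by_cases h1 : j ∈ (Lw t s)ᶜ
        · rw [if_pos h1, if_neg]
          intro h2
          rw [Finset.mem_compl, mem_Lw] at h1
          rw [mem_Lw] at h2
          omega
        · rw [if_neg h1]
      by_cases hex : ∃ j, t j = s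
      · obtain ⟨l, a, b, c, k1, k2, k3⟩ := hBlk n K A t o hS s hex
        refine (hCh n K {j | t j < s} l a b c A _ ⟨hA, k1, ?_, ?_, ?_, k3⟩).2.1
        · intro i hi j hj
          exact lt_of_le_of_lt (hS.tri i j hj) hi
        · intro i hi
          exact hd i (ne_of_lt hi)
        · intro j h1 h2 h3 h4
          apply hd
          intro h5
          rcases k2 j h5 with h | h | h | h
          · exact h1 h
          · exact h2 h
          · exact h3 h
          · exact h4 h
      · push Not at hex
        exact ch2_zero fun j => hd j (hex j)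

end CFAux

open CFAux in
theorem CF (hBlk : S_Blk) (hCh : S_Ch) (hTri : S_Tri) : S_CF := by
  intro n K _ _ A hA t o hS d
  have hinf : Infinite K := CharZero.infinite K
  have h1 := main hBlk hCh hTri hA hS d (∑ i, t i + 1)
  have e : res d (Lw t (∑ i, t i + 1)) = d := by
    funext j
    unfold res
    rw [if_pos]
    rw [mem_Lw]
    have := Finset.single_le_sum (f := t) (fun i _ => Nat.zero_le _) (Finset.mem_univ j)
    omega
  rw [e] at h1
  have h := gen_forall_two (∑ j, d j) (P := fun i m c => Inj (idl A d) (lin c ^ m) i)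
    (fun i m him => h1 i m him)
  obtain ⟨c, hc⟩ := h.exists
  exact ⟨c, fun k s => maxRank_of_HL hA (lin_hom' c) (fun k hk => hc k _ (by omega)) k s⟩

end Pool.Agent.Lib.MP_adb389_agW
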