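import Pool.Agent.Lib.MP_adb389_agW.SpecC

/-!
# The step of the chain theorem
-/

set_option autoImplicit false

namespace Pool.Agent.Lib.MP_adb389_agW

open MvPolynomial Pool.Agent.Lib.MP_adb389_ag

namespace ChaAux

theorem sum_upd {n : ℕ} (d : Fin n → ℕ) (a : Fin n) :
    ∑ j, d j = d a + ∑ j, Function.update d a 0 j := by
  rw [Finset.sum_update_of_mem (Finset.mem_univ a), zero_add, Finset.sdiff_singleton_eq_erase,
    Finset.add_sum_erase _ _ (Finset.mem_univ a)]

variable {n : ℕ} {K : Type} [Field K]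

theorem vw_of_mem' {J : Ideal (MvPolynomial (Fin n) K)} {z : MvPolynomial (Fin n) K} {f : ℕ}
    {a : MvPolynomial (Fin n) K} (h : a ∈ J) : VW J z f a :=
  ⟨a, 0, by rw [mul_zero, add_zero], Ideal.mul_mem_left _ _ h⟩

/-- The inverse relation. -/
theorem symm_mem {J : Ideal (MvPolynomial (Fin n) K)} {z w : MvPolynomial (Fin n) K} {x : K}
    (hx : x ≠ 0) (h : z - C x * w ∈ J) : w - C x⁻¹ * z ∈ J := by
  have h1 : C x⁻¹ * C x = (1 : MvPolynomial (Fin n) K) := by
    rw [← C_mul, inv_mul_cancel₀ hx, C_1]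
  have h2 : w - C x⁻¹ * z = -(C x⁻¹ * (z - C x * w)) := by
    rw [mul_sub, ← mul_assoc, h1, one_mul]
    ring
  rw [h2]
  exact J.neg_mem (J.mul_mem_left _ h)

theorem pow_mem {J : Ideal (MvPolynomial (Fin n) K)} {z w u : MvPolynomial (Fin n) K} {x : K}
    (h : z - C x * w ∈ J) {f : ℕ} (hu : w ^ f * u ∈ J) : z ^ f * u ∈ J := by
  have h1 : z ^ f - (C x * w) ^ f ∈ J := by
    obtain ⟨r, hr⟩ := sub_dvd_pow_sub_pow z (C x * w) f
    rw [hr]
    exact J.mul_mem_right _ h
  have h2 : z ^ f * u = (z ^ f - (C x * w) ^ f) * u + C x ^ f * (w ^ f * u) := by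
    rw [mul_pow]
    ring
  rw [h2]
  exact J.add_mem (J.mul_mem_right _ h1) (J.mul_mem_left _ hu)

theorem vw {J : Ideal (MvPolynomial (Fin n) K)} {z w u : MvPolynomial (Fin n) K} {x y : K}
    (h : z - C x * w ∈ J) (h' : w - C y * z ∈ J) {f : ℕ} (hu : VW J z f u) : VW J w f u := by
  obtain ⟨b, c, rfl, hb⟩ := hu
  refine ⟨b + (z - C x * w) * c, C x * c, by ring, ?_⟩
  rw [mul_add]
  exact J.add_mem (pow_mem h' hb) (J.mul_mem_left _ (J.mul_mem_right _ h))

theorem cond {J : Ideal (MvPolynomial (Fin n) K)} {z w : MvPolynomial (Fin n) K} {x y : K}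
    (h : z - C x * w ∈ J) (h' : w - C y * z ∈ J) {g : Fin n → K} {f q p : ℕ}
    (hc : Cond J w g f q p) : Cond J z g f q p :=
  fun a ha h1 h2 => vw h' h (hc a ha (pow_mem h' h1) (vw h h' h2))

/-- The condition for an element of the ideal. -/
theorem cond_zero {J : Ideal (MvPolynomial (Fin n) K)} {z : MvPolynomial (Fin n) K} (hz : z ∈ J)
    {g : Fin n → K} {f q p : ℕ} (h : f = 0 → Inj J (lin g ^ p) q) : Cond J z g f q p := by
  intro x hx hx1 hx2
  by_cases hf0 : f = 0
  · have h3 := h hf0
    subst hf0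
    obtain ⟨u, v, huv, hu⟩ := hx2
    have h1 : lin g ^ p * x ∈ J := by
      rw [huv]
      refine Ideal.add_mem _ ?_ (Ideal.mul_mem_right _ _ hz)
      rwa [pow_zero, one_mul] at hu
    exact vw_of_mem' (h3 x hx h1)
  · refine ⟨x, 0, by rw [mul_zero, add_zero], ?_⟩
    exact Ideal.mul_mem_right _ _ (Ideal.pow_mem_of_mem _ hz f (Nat.pos_of_ne_zero hf0))

/-- The linear form `y_i` modulo an ideal which contains the other variables. -/
theorem yf_mod {A : Matrix (Fin n) (Fin n) K} {J : Ideal (MvPolynomial (Fin n) K)} {i h : Fin n}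
    {Z : Set (Fin n)} (hJ : ∀ z ∈ Z, (X z : MvPolynomial (Fin n) K) ∈ J)
    (hrow : ∀ j, A i j ≠ 0 → j = i ∨ j = h ∨ j ∈ Z) :
    ∃ t : K, yf A i - C (A i i) * X i - C t * X h ∈ J := by
  classical
  refine ⟨if h = i then 0 else A i h, ?_⟩
  have e1 : yf A i = C (A i i) * X i + ∑ j ∈ Finset.univ.erase i, C (A i j) * X j := by
    unfold yf
    rw [Finset.add_sum_erase _ (fun j => C (A i j) * (X j : MvPolynomial (Fin n) K))
      (Finset.mem_univ i)]
  have hterm : ∀ j, j ≠ i → j ≠ h → C (A i j) * (X j : MvPolynomial (Fin n) K) ∈ J := by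
    intro j h1 h2
    by_cases h3 : A i j = 0
    · rw [h3, C_0, zero_mul]
      exact J.zero_mem
    · rcases hrow j h3 with h4 | h4 | h4
      · exact absurd h4 h1
      · exact absurd h4 h2
      · exact J.mul_mem_left _ (hJ j h4)
  by_cases hh : h = i
  · rw [if_pos hh, C_0, zero_mul, sub_zero, e1, add_sub_cancel_left]
    refine Ideal.sum_mem _ fun j hj => ?_
    have h1 := Finset.ne_of_mem_erase hj
    exact hterm j h1 (by rw [hh]; exact h1)
  · have hmem : h ∈ Finset.univ.erase i := Finset.mem_erase.2 ⟨hh, Finset.mem_univ h⟩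
    rw [if_neg hh, e1, ← Finset.add_sum_erase _ _ hmem]
    have e2 : C (A i i) * X i + (C (A i h) * X h +
        ∑ j ∈ (Finset.univ.erase i).erase h, C (A i j) * (X j : MvPolynomial (Fin n) K)) -
          C (A i i) * X i - C (A i h) * X h =
        ∑ j ∈ (Finset.univ.erase i).erase h, C (A i j) * (X j : MvPolynomial (Fin n) K) := by
      ring
    rw [e2]
    refine Ideal.sum_mem _ fun j hj => ?_
    have h1 := Finset.ne_of_mem_erase hj
    have h2 := Finset.ne_of_mem_erase (Finset.mem_of_mem_erase hj)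
    exact hterm j h2 h1

theorem good_diag {A : Matrix (Fin n) (Fin n) K} (hA : Good A) (i : Fin n) : A i i ≠ 0 := by
  intro h0
  have h1 := hA {i} (Pi.single i 1) (fun j hj => by
    rw [Finset.mem_singleton] at hj
    exact Pi.single_eq_of_ne hj 1) (fun j hj => by
    rw [Finset.mem_singleton] at hj
    subst hj
    rw [Finset.sum_eq_single j]
    · rw [h0, zero_mul]
    · intro l _ hl
      rw [Pi.single_eq_of_ne hl, mul_zero]
    · intro h; exact absurd (Finset.mem_univ j) h)
  have h2 := congrFun h1 i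
  rw [Pi.single_eq_same] at h2
  exact one_ne_zero h2

/-- The variable `X i` is a multiple of `X h`. -/
theorem X_mod {A : Matrix (Fin n) (Fin n) K} (hA : Good A) {J : Ideal (MvPolynomial (Fin n) K)}
    {i h : Fin n} {Z : Set (Fin n)} (hJ : ∀ z ∈ Z, (X z : MvPolynomial (Fin n) K) ∈ J)
    (hrow : ∀ j, A i j ≠ 0 → j = i ∨ j = h ∨ j ∈ Z) (hy : yf A i ∈ J) :
    ∃ x : K, (X i : MvPolynomial (Fin n) K) - C x * X h ∈ J := by
  obtain ⟨t, ht⟩ := yf_mod hJ hrow
  have h1 : C (A i i) * X i + C t * X h ∈ J := by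
    have h2 := J.sub_mem hy ht
    have e : yf A i - (yf A i - C (A i i) * X i - C t * X h) = C (A i i) * X i + C t * X h := by
      ring
    rwa [e] at h2
  refine ⟨-((A i i)⁻¹ * t), ?_⟩
  have h0 := good_diag hA i
  have e : (X i : MvPolynomial (Fin n) K) - C (-((A i i)⁻¹ * t)) * X h =
      C (A i i)⁻¹ * (C (A i i) * X i + C t * X h) := by
    have e1 : (C (A i i)⁻¹ * C (A i i) : MvPolynomial (Fin n) K) = 1 := by
      rw [← C_mul, inv_mul_cancel₀ h0, C_1]
    rw [mul_add, ← mul_assoc, e1, one_mul, C_neg, C_mul]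
    ring
  rw [e]
  exact J.mul_mem_left _ h1

theorem chR_congr {A A' : Matrix (Fin n) (Fin n) K} {Z : Set (Fin n)} {a : Fin n} :
    ∀ l : List (Fin n), (∀ j ∈ l, ∀ s, A' j s = A j s) → ChR A Z a l → ChR A' Z a l
  | [], _, _ => trivial
  | i :: l, h, h1 => ⟨fun j hj => h1.1 j (by rw [← h i List.mem_cons_self]; exact hj),
      chR_congr l (fun j hj => h j (List.mem_cons_of_mem i hj)) h1.2⟩

/-- The hypotheses for the shorter list. -/
theorem chH_zero {A : Matrix (Fin n) (Fin n) K} {d : Fin n → ℕ} {Z : Set (Fin n)}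
    {l : List (Fin n)} {i a b c : Fin n} (H : ChH A d Z (i :: l) a b c) :
    ChH A (Function.update d i 0) Z l a b c where
  good := H.good
  nodup := (List.nodup_cons.1 H.nodup).2
  zcl := H.zcl
  zd := by
    intro j hj
    by_cases h : j = i
    · rw [h, Function.update_self]
    · rw [Function.update_of_ne h]
      exact H.zd j hj
  sup := by
    intro j h1 h2 h3 h4
    by_cases h : j = i
    · rw [h, Function.update_self]
    · rw [Function.update_of_ne h]
      refine H.sup j ?_ h2 h3 h4
      rw [List.mem_cons]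
      rintro (h5 | h5)
      · exact h h5
      · exact h1 h5
  row := H.row.2

theorem chH_unit {A : Matrix (Fin n) (Fin n) K} {d : Fin n → ℕ} {Z : Set (Fin n)}
    {l : List (Fin n)} {i a b c : Fin n} (H : ChH A d Z (i :: l) a b c) (hi : i ∉ Z) :
    ChH (unitRow A i) (Function.update d i 0) Z l a b c where
  good := good_unitRow H.good i
  nodup := (List.nodup_cons.1 H.nodup).2
  zcl := by
    intro j hj s hs
    have h1 : j ≠ i := fun h => hi (h ▸ hj)
    rw [unitRow_ne A h1] at hs
    exact H.zcl j hj s hs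
  zd := (chH_zero H).zd
  sup := (chH_zero H).sup
  row := by
    refine chR_congr l (fun j hj s => unitRow_ne A ?_ s) H.row.2
    intro h
    rw [h] at hj
    exact (List.nodup_cons.1 H.nodup).1 hj

end ChaAux

open ChaAux in
theorem Cha (hZm : S_Zm) (hN1 : S_N1) : S_Cha := by
  intro n K _ _ Z l i a b c IH A d H
  have hA := H.good
  have hA' := good_unitRow hA i
  have H0 := chH_zero H
  have hsum := sum_upd d i
  obtain ⟨hrow, -⟩ := H.row
  have hZ0 : ∀ z ∈ Z, (X z : MvPolynomial (Fin n) K) ∈ idl A (Function.update d i 0) :=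
    hZm n K A hA _ Z H0.zcl H0.zd
  obtain ⟨I1, I2, -⟩ := IH A _ H0
  -- the part `f ≥ d i`
  have g2 : Gen fun g : Fin n → K => ∀ f q p : ℕ,
      2 * q + p + f = ∑ j, Function.update d i 0 j →
        Cond (idl A (Function.update d i 0)) (X i) g f q p := by
    obtain ⟨x, hx⟩ := X_mod hA hZ0 hrow (yf_mem (by rw [Function.update_self]))
    by_cases hx0 : x = 0
    · rw [hx0, C_0, zero_mul, sub_zero] at hx
      refine (gen_forall_two (∑ j, Function.update d i 0 j)
        (P := fun q p g => Inj (idl A (Function.update d i 0)) (lin g ^ p) q) I2).mono ?_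
      intro g hg f q p hf
      exact cond_zero hx fun h => hg q p (by omega)
    · refine I1.mono fun g hg f q p hf => ?_
      exact cond hx (symm_mem hx0 hx) (hg f q p hf)
  -- the part `f + 1 = d i`
  have g1 : d i ≠ 0 → Gen fun g : Fin n → K => ∀ q p : ℕ,
      2 * q + p + 1 = ∑ j, Function.update d i 0 j →
      Inj (ann (psi (unitRow A i) (Function.update d i 0) (X (l.headD a)))) (lin g ^ p) q := by
    intro hdi
    have hiZ : i ∉ Z := fun h => hdi (H.zd i h)
    obtain ⟨-, -, I3⟩ := IH _ _ (chH_unit H hiZ)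
    by_cases h : 1 ≤ ∑ j, Function.update d i 0 j
    · have := gen_forall_two (n := n) (K := K) (∑ j, Function.update d i 0 j - 1)
        (P := fun q p g => Inj (ann (psi (unitRow A i) (Function.update d i 0) (X (l.headD a))))
          (lin g ^ p) q)
        (fun q p hqp => I3 q p (by omega))
      exact this.mono fun g hg q p hqp => hg q p (by omega)
    · exact gen_true fun g q p hqp => absurd hqp (by omega)
  have g1' : Gen fun g : Fin n → K => d i ≠ 0 → ∀ q p : ℕ,
      2 * q + p + 1 = ∑ j, Function.update d i 0 j →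
      Inj (ann (psi (unitRow A i) (Function.update d i 0) (X (l.headD a)))) (lin g ^ p) q := by
    by_cases hdi : d i = 0
    · exact gen_true fun g h => absurd hdi h
    · exact (g1 hdi).mono fun g hg _ => hg
  refine (g1'.and g2).mono ?_
  rintro g ⟨h1, h2⟩ f q p hqp
  rcases lt_trichotomy (f + 1) (d i) with hf | hf | hf
  · exact hN1 n K A hA d i g f q p hf
  · have hdi : d i ≠ 0 := by omega
    have hiZ : i ∉ Z := fun h => hdi (H.zd i h)
    have HU := chH_unit H hiZ
    have hZ1 : ∀ z ∈ Z, (X z : MvPolynomial (Fin n) K) ∈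
        idl (unitRow A i) (Function.update d i 0) :=
      hZm n K _ hA' _ Z HU.zcl HU.zd
    have hXa := X_mem_unitRow A d i
    obtain ⟨t, ht⟩ := yf_mod hZ1 hrow
    have ht' : yf A i - C t * X (l.headD a) ∈ idl (unitRow A i) (Function.update d i 0) := by
      have h3 := Ideal.add_mem _ ht (Ideal.mul_mem_left _ (C (A i i)) hXa)
      have e : yf A i - C (A i i) * X i - C t * X (l.headD a) + C (A i i) * X i =
          yf A i - C t * X (l.headD a) := by ring
      rwa [e] at h3
    rintro x hx hxm ⟨β, γ, hβγ, hβ⟩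
    rw [mem_pow_iff hA (by omega)] at hxm hβ
    have e1 : d i - (f + 1) = 0 := by omega
    have e2 : d i - f = 1 := by omega
    rw [e1] at hxm
    rw [e2] at hβ
    obtain ⟨b₁, h, hxb, hb₁⟩ := exists_y hxm
    have hx2 : x = homogeneousComponent q b₁ + homogeneousComponent q (yf A i * h) := by
      have h3 := congrArg (homogeneousComponent q) hxb
      rw [map_add, homogeneousComponent_of_mem hx, if_pos rfl] at h3
      exact h3
    have hb₂ : homogeneousComponent q b₁ ∈ idl A d := hc_mem hb₁ q
    rcases Nat.eq_zero_or_pos q with hq | hq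
    · subst hq
      rw [hc_mul_zero (yf_hom A i) Nat.zero_lt_one, add_zero] at hx2
      exact vw_of_mem' (hx2 ▸ hb₂)
    · obtain ⟨q', rfl⟩ : ∃ q', q = 1 + q' := ⟨q - 1, by omega⟩
      rw [hc_mul (yf_hom A i)] at hx2
      have hle := idl_le_unitRow (A := A) (d := d) (i := i) (by omega)
      have hβ' := idl_one_le hβ
      have h3 : yf A i * (lin g ^ p * homogeneousComponent q' h) ∈
          idl (unitRow A i) (Function.update d i 0) := by
        have e3 : yf A i * (lin g ^ p * homogeneousComponent q' h) =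
            β + X i * γ - lin g ^ p * homogeneousComponent (1 + q') b₁ := by
          rw [← hβγ]
          conv_rhs => rw [hx2]
          ring
        rw [e3]
        exact Ideal.sub_mem _ (Ideal.add_mem _ hβ' (Ideal.mul_mem_right _ _ hXa))
          (Ideal.mul_mem_left _ _ (hle hb₂))
      have h5 : yf A i * homogeneousComponent q' h ∈
          idl (unitRow A i) (Function.update d i 0) := by
        by_cases ht0 : t = 0
        · rw [ht0, C_0, zero_mul, sub_zero] at ht'
          exact Ideal.mul_mem_right _ _ ht'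
        · have h6 : X (l.headD a) * (lin g ^ p * homogeneousComponent q' h) ∈
              idl (unitRow A i) (Function.update d i 0) := by
            have h8 := symm_mem ht0 ht'
            have e4 : X (l.headD a) * (lin g ^ p * homogeneousComponent q' h) =
                (X (l.headD a) - C t⁻¹ * yf A i) * (lin g ^ p * homogeneousComponent q' h) +
                  C t⁻¹ * (yf A i * (lin g ^ p * homogeneousComponent q' h)) := by ring
            rw [e4]
            exact Ideal.add_mem _ (Ideal.mul_mem_right _ _ h8) (Ideal.mul_mem_left _ _ h3)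
          have h9 := h1 hdi q' p (by omega) _ (homogeneousComponent_isHomogeneous q' h)
            ((mem_ann_psi hA').2 h6)
          have h10 := (mem_ann_psi hA').1 h9
          have e5 : yf A i * homogeneousComponent q' h =
              (yf A i - C t * X (l.headD a)) * homogeneousComponent q' h +
                C t * (X (l.headD a) * homogeneousComponent q' h) := by ring
          rw [e5]
          exact Ideal.add_mem _ (Ideal.mul_mem_right _ _ ht') (Ideal.mul_mem_left _ _ h10)
      have h6 : x ∈ idl (unitRow A i) (Function.update d i 0) := by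
        rw [hx2]
        exact Ideal.add_mem _ (hle hb₂) h5
      obtain ⟨b₃, h₃, e4, h7⟩ := exists_X h6
      exact ⟨b₃, h₃, e4, Ideal.mul_mem_left _ _ h7⟩
  · rintro x hx hxm ⟨β, γ, hβγ, hβ⟩
    rw [mem_pow_iff' hA (by omega)] at hxm hβ
    have h3 := h2 (f - d i) q p (by omega)
    have e1 : f + 1 - d i = f - d i + 1 := by omega
    rw [e1] at hxm
    obtain ⟨b₃, h₃, e4, h7⟩ := h3 x hx hxm ⟨β, γ, hβγ, hβ⟩
    refine ⟨b₃, h₃, e4, ?_⟩
    rw [mem_pow_iff' hA (by omega)]
    exact h7

end Pool.Agent.Lib.MP_adb389_agW
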