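import Pool.Agent.Lib.MP_adb389_agW.SpecC
import Pool.Agent.Lib.MP_adb389_agW.Cha

/-!
# The chain theorem
-/

set_option autoImplicit false

namespace Pool.Agent.Lib.MP_adb389_agW

open MvPolynomial Pool.Agent.Lib.MP_adb389_ag

namespace ChAux

variable {n : ℕ} {K : Type} [Field K]

theorem sum_low {d : Fin n → ℕ} {a : Fin n} (ha : d a ≠ 0) :
    ∑ j, Function.update d a (d a - 1) j + 1 = ∑ j, d j := by
  rw [Finset.sum_update_of_mem (Finset.mem_univ a), Finset.sdiff_singleton_eq_erase,
    ← Finset.add_sum_erase _ _ (Finset.mem_univ a)]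
  omega

/-- The colon ideal by a variable. -/
theorem ann_low {A : Matrix (Fin n) (Fin n) K} (hA : Good A) {d : Fin n → ℕ} {a : Fin n}
    (ha : d a ≠ 0) : ann (psi A d (X a)) = idl A (Function.update d a (d a - 1)) := by
  ext u
  rw [mem_ann_psi hA, ← mem_pow_iff hA (j := 1) (by omega), pow_one]

/-- `Ch3` from `Ch2` for the smaller exponent. -/
theorem ch3_low {A : Matrix (Fin n) (Fin n) K} (hA : Good A) {d : Fin n → ℕ} {a : Fin n}
    (ha : d a ≠ 0) (h : Ch2 A (Function.update d a (d a - 1))) : Ch3 A d a := by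
  intro i m him
  rw [ann_low hA ha]
  have h1 := sum_low ha
  exact h i m (by omega)

/-- `Ch2` from `Ch1`. -/
theorem ch2_of_ch1 [CharZero K] (hLP : S_LP) (hOpen : S_Open) {A : Matrix (Fin n) (Fin n) K}
    {d : Fin n → ℕ} {h : Fin n} (h1 : Ch1 A d h) : Ch2 A d := by
  intro i m him
  apply hOpen
  obtain ⟨g, hg⟩ := h1.exists
  have hfin := hLP.1 n K (idl A d) (Pi.single h 1) g i m (homI_idl A d) (by
    intro f q p _ hfq
    rw [lin_single]
    exact hg f q p (by omega))
  have hex : ∃ s : K, s ∉ {s : K | ¬ Inj (idl A d) (lin (Pi.single h 1 + s • g) ^ m) i} := by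
    by_contra hcon
    push Not at hcon
    exact Set.infinite_univ (hfin.subset fun s _ => hcon s)
  obtain ⟨s, hs⟩ := hex
  exact ⟨Pi.single h 1 + s • g, not_not.1 hs⟩

/-- Lowering an exponent. -/
theorem chH_low {A : Matrix (Fin n) (Fin n) K} {d : Fin n → ℕ} {Z : Set (Fin n)}
    {l : List (Fin n)} {i a b c : Fin n} (H : ChH A d Z (i :: l) a b c) :
    ChH A (Function.update d i (d i - 1)) Z (i :: l) a b c where
  good := H.good
  nodup := H.nodup
  zcl := H.zcl
  zd := by
    intro j hj
    by_cases h : j = i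
    · have h1 := H.zd j hj
      subst h
      rw [Function.update_self, h1]
    · rw [Function.update_of_ne h]
      exact H.zd j hj
  sup := by
    intro j h1 h2 h3 h4
    have h : j ≠ i := by
      intro h
      apply h1
      rw [h]
      exact List.mem_cons_self
    rw [Function.update_of_ne h]
    exact H.sup j h1 h2 h3 h4
  row := H.row

end ChAux

open ChAux ChaAux in
theorem Ch (hZm : S_Zm) (hCha : S_Cha) (hS3c : S_S3c) (hS3 : S_S3) (hTV0 : S_TV0) (hLP : S_LP)
    (hOpen : S_Open) : S_Ch := by
  intro n K _ _ Z l a b c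
  induction l with
  | nil =>
    intro A d H
    have hsup : ∀ j, j ≠ a → j ≠ b → j ≠ c → d j = 0 := fun j => H.sup j List.not_mem_nil
    refine ⟨hS3c n K A H.good d a b c hsup, hS3 n K A H.good d a b c hsup, ?_⟩
    change Ch3 A d a
    by_cases ha : d a = 0
    · intro i m him
      have hd : ∀ j, j ≠ b → j ≠ c → d j = 0 := by
        intro j h1 h2
        by_cases h : j = a
        · rw [h]; exact ha
        · exact hsup j h h1 h2
      exact hTV0 n K (psi A d (X a)) (2 * i + m)
        (isDeg_psi H.good (isHomogeneous_X K a) (by omega)) ⟨_, _, two_psi H.good hd _⟩ i m rfl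
    · apply ch3_low H.good ha
      apply hS3 n K A H.good _ a b c
      intro j h1 h2 h3
      rw [Function.update_of_ne h1]
      exact hsup j h1 h2 h3
  | cons i l IH =>
    have hC1 : ∀ (A : Matrix (Fin n) (Fin n) K) (d : Fin n → ℕ), ChH A d Z (i :: l) a b c →
        Ch1 A d i := fun A d H => hCha n K Z l i a b c IH A d H
    have hC2 : ∀ (A : Matrix (Fin n) (Fin n) K) (d : Fin n → ℕ), ChH A d Z (i :: l) a b c →
        Ch2 A d := fun A d H => ch2_of_ch1 hLP hOpen (hC1 A d H)
    intro A d H
    refine ⟨hC1 A d H, hC2 A d H, ?_⟩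
    change Ch3 A d i
    have hA := H.good
    by_cases hi : d i = 0
    · have H0 : ChH A d Z l a b c := by
        have h1 := chH_zero H
        have h2 : Function.update d i 0 = d := by
          rw [← hi, Function.update_eq_self]
        rwa [h2] at h1
      have hZ0 : ∀ z ∈ Z, (X z : MvPolynomial (Fin n) K) ∈ idl A d :=
        hZm n K A hA _ Z H0.zcl H0.zd
      obtain ⟨x, hx⟩ := X_mod hA hZ0 H.row.1 (yf_mem hi)
      by_cases hx0 : x = 0
      · rw [hx0, C_0, zero_mul, sub_zero] at hx
        intro q m _
        refine gen_true fun g f _ _ => ?_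
        rw [mem_ann_psi hA]
        exact Ideal.mul_mem_right _ _ hx
      · have he : ann (psi A d (X i)) = ann (psi A d (X (l.headD a))) := by
          ext u
          rw [mem_ann_psi hA, mem_ann_psi hA]
          constructor
          · intro h
            have h1 := pow_mem (f := 1) (u := u) (symm_mem hx0 hx) (by rwa [pow_one])
            rwa [pow_one] at h1
          · intro h
            have h1 := pow_mem (f := 1) (u := u) hx (by rwa [pow_one])
            rwa [pow_one] at h1
        obtain ⟨-, -, h3⟩ := IH A d H0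
        intro q m hqm
        rw [he]
        exact h3 q m hqm
    · exact ch3_low hA hi (hC2 A _ (chH_low H))

end Pool.Agent.Lib.MP_adb389_agW
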