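import Pool.Agent.Lib.MP_adb389_agW.SpecC

/-!
# The projection to the variables of the lower block
-/

set_option autoImplicit false

namespace Pool.Agent.Lib.MP_adb389_agW

open MvPolynomial Pool.Agent.Lib.MP_adb389_ag

namespace T1Aux

variable {n : ℕ} {K : Type} [Field K]

/-- The image of the variable `X j`. -/
noncomputable def im (A : Matrix (Fin n) (Fin n) K) (S : Finset (Fin n)) (j : Fin n) :
    MvPolynomial (Fin n) K := ∑ s ∈ S, C (qv A Sᶜ s j) * X s

theorem im_self (A : Matrix (Fin n) (Fin n) K) (S : Finset (Fin n)) {j : Fin n} (hj : j ∈ S) :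
    im A S j = X j := by
  unfold im
  rw [Finset.sum_eq_single j]
  · rw [qv_self, C_1, one_mul]
  · intro s _ hs
    rw [qv_off A Sᶜ s j (Ne.symm hs) (by rw [Finset.mem_compl, not_not]; exact hj), C_0, zero_mul]
  · intro h
    exact absurd hj h

theorem im_supp (A : Matrix (Fin n) (Fin n) K) (S : Finset (Fin n)) (j : Fin n) :
    im A S j ∈ supported K (S : Set (Fin n)) := by
  unfold im
  refine Subalgebra.sum_mem _ fun s hs => Subalgebra.mul_mem _ ?_ ?_
  · exact (supported K (S : Set (Fin n))).algebraMap_mem _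
  · rw [supported_eq_adjoin_X]
    exact Algebra.subset_adjoin ⟨s, hs, rfl⟩

theorem im_hom (A : Matrix (Fin n) (Fin n) K) (S : Finset (Fin n)) (j : Fin n) :
    (im A S j).IsHomogeneous 1 := by
  unfold im
  refine IsHomogeneous.sum _ _ _ fun s _ => ?_
  have h := (isHomogeneous_C (Fin n) (qv A Sᶜ s j)).mul (isHomogeneous_X K s)
  rwa [zero_add] at h

/-- The projection. -/
noncomputable def pr (A : Matrix (Fin n) (Fin n) K) (S : Finset (Fin n)) :
    MvPolynomial (Fin n) K →ₐ[K] MvPolynomial (Fin n) K := aeval (im A S)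

theorem pr_X (A : Matrix (Fin n) (Fin n) K) (S : Finset (Fin n)) (j : Fin n) :
    pr A S (X j) = im A S j := aeval_X _ _

theorem pr_fix (A : Matrix (Fin n) (Fin n) K) (S : Finset (Fin n)) :
    ∀ p ∈ supported K (S : Set (Fin n)), pr A S p = p := by
  have h : supported K (S : Set (Fin n)) ≤ AlgHom.equalizer (pr A S) (AlgHom.id K _) := by
    rw [supported_eq_adjoin_X]
    refine Algebra.adjoin_le ?_
    rintro _ ⟨s, hs, rfl⟩
    change pr A S (X s) = X s
    rw [pr_X, im_self A S (Finset.mem_coe.1 hs)]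
  exact fun p hp => h hp

theorem pr_supp (A : Matrix (Fin n) (Fin n) K) (S : Finset (Fin n)) (p : MvPolynomial (Fin n) K) :
    pr A S p ∈ supported K (S : Set (Fin n)) := by
  have h1 : pr A S p ∈ (aeval (im A S) : MvPolynomial (Fin n) K →ₐ[K] _).range := ⟨p, rfl⟩
  rw [aeval_range] at h1
  refine (Algebra.adjoin_le ?_ : _ ≤ supported K (S : Set (Fin n))) h1
  rintro _ ⟨j, rfl⟩
  exact im_supp A S j

theorem pr_hom (A : Matrix (Fin n) (Fin n) K) (S : Finset (Fin n)) (p : MvPolynomial (Fin n) K)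
    (k : ℕ) (hp : p.IsHomogeneous k) : (pr A S p).IsHomogeneous k := by
  have h := hp.aeval (im A S) (im_hom A S)
  rwa [one_mul] at h

/-- The linear forms of the rows outside of `S` go to zero. -/
theorem pr_yf_zero {A : Matrix (Fin n) (Fin n) K} (hA : Good A) (S : Finset (Fin n)) {t : Fin n}
    (ht : t ∉ S) : pr A S (yf A t) = 0 := by
  unfold yf
  rw [map_sum]
  have h1 : ∀ j, pr A S (C (A t j) * X j) = ∑ s ∈ S, C (A t j * qv A Sᶜ s j) * X s := by
    intro j
    rw [map_mul, pr_X]
    have e : pr A S (C (A t j)) = C (A t j) := aeval_C _ _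
    rw [e, im, Finset.mul_sum]
    exact Finset.sum_congr rfl fun s _ => by rw [C_mul, mul_assoc]
  rw [Finset.sum_congr rfl fun j _ => h1 j, Finset.sum_comm]
  refine Finset.sum_eq_zero fun s hs => ?_
  rw [← Finset.sum_mul, ← map_sum, qv_zero hA (S := Sᶜ) (m := s)
    (by rw [Finset.mem_compl, not_not]; exact hs) (by rw [Finset.mem_compl]; exact ht), C_0,
    zero_mul]

/-- The linear forms of the rows in `S` are fixed. -/
theorem pr_yf_fix {A : Matrix (Fin n) (Fin n) K} {S : Finset (Fin n)}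
    (hS : ∀ i ∈ S, ∀ j, j ∉ S → A i j = 0) {i : Fin n} (hi : i ∈ S) :
    pr A S (yf A i) = yf A i := by
  refine pr_fix A S _ ?_
  unfold yf
  refine Subalgebra.sum_mem _ fun j _ => ?_
  by_cases hj : j ∈ S
  · refine Subalgebra.mul_mem _ ((supported K (S : Set (Fin n))).algebraMap_mem _) ?_
    rw [supported_eq_adjoin_X]
    exact Algebra.subset_adjoin ⟨j, hj, rfl⟩
  · rw [hS i hi j hj, C_0, zero_mul]
    exact Subalgebra.zero_mem _

/-- The variables outside of `S`. -/
theorem X_sub_mem {A : Matrix (Fin n) (Fin n) K} (hA : Good A) (S : Finset (Fin n))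
    {J : Ideal (MvPolynomial (Fin n) K)} (hJ : ∀ t, t ∉ S → yf A t ∈ J) (j : Fin n) :
    X j - im A S j ∈ J := by
  by_cases hj : j ∈ S
  · rw [im_self A S hj, sub_self]
    exact J.zero_mem
  have hjT : j ∈ Sᶜ := Finset.mem_compl.2 hj
  have hdet := det_ne_zero_of_good hA Sᶜ
  obtain ⟨M, hM⟩ : ∃ M : Matrix (Sᶜ : Finset (Fin n)) (Sᶜ : Finset (Fin n)) K,
    M = A.submatrix (fun i : (Sᶜ : Finset (Fin n)) => (i : Fin n))
      (fun i : (Sᶜ : Finset (Fin n)) => (i : Fin n)) := ⟨_, rfl⟩
  rw [← hM] at hdet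
  have hNM : M⁻¹ * M = 1 := Matrix.nonsing_inv_mul M (isUnit_iff_ne_zero.2 hdet)
  -- the coefficients
  have hc : ∀ k, ∑ t : (Sᶜ : Finset (Fin n)), M⁻¹ ⟨j, hjT⟩ t * A t k =
      if k ∈ S then -qv A Sᶜ k j else if k = j then 1 else 0 := by
    intro k
    by_cases hk : k ∈ S
    · rw [if_pos hk]
      have hjk : j ≠ k := fun h => hj (h ▸ hk)
      unfold qv
      rw [if_neg hjk, dif_pos hjT, neg_neg, ← hM]
      rfl
    · rw [if_neg hk]
      have hkT : k ∈ Sᶜ := Finset.mem_compl.2 hk
      have h1 := congrFun (congrFun hNM ⟨j, hjT⟩) ⟨k, hkT⟩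
      rw [Matrix.mul_apply, Matrix.one_apply] at h1
      have h2 : ∀ t : (Sᶜ : Finset (Fin n)), M t ⟨k, hkT⟩ = A t k := by
        intro t
        rw [hM]
        rfl
      rw [Finset.sum_congr rfl fun t _ => by rw [h2 t]] at h1
      rw [h1]
      by_cases hkj : k = j
      · subst hkj
        rw [if_pos rfl, if_pos rfl]
      · rw [if_neg hkj, if_neg]
        intro h3
        exact hkj (congrArg Subtype.val h3).symm
  have e : (X j : MvPolynomial (Fin n) K) - im A S j =
      ∑ t : (Sᶜ : Finset (Fin n)), C (M⁻¹ ⟨j, hjT⟩ t) * yf A t := by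
    have e1 : ∑ t : (Sᶜ : Finset (Fin n)), C (M⁻¹ ⟨j, hjT⟩ t) * yf A t =
        ∑ k, C (∑ t : (Sᶜ : Finset (Fin n)), M⁻¹ ⟨j, hjT⟩ t * A t k) *
          (X k : MvPolynomial (Fin n) K) := by
      unfold yf
      rw [Finset.sum_congr rfl fun t _ => Finset.mul_sum _ _ _, Finset.sum_comm]
      refine Finset.sum_congr rfl fun k _ => ?_
      rw [map_sum, Finset.sum_mul]
      exact Finset.sum_congr rfl fun t _ => by rw [C_mul, mul_assoc]
    have e2 : im A S j = ∑ k, (if k ∈ S then C (qv A Sᶜ k j) * X k else 0) := by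
      unfold im
      rw [Finset.sum_ite_mem, Finset.univ_inter]
    have e3 : (X j : MvPolynomial (Fin n) K) = ∑ k, (if k = j then X k else 0) := by
      rw [Finset.sum_ite_eq' Finset.univ j, if_pos (Finset.mem_univ j)]
    rw [e1, e2, e3, ← Finset.sum_sub_distrib]
    refine Finset.sum_congr rfl fun k _ => ?_
    rw [hc k]
    by_cases hk : k ∈ S
    · have hkj : k ≠ j := fun h => hj (h ▸ hk)
      rw [if_pos hk, if_pos hk, if_neg hkj, C_neg]
      ring
    · rw [if_neg hk, if_neg hk, sub_zero]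
      by_cases hkj : k = j
      · rw [if_pos hkj, if_pos hkj, C_1, one_mul]
      · rw [if_neg hkj, if_neg hkj, C_0, zero_mul]
  rw [e]
  refine Ideal.sum_mem _ fun t _ => J.mul_mem_left _ (hJ t ?_)
  exact Finset.mem_compl.1 t.2

theorem sub_mem {A : Matrix (Fin n) (Fin n) K} (hA : Good A) (S : Finset (Fin n))
    {J : Ideal (MvPolynomial (Fin n) K)} (hJ : ∀ t, t ∉ S → yf A t ∈ J)
    (p : MvPolynomial (Fin n) K) : p - pr A S p ∈ J := by
  induction p using MvPolynomial.induction_on with
  | C a =>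
    have e : pr A S (C a) = C a := aeval_C _ _
    rw [e, sub_self]
    exact J.zero_mem
  | add p q hp hq =>
    rw [map_add]
    have e : p + q - (pr A S p + pr A S q) = (p - pr A S p) + (q - pr A S q) := by ring
    rw [e]
    exact J.add_mem hp hq
  | mul_X p i hp =>
    rw [map_mul, pr_X]
    have e : p * X i - pr A S p * im A S i =
        (p - pr A S p) * X i + pr A S p * (X i - im A S i) := by ring
    rw [e]
    exact J.add_mem (J.mul_mem_right _ hp) (J.mul_mem_left _ (X_sub_mem hA S hJ i))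

end T1Aux

open T1Aux in
theorem T1 : S_T1 := by
  intro n K _ A hA S hS d
  refine ⟨pr A S, pr_fix A S, pr_supp A S, pr_hom A S, ?_, ?_⟩
  · refine sub_mem hA S fun t ht => yf_mem ?_
    unfold res
    rw [if_neg ht]
  · intro p hp hpm
    have h1 : idl A (res d S) ≤ Ideal.comap (pr A S) (idl A d) := by
      conv_lhs => unfold idl
      rw [Ideal.span_le]
      rintro _ ⟨j, rfl⟩
      change pr A S (gen A (res d S) j) ∈ idl A d
      by_cases hj : j ∈ S
      · have e1 : gen A (res d S) j = X j ^ d j * yf A j := by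
          unfold gen res
          rw [if_pos hj]
        rw [e1, map_mul, map_pow, pr_X, im_self A S hj, pr_yf_fix hS hj]
        exact gen_mem A d j
      · have e1 : gen A (res d S) j = yf A j := by
          unfold gen res
          rw [if_neg hj, pow_zero, one_mul]
        rw [e1, pr_yf_zero hA S hj]
        exact (idl A d).zero_mem
    have h2 : pr A S p ∈ idl A d := h1 hpm
    rwa [pr_fix A S p hp] at h2

end Pool.Agent.Lib.MP_adb389_agW
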