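import Pool.Agent.Lib.MP_adb389_agW.SpecC

/-!
# MP_adb389_agW, T2: the socle of the lower block
-/

set_option autoImplicit false

namespace Pool.Agent.Lib.MP_adb389_agW

open MvPolynomial Pool.Agent.Lib.MP_adb389_ag

namespace T2Aux

variable {n : ℕ} {K : Type} [Field K]

theorem phi_prod {A : Matrix (Fin n) (Fin n) K} (hA : Good A) (d : Fin n → ℕ)
    (S : Finset (Fin n)) : ∀ g : MvPolynomial (Fin n) K,
      phi A d ((∏ s ∈ S, X s ^ d s) * g) = phi A (res d Sᶜ) g := by
  classical
  induction S using Finset.induction_on with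
  | empty =>
    intro g
    rw [Finset.prod_empty, one_mul]
    congr 2
    funext i
    unfold res
    rw [if_pos (Finset.mem_compl.2 (Finset.notMem_empty i))]
  | insert a S ha ih =>
    intro g
    have e : (∏ s ∈ insert a S, X s ^ d s) * g =
        (∏ s ∈ S, X s ^ d s) * (X a ^ d a * g) := by
      rw [Finset.prod_insert ha]
      ring
    have h1 : res d Sᶜ a = d a := by
      unfold res
      rw [if_pos (Finset.mem_compl.2 ha)]
    rw [e, ih, phi_X_pow hA a (d a) (res d Sᶜ) (by rw [h1]), h1, Nat.sub_self]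
    congr 2
    funext i
    by_cases hi : i = a
    · subst hi
      rw [Function.update_self]
      unfold res
      rw [if_neg fun h => (Finset.mem_compl.1 h) (Finset.mem_insert_self i S)]
    · rw [Function.update_of_ne hi]
      unfold res
      by_cases hS : i ∈ S
      · rw [if_neg fun h => (Finset.mem_compl.1 h) hS,
          if_neg fun h => (Finset.mem_compl.1 h) (Finset.mem_insert_of_mem hS)]
      · rw [if_pos (Finset.mem_compl.2 hS), if_pos (Finset.mem_compl.2 fun h =>
          (Finset.mem_insert.1 h).elim hi hS)]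

theorem omega_supported (d : Fin n → ℕ) (S : Finset (Fin n)) :
    (∏ s ∈ S, X s ^ d s : MvPolynomial (Fin n) K) ∈ supported K (S : Set (Fin n)) :=
  Subalgebra.prod_mem _ fun s hs => Subalgebra.pow_mem _ (X_mem_supported.2 hs) _

theorem omega_hom (d : Fin n → ℕ) (S : Finset (Fin n)) :
    (∏ s ∈ S, X s ^ d s : MvPolynomial (Fin n) K).IsHomogeneous (∑ s ∈ S, d s) :=
  IsHomogeneous.prod _ _ _ fun s _ => by
    have h := (isHomogeneous_X K s).pow (d s)
    rwa [one_mul] at h

theorem phi_omega {A : Matrix (Fin n) (Fin n) K} (hA : Good A) (d : Fin n → ℕ)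
    (S : Finset (Fin n)) : phi A (res d S) (∏ s ∈ S, X s ^ d s) = 1 := by
  classical
  have e : (∏ s ∈ S, X s ^ d s : MvPolynomial (Fin n) K) =
      (∏ s ∈ S, X s ^ res d S s) * 1 := by
    rw [mul_one]
    refine Finset.prod_congr rfl fun s hs => ?_
    unfold res
    rw [if_pos hs]
  rw [e, phi_prod hA, phi_zero, coeff_zero_one]
  refine Finset.sum_eq_zero fun i _ => ?_
  unfold res
  by_cases hi : i ∈ S
  · rw [if_neg fun h => (Finset.mem_compl.1 h) hi]
  · rw [if_pos (Finset.mem_compl.2 hi), if_neg hi]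

end T2Aux

open T2Aux

theorem T2 (hT1 : S_T1) : S_T2 := by
  intro n K _ A hA S hS d
  obtain ⟨π, _, _, _, _, h5⟩ := hT1 n K A hA S hS d
  refine ⟨fun p => ?_, fun P hP h hh hlt => ?_, fun P hP hh => ?_⟩
  · rw [mem_idl_iff hA, mem_idl_iff hA]
    refine forall_congr' fun h => ?_
    rw [mul_assoc, phi_prod hA]
  · refine h5 P hP (mem_of_top hA hh ?_)
    rw [sum_res]
    exact hlt
  · refine h5 _ ?_ ?_
    · refine Subalgebra.sub_mem _ hP (Subalgebra.mul_mem _ ?_ (omega_supported d S))
      exact (supported K (S : Set (Fin n))).algebraMap_mem _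
    · have hQ : (P - C (phi A (res d S) P) * ∏ s ∈ S, X s ^ d s).IsHomogeneous
          (∑ s ∈ S, d s) := by
        refine hh.sub ?_
        have h := (isHomogeneous_C (Fin n) (phi A (res d S) P)).mul (omega_hom (K := K) d S)
        rwa [zero_add] at h
      refine mem_of_pair hA hQ (k := 0) (by rw [sum_res, add_zero]) fun p hp => ?_
      have h1 : p = C (coeff 0 p) := by
        have h2 := homogeneousComponent_of_mem (m := 0) ((mem_homogeneousSubmodule 0 p).2 hp)
        rw [if_pos rfl, homogeneousComponent_zero] at h2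
        exact h2.symm
      rw [h1, mul_comm, ← smul_eq_C_mul, map_smul, map_sub, ← smul_eq_C_mul, map_smul,
        phi_omega hA, smul_eq_mul, smul_eq_mul, mul_one, sub_self, mul_zero]

end Pool.Agent.Lib.MP_adb389_agW
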