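import Pool.Agent.Lib.MP_adb389_agW.SpecC

/-!
# MP_adb389_agW: expansion with respect to a basis modulo the upper block
-/

set_option autoImplicit false

namespace Pool.Agent.Lib.MP_adb389_agW

open MvPolynomial Pool.Agent.Lib.MP_adb389_ag

namespace TEAux

variable {n : ℕ} {K : Type} [Field K]

/-- elements of `idl A (res d Sᶜ)` -/
theorem split {A : Matrix (Fin n) (Fin n) K} {S : Finset (Fin n)}
    (hS : ∀ i ∈ S, ∀ j, j ∉ S → A i j = 0) {d : Fin n → ℕ} {f : MvPolynomial (Fin n) K}
    (hf : f ∈ idl A (res d Sᶜ)) :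
    ∃ (j₀ : MvPolynomial (Fin n) K) (h : Fin n → MvPolynomial (Fin n) K), j₀ ∈ idl A d ∧
      f = j₀ + ∑ s ∈ S, X s * h s := by
  classical
  unfold idl at hf
  obtain ⟨c, hc⟩ := Ideal.mem_span_range_iff_exists_fun.1 hf
  refine ⟨∑ j ∈ Sᶜ, c j * gen A d j, fun s => ∑ j ∈ S, C (A j s) * c j, ?_, ?_⟩
  · exact Ideal.sum_mem _ fun j _ => Ideal.mul_mem_left _ _ (gen_mem A d j)
  · have h1 : ∀ j ∈ Sᶜ, c j * gen A (res d Sᶜ) j = c j * gen A d j := by
      intro j hj
      unfold gen res
      rw [if_pos hj]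
    have h2 : ∀ j ∈ S, c j * gen A (res d Sᶜ) j = ∑ s ∈ S, X s * (C (A j s) * c j) := by
      intro j hj
      have h3 : yf A j = ∑ s ∈ S, C (A j s) * X s := by
        unfold yf
        symm
        refine Finset.sum_subset (Finset.subset_univ S) fun l _ hl => ?_
        rw [hS j hj l hl, C_0, zero_mul]
      have h4 : gen A (res d Sᶜ) j = yf A j := by
        unfold gen res
        rw [if_neg (by rw [Finset.mem_compl, not_not]; exact hj), pow_zero, one_mul]
      rw [h4, h3, Finset.mul_sum]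
      refine Finset.sum_congr rfl fun s _ => ?_
      ring
    rw [← hc, ← Finset.sum_compl_add_sum S, Finset.sum_congr rfl h1, Finset.sum_congr rfl h2,
      Finset.sum_comm]
    congr 1
    refine Finset.sum_congr rfl fun s _ => ?_
    rw [Finset.mul_sum]

theorem hc_self {f : MvPolynomial (Fin n) K} {q : ℕ} (hq : f.IsHomogeneous q) :
    homogeneousComponent q f = f := by
  rw [homogeneousComponent_of_mem hq, if_pos rfl]

theorem splitZ {A : Matrix (Fin n) (Fin n) K} {S : Finset (Fin n)}
    (hS : ∀ i ∈ S, ∀ j, j ∉ S → A i j = 0) {d : Fin n → ℕ} {f : MvPolynomial (Fin n) K}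
    (hf : f ∈ idl A (res d Sᶜ)) (hq : f.IsHomogeneous 0) : f ∈ idl A d := by
  obtain ⟨j₀, h, hj, e⟩ := split hS hf
  rw [← hc_self hq, e, map_add, map_sum]
  refine Ideal.add_mem _ (hc_mem hj 0) (Ideal.sum_mem _ fun s _ => ?_)
  rw [hc_mul_zero (isHomogeneous_X K s) one_pos]
  exact Ideal.zero_mem _

theorem splitS {A : Matrix (Fin n) (Fin n) K} {S : Finset (Fin n)}
    (hS : ∀ i ∈ S, ∀ j, j ∉ S → A i j = 0) {d : Fin n → ℕ} {f : MvPolynomial (Fin n) K} {q : ℕ}
    (hf : f ∈ idl A (res d Sᶜ)) (hq : f.IsHomogeneous (q + 1)) :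
    ∃ (j₀ : MvPolynomial (Fin n) K) (h : Fin n → MvPolynomial (Fin n) K), j₀ ∈ idl A d ∧
      (∀ s, (h s).IsHomogeneous q) ∧ f = j₀ + ∑ s ∈ S, X s * h s := by
  obtain ⟨j₀, h, hj, e⟩ := split hS hf
  refine ⟨homogeneousComponent (q + 1) j₀, fun s => homogeneousComponent q (h s), hc_mem hj _,
    fun s => homogeneousComponent_isHomogeneous q (h s), ?_⟩
  conv_lhs => rw [← hc_self hq, e, map_add, map_sum]
  congr 1
  refine Finset.sum_congr rfl fun s _ => ?_
  rw [add_comm q 1, hc_mul (isHomogeneous_X K s)]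

theorem C_hom (x : K) {k q : ℕ} (h : k = q) :
    (C x : MvPolynomial (Fin n) K).IsHomogeneous (q - k) := by
  rw [h, Nat.sub_self]
  exact isHomogeneous_C _ _

theorem C_supp (S : Set (Fin n)) (x : K) : (C x : MvPolynomial (Fin n) K) ∈ supported K S :=
  (supported K S).algebraMap_mem x

/-- the remainder of the expansion in degree `q` -/
theorem rest {J : Ideal (MvPolynomial (Fin n) K)} {m : ℕ → ℕ}
    {b : (k : ℕ) → Fin (m k) → MvPolynomial (Fin n) K} (hb : Bs J m b) {q : ℕ}
    {x : MvPolynomial (Fin n) K} (hx : x.IsHomogeneous q) :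
    ∃ u : Fin (m q) → K, x - ∑ i, C (u i) * b q i ∈ J ∧
      (x - ∑ i, C (u i) * b q i).IsHomogeneous q := by
  obtain ⟨u, hu⟩ := hb.gen q x hx
  refine ⟨u, hu, hx.sub (IsHomogeneous.sum _ _ _ fun i _ => ?_)⟩
  have := (isHomogeneous_C (Fin n) (u i)).mul (hb.hom q i)
  rwa [zero_add] at this

end TEAux

open TEAux in
theorem TE : S_TE := by
  intro n K _ A _ S hS d m b hb q
  induction q with
  | zero =>
    intro x hx
    obtain ⟨u, hu, hh⟩ := rest hb hx
    refine ⟨Function.update (fun _ _ => 0) 0 fun i => C (u i), ?_, ?_⟩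
    · intro k hk i
      obtain rfl : k = 0 := by omega
      rw [Function.update_self]
      exact ⟨C_supp _ _, C_hom _ rfl⟩
    · rw [Finset.sum_range_one, Function.update_self]
      exact splitZ hS hu hh
  | succ q ih =>
    intro x hx
    obtain ⟨u, hu, hh⟩ := rest hb hx
    obtain ⟨j₀, h, hj, hhom, e⟩ := splitS hS hu hh
    choose β hβ1 hβ2 using fun s => ih (h s) (hhom s)
    refine ⟨Function.update (fun k i => ∑ s ∈ S, X s * β s k i) (q + 1) fun i => C (u i), ?_, ?_⟩
    · intro k hk i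
      by_cases hkq : k = q + 1
      · subst hkq
        rw [Function.update_self]
        exact ⟨C_supp _ _, C_hom _ rfl⟩
      · rw [Function.update_of_ne hkq]
        have hk' : k ≤ q := by omega
        refine ⟨Subalgebra.sum_mem _ fun s hs => Subalgebra.mul_mem _ ?_ (hβ1 s k hk' i).1,
          IsHomogeneous.sum _ _ _ fun s _ => ?_⟩
        · exact X_mem_supported.2 hs
        · have := (isHomogeneous_X K s).mul (hβ1 s k hk' i).2
          rwa [show 1 + (q - k) = q + 1 - k by omega] at this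
    · rw [Finset.sum_range_succ, Function.update_self]
      have e1 : ∀ k ∈ Finset.range (q + 1), ∑ i, Function.update
          (fun k i => ∑ s ∈ S, X s * β s k i) (q + 1) (fun i => C (u i)) k i * b k i =
          ∑ s ∈ S, X s * ∑ i, β s k i * b k i := by
        intro k hk
        rw [Finset.mem_range] at hk
        rw [Function.update_of_ne (by omega)]
        simp only [Finset.sum_mul, Finset.mul_sum]
        rw [Finset.sum_comm]
        refine Finset.sum_congr rfl fun s _ => Finset.sum_congr rfl fun i _ => ?_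
        ring
      rw [Finset.sum_congr rfl e1, Finset.sum_comm]
      have e2 : x - (∑ s ∈ S, ∑ k ∈ Finset.range (q + 1), X s * ∑ i, β s k i * b k i +
          ∑ i, C (u i) * b (q + 1) i) =
          j₀ + ∑ s ∈ S, X s * (h s - ∑ k ∈ Finset.range (q + 1), ∑ i, β s k i * b k i) := by
        have e3 : x = ∑ i, C (u i) * b (q + 1) i + (j₀ + ∑ s ∈ S, X s * h s) := by
          rw [← e]; ring
        have e4 : ∑ s ∈ S, X s * (h s - ∑ k ∈ Finset.range (q + 1), ∑ i, β s k i * b k i) =
            ∑ s ∈ S, X s * h s -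
              ∑ s ∈ S, ∑ k ∈ Finset.range (q + 1), X s * ∑ i, β s k i * b k i := by
          rw [← Finset.sum_sub_distrib]
          refine Finset.sum_congr rfl fun s _ => ?_
          rw [mul_sub, Finset.mul_sum]
        rw [e4]
        conv_lhs => rw [e3]
        ring
      rw [e2]
      exact Ideal.add_mem _ hj (Ideal.sum_mem _ fun s _ => Ideal.mul_mem_left _ _ (hβ2 s))

end Pool.Agent.Lib.MP_adb389_agW
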