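import Pool.Agent.Lib.MP_adb389_agW.SpecC

/-!
# MP_adb389_agW, TU: uniqueness of the expansion
-/

set_option autoImplicit false

namespace Pool.Agent.Lib.MP_adb389_agW

open MvPolynomial Pool.Agent.Lib.MP_adb389_ag

theorem TU (hT1 : S_T1) (hT2 : S_T2) : S_TU := by
  intro n K _ A hA S hS d m b hb q β hβ hsum
  obtain ⟨π, p1, p2, p3, p4, p5⟩ := hT1 n K A hA S hS d
  obtain ⟨t1, t2, t3⟩ := hT2 n K A hA S hS d
  have key : ∀ j k : ℕ, k + j = q → ∀ i, β k i ∈ idl A d := by
    intro j
    induction j using Nat.strong_induction_on with
    | _ j ih =>
      intro k hkj i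
      by_cases hj : ∑ s ∈ S, d s < j
      · have h1 := hβ k (by omega) i
        refine t2 (β k i) h1.1 j ?_ hj
        have e : q - k = j := by omega
        rw [← e]
        exact h1.2
      rw [not_lt] at hj
      obtain ⟨e, he⟩ : ∃ e, e + j = ∑ s ∈ S, d s := ⟨∑ s ∈ S, d s - j, by omega⟩
      -- the coefficients vanish
      have hcoef : ∀ P ∈ supported K (S : Set (Fin n)), P.IsHomogeneous e →
          ∀ i, phi A (res d S) (P * β k i) = 0 := by
        intro P hP hPh
        have h1 : P * ∑ i, β k i * b k i ∈ idl A d := by
          have h2 : P * ∑ l ∈ Finset.range (q + 1), ∑ i, β l i * b l i ∈ idl A d :=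
            Ideal.mul_mem_left _ _ hsum
          have hk : k ∈ Finset.range (q + 1) := Finset.mem_range.2 (by omega)
          rw [← Finset.add_sum_erase _ _ hk, mul_add] at h2
          have h3 : P * ∑ l ∈ (Finset.range (q + 1)).erase k, ∑ i, β l i * b l i ∈ idl A d := by
            rw [Finset.mul_sum]
            refine Ideal.sum_mem _ fun l hl => ?_
            rw [Finset.mem_erase, Finset.mem_range] at hl
            rw [Finset.mul_sum]
            refine Ideal.sum_mem _ fun i _ => ?_
            rcases lt_or_gt_of_ne hl.1 with h | h
            · -- `l < k`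
              have h4 := hβ l (by omega) i
              have h5 : P * β l i ∈ idl A d := by
                refine t2 _ (Subalgebra.mul_mem _ hP h4.1) (e + (q - l)) (hPh.mul h4.2) ?_
                omega
              have e1 : P * (β l i * b l i) = b l i * (P * β l i) := by ring
              rw [e1]
              exact Ideal.mul_mem_left _ _ h5
            · have h5 := ih (q - l) (by omega) l (by omega) i
              have e1 : P * (β l i * b l i) = (P * b l i) * β l i := by ring
              rw [e1]
              exact Ideal.mul_mem_left _ _ h5
          exact (Ideal.add_mem_iff_left _ h3).1 h2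
        have h6 : ∀ i, P * β k i - C (phi A (res d S) (P * β k i)) * ∏ s ∈ S, X s ^ d s ∈
            idl A d := by
          intro i
          have h4 := hβ k (by omega) i
          refine t3 _ (Subalgebra.mul_mem _ hP h4.1) ?_
          rw [← he]
          have e2 : q - k = j := by omega
          rw [← e2]
          exact hPh.mul h4.2
        have h7 : (∏ s ∈ S, X s ^ d s) *
            ∑ i, C (phi A (res d S) (P * β k i)) * b k i ∈ idl A d := by
          have e3 : (∏ s ∈ S, X s ^ d s) * ∑ i, C (phi A (res d S) (P * β k i)) * b k i =
              P * ∑ i, β k i * b k i - ∑ i, b k i * (P * β k i -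
                C (phi A (res d S) (P * β k i)) * ∏ s ∈ S, X s ^ d s) := by
            rw [Finset.mul_sum, Finset.mul_sum, ← Finset.sum_sub_distrib]
            refine Finset.sum_congr rfl fun i _ => ?_
            ring
          rw [e3]
          exact Ideal.sub_mem _ h1 (Ideal.sum_mem _ fun i _ => Ideal.mul_mem_left _ _ (h6 i))
        have h8 := hb.ind k _ ((t1 _).1 h7)
        intro i
        exact congrFun h8 i
      have h9 : (β k i).IsHomogeneous j := by
        have e2 : q - k = j := by omega
        rw [← e2]
        exact (hβ k (by omega) i).2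
      have h10 : β k i ∈ idl A (res d S) := by
        refine mem_of_pair hA h9 (k := e) (by rw [sum_res]; omega) fun p hp => ?_
        have h11 : phi A (res d S) ((p - π p) * β k i) = 0 :=
          (mem_idl_iff hA).1 (p4 p) (β k i)
        have h12 := hcoef (π p) (p2 p) (p3 p e hp) i
        rw [sub_mul, map_sub, h12, sub_zero] at h11
        rw [mul_comm]
        exact h11
      exact p5 _ (hβ k (by omega) i).1 h10
  intro k hk i
  exact key (q - k) k (by omega) i

end Pool.Agent.Lib.MP_adb389_agW
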