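import Pool.Agent.Lib.MP_adb389_agW.SpecC

/-!
# MP_adb389_agW: Ta, the graded pieces for a strong Lefschetz element
-/

set_option autoImplicit false

namespace Pool.Agent.Lib.MP_adb389_agW

open MvPolynomial Pool.Agent.Lib.MP_adb389_ag

namespace TaAux

variable {n : ℕ} {K : Type} [Field K]

/-- Smaller powers are injective in degrees `k` with `2 k + s ≤ D`. -/
theorem inj_small {J : Ideal (MvPolynomial (Fin n) K)} {D : ℕ} {c : Fin n → K} (h : SL J D c)
    {k s : ℕ} (hks : 2 * k + s ≤ D) : Inj J (lin c ^ s) k := by
  intro x hx hmem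
  refine h k (D - 2 * k) (by omega) x hx ?_
  have e : lin c ^ (D - 2 * k) * x = lin c ^ (D - 2 * k - s) * (lin c ^ s * x) := by
    rw [← mul_assoc, ← pow_add]
    congr 2
    omega
  rw [e]
  exact Ideal.mul_mem_left _ _ hmem

end TaAux

theorem Ta : S_Ta := by
  intro n K _ A hA d c hSL
  refine ⟨?_, ?_⟩
  · intro f j hne β hβ hmem
    rcases Nat.lt_or_gt_of_ne hne with hlt | hgt
    · refine vw_of_mem (Ideal.mul_mem_left _ _ ?_)
      exact TaAux.inj_small hSL (k := j) (s := f + 1) (by omega) β hβ hmem
    · by_cases hjf : ∑ i, d i < j + f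
      · refine vw_of_mem (mem_of_top hA (s := f + j) ((lin_pow_hom c f).mul hβ) (by omega))
      · have hj : 1 ≤ j := by omega
        have hsur : Sur (idl A d) (lin c ^ (f + 1)) (j - 1) (f + 1) :=
          sur_of_inj hA (lin_pow_hom c (f + 1)) (k' := ∑ i, d i - (j + f)) (by omega)
            (TaAux.inj_small hSL (by omega))
        have hhom : (lin c ^ f * β).IsHomogeneous (j - 1 + (f + 1)) := by
          have h1 := (lin_pow_hom c f).mul hβ
          have e : f + j = j - 1 + (f + 1) := by omega
          rwa [e] at h1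
        obtain ⟨c', -, hc'⟩ := hsur _ hhom
        refine ⟨β - lin c * c', c', by ring, ?_⟩
        have e : lin c ^ f * (β - lin c * c') = lin c ^ f * β - lin c ^ (f + 1) * c' := by ring
        rw [e]
        exact hc'
  · intro f j hjf β hβ hmem hphi
    refine hSL j f hjf β hβ ?_
    refine mem_of_pair hA ((lin_pow_hom c f).mul hβ) (k := j) (by omega) fun y hy => ?_
    have hc : ∃ c' : MvPolynomial (Fin n) K, (y - lin c * c').IsHomogeneous j ∧
        lin c ^ (f + 1) * (y - lin c * c') ∈ idl A d := by
      by_cases hj : j = 0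
      · refine ⟨0, ?_, ?_⟩
        · rw [mul_zero, sub_zero]
          exact hy
        · rw [mul_zero, sub_zero]
          exact mem_of_top hA (s := f + 1 + j) ((lin_pow_hom c (f + 1)).mul hy) (by omega)
      · have hsur : Sur (idl A d) (lin c ^ (f + 2)) (j - 1) (f + 2) :=
          sur_of_inj hA (lin_pow_hom c (f + 2)) (k' := j - 1) (by omega)
            (TaAux.inj_small hSL (by omega))
        have hhom : (lin c ^ (f + 1) * y).IsHomogeneous (j - 1 + (f + 2)) := by
          have h1 := (lin_pow_hom c (f + 1)).mul hy
          have e : f + 1 + j = j - 1 + (f + 2) := by omega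
          rwa [e] at h1
        obtain ⟨c', hc1, hc2⟩ := hsur _ hhom
        refine ⟨c', ?_, ?_⟩
        · have h1 := (lin_hom' c).mul hc1
          have e : 1 + (j - 1) = j := by omega
          rw [e] at h1
          exact hy.sub h1
        · have e : lin c ^ (f + 1) * (y - lin c * c') =
              lin c ^ (f + 1) * y - lin c ^ (f + 2) * c' := by ring
          rw [e]
          exact hc2
    obtain ⟨c', h1, h2⟩ := hc
    have h3 := hphi _ h1 h2
    have e : lin c ^ f * β * y =
        lin c ^ f * (y - lin c * c') * β + lin c ^ (f + 1) * β * c' := by ring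
    rw [e, map_add, h3, zero_add]
    exact phi_idl hA hmem _

end Pool.Agent.Lib.MP_adb389_agW
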