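import Pool.Agent.Lib.MP_adb389_agW.SpecC

/-!
# MP_adb389_agW: Tc, reduction to the central degree
-/

set_option autoImplicit false

namespace Pool.Agent.Lib.MP_adb389_agW

open MvPolynomial Pool.Agent.Lib.MP_adb389_ag

namespace TcAux

variable {n : ℕ} {K : Type} [Field K]

theorem idl_le_res (A : Matrix (Fin n) (Fin n) K) (d : Fin n → ℕ) (S : Finset (Fin n)) :
    idl A d ≤ idl A (res d S) := by
  conv_lhs => unfold idl
  rw [Ideal.span_le]
  rintro _ ⟨i, rfl⟩
  by_cases hi : i ∈ S
  · have h : gen A d i = gen A (res d S) i := by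
      unfold gen res
      rw [if_pos hi]
    rw [h]
    exact gen_mem _ _ _
  · unfold gen
    refine Ideal.mul_mem_left _ _ (yf_mem ?_)
    unfold res
    rw [if_neg hi]

theorem lin_supported {S : Finset (Fin n)} {c : Fin n → K} (hc : ∀ j, j ∉ S → c j = 0) :
    lin c ∈ supported K (S : Set (Fin n)) := by
  unfold lin
  refine Subalgebra.sum_mem _ fun j _ => ?_
  by_cases hj : j ∈ S
  · exact Subalgebra.mul_mem _ (Subalgebra.algebraMap_mem _ _) (X_mem_supported.2 hj)
  · rw [hc j hj, C_0, zero_mul]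
    exact Subalgebra.zero_mem _

end TcAux

theorem Tc (hT1 : S_T1) (hTE : S_TE) (hTU : S_TU) (hTa : S_Ta) : S_Tc := by
  classical
  intro n K _ A hA S hS d m b hb c hc hSL f q x hx hmem
  obtain ⟨π, hπ1, hπ2, -, hπ4, hπ5⟩ := hT1 n K A hA S hS d
  obtain ⟨β, hβ, hxβ⟩ := hTE n K A hA S hS d m b hb q x hx
  have hz := TcAux.lin_supported (K := K) hc
  have hzf : ∀ s, lin c ^ s ∈ supported K (S : Set (Fin n)) := fun s => Subalgebra.pow_mem _ hz s
  -- the coefficients of `z ^ (f+1) * x`
  have hcoef : ∀ k ≤ q, ∀ i, lin c ^ (f + 1) * β k i ∈ idl A d := by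
    have h1 := hTU n K A hA S hS d m b hb (q + f + 1)
      (fun k i => if k ≤ q then lin c ^ (f + 1) * β k i else 0) ?_ ?_
    · intro k hk i
      have h2 := h1 k (by omega) i
      simp only [if_pos hk] at h2
      exact h2
    · intro k hk i
      by_cases hkq : k ≤ q
      · simp only [if_pos hkq]
        refine ⟨Subalgebra.mul_mem _ (hzf _) (hβ k hkq i).1, ?_⟩
        have h2 := (lin_pow_hom c (f + 1)).mul (hβ k hkq i).2
        have e : f + 1 + (q - k) = q + f + 1 - k := by omega
        rwa [e] at h2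
      · simp only [if_neg hkq]
        exact ⟨Subalgebra.zero_mem _, isHomogeneous_zero _ _ _⟩
    · have h2 : ∑ k ∈ Finset.range (q + f + 1 + 1), ∑ i,
          (if k ≤ q then lin c ^ (f + 1) * β k i else 0) * b k i =
          lin c ^ (f + 1) * ∑ k ∈ Finset.range (q + 1), ∑ i, β k i * b k i := by
        rw [Finset.mul_sum]
        have h3 : Finset.range (q + 1) ⊆ Finset.range (q + f + 1 + 1) := by
          intro k hk
          rw [Finset.mem_range] at hk ⊢
          omega
        rw [← Finset.sum_subset h3]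
        · refine Finset.sum_congr rfl fun k hk => ?_
          rw [Finset.mem_range] at hk
          rw [Finset.mul_sum]
          refine Finset.sum_congr rfl fun i _ => ?_
          rw [if_pos (by omega), mul_assoc]
        · intro k _ hk
          rw [Finset.mem_range] at hk
          refine Finset.sum_eq_zero fun i _ => ?_
          rw [if_neg (by omega), zero_mul]
      rw [h2]
      have h4 : lin c ^ (f + 1) * ∑ k ∈ Finset.range (q + 1), ∑ i, β k i * b k i =
          lin c ^ (f + 1) * x -
            lin c ^ (f + 1) * (x - ∑ k ∈ Finset.range (q + 1), ∑ i, β k i * b k i) := by ring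
      rw [h4]
      exact Ideal.sub_mem _ hmem (Ideal.mul_mem_left _ _ hxβ)
  -- the terms which are not central
  have hterm : ∀ k ≤ q, 2 * (q - k) + f ≠ ∑ i ∈ S, d i → ∀ i,
      VW (idl A d) (lin c) f (β k i * b k i) := by
    intro k hk hne i
    have hSL' : SL (idl A (res d S)) (∑ i, res d S i) c := by
      rw [sum_res]
      exact hSL
    obtain ⟨β', γ, h1, h2⟩ := (hTa n K A hA (res d S) c hSL').1 f (q - k)
      (by rw [sum_res]; exact hne) (β k i) (hβ k hk i).2
      (TcAux.idl_le_res A d S (hcoef k hk i))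
    have h3 : β k i = π β' + lin c * π γ := by
      have h4 := hπ1 (β k i) (hβ k hk i).1
      rw [h1, map_add, map_mul, hπ1 _ hz] at h4
      rw [h1]
      exact h4.symm
    have h5 : lin c ^ f * π β' ∈ idl A d := by
      have h6 : lin c ^ f * π β' = π (lin c ^ f * β') := by
        rw [map_mul, hπ1 _ (hzf f)]
      refine hπ5 _ (Subalgebra.mul_mem _ (hzf f) (hπ2 β')) ?_
      have h7 : lin c ^ f * π β' = lin c ^ f * β' - (lin c ^ f * β' - π (lin c ^ f * β')) := by
        rw [sub_sub_cancel, h6]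
      rw [h7]
      exact Ideal.sub_mem _ h2 (hπ4 _)
    rw [mul_comm]
    exact vw_mul _ ⟨π β', π γ, h3, h5⟩
  by_cases hcase : ∃ k, k ≤ q ∧ 2 * (q - k) + f = ∑ i ∈ S, d i
  · obtain ⟨k, hk, hkD⟩ := hcase
    right
    refine ⟨q - k, k, β k, hkD, by omega,
      fun i => ⟨(hβ k hk i).1, (hβ k hk i).2, hcoef k hk i⟩, ?_⟩
    have hmemk : k ∈ Finset.range (q + 1) := Finset.mem_range.2 (by omega)
    have e : x - ∑ i, β k i * b k i =
        (x - ∑ k ∈ Finset.range (q + 1), ∑ i, β k i * b k i) +
          ∑ k ∈ (Finset.range (q + 1)).erase k, ∑ i, β k i * b k i := by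
      rw [← Finset.add_sum_erase _ _ hmemk]
      ring
    rw [e]
    refine vw_add (vw_of_mem (Ideal.mul_mem_left _ _ hxβ)) (vw_sum fun k' hk' => vw_sum fun i _ => ?_)
    rw [Finset.mem_erase, Finset.mem_range] at hk'
    exact hterm k' (by omega) (by omega) i
  · left
    have e : x = (x - ∑ k ∈ Finset.range (q + 1), ∑ i, β k i * b k i) +
        ∑ k ∈ Finset.range (q + 1), ∑ i, β k i * b k i := by ring
    rw [e]
    refine vw_add (vw_of_mem (Ideal.mul_mem_left _ _ hxβ)) (vw_sum fun k' hk' => vw_sum fun i _ => ?_)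
    rw [Finset.mem_range] at hk'
    exact hterm k' (by omega) (fun h => hcase ⟨k', by omega, h⟩) i

end Pool.Agent.Lib.MP_adb389_agW
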