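import Pool.Agent.Lib.MP_adb389_agW.SpecC

/-!
# The degeneration modules for block triangular matrices
-/

set_option autoImplicit false

namespace Pool.Agent.Lib.MP_adb389_agW

open MvPolynomial Pool.Agent.Lib.MP_adb389_ag

namespace TdAux

variable {n : ℕ} {K : Type} [Field K]

theorem idl_le_res (A : Matrix (Fin n) (Fin n) K) (d : Fin n → ℕ) (S : Finset (Fin n)) :
    idl A d ≤ idl A (res d S) := by
  unfold idl
  rw [Ideal.span_le]
  rintro _ ⟨j, rfl⟩
  by_cases hj : j ∈ S
  · have : gen A d j = gen A (res d S) j := by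
      unfold gen res
      rw [if_pos hj]
    rw [this]
    exact gen_mem _ _ _
  · unfold gen
    exact Ideal.mul_mem_left _ _ (yf_mem (d := res d S) (by unfold res; rw [if_neg hj]))

theorem lin_supported {c : Fin n → K} {S : Finset (Fin n)} (hc : ∀ j, j ∉ S → c j = 0) :
    lin c ∈ supported K (S : Set (Fin n)) := by
  unfold lin
  refine Subalgebra.sum_mem _ fun j _ => ?_
  by_cases hj : j ∈ S
  · refine Subalgebra.mul_mem _ ((supported K (S : Set (Fin n))).algebraMap_mem (c j)) ?_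
    exact X_mem_supported.2 (Finset.mem_coe.2 hj)
  · rw [hc j hj, C_0, zero_mul]
    exact Subalgebra.zero_mem _

theorem phi_of_mem {A : Matrix (Fin n) (Fin n) K} (hA : Good A) {d : Fin n → ℕ}
    {f : MvPolynomial (Fin n) K} (hf : f ∈ idl A d) : phi A d f = 0 := by
  have h := (mem_idl_iff hA).1 hf 1
  rwa [mul_one] at h

end TdAux

open TdAux

theorem Td (hT1 : S_T1) (hT2 : S_T2) (hTa : S_Ta) (hTc : S_Tc) : S_Td := by
  intro n K _ A hA S hS d c g hc hSL hSL' f q p hsum x hx hzx hV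
  obtain ⟨m, b, hb⟩ := exists_bs hA (res d Sᶜ)
  rcases hTc n K A hA S hS d m b hb c hc hSL f q x hx hzx with h | ⟨j, k, β, hj, hjk, hβ, hsub⟩
  · exact h
  obtain ⟨π, hπ1, hπ2, hπ3, hπ4, hπ5⟩ := hT1 n K A hA S hS d
  obtain ⟨hω1, _, hω3⟩ := hT2 n K A hA S hS d
  have hz : lin c ∈ supported K (S : Set (Fin n)) := lin_supported hc
  have hle := idl_le_res A d S
  obtain ⟨x₁, hx₁⟩ : ∃ x₁, x₁ = ∑ i, β i * b k i := ⟨_, rfl⟩
  rw [← hx₁] at hsub
  have hV₁ : VW (idl A d) (lin c) f (lin g ^ p * x₁) := by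
    refine (vw_iff_of_sub ?_).1 hV
    rw [← mul_sub]
    exact vw_mul _ hsub
  obtain ⟨B, γ, hB, hzB⟩ := hV₁
  rw [vw_iff_of_sub hsub]
  -- the coefficients lie in the ideal
  have key : ∀ P ∈ supported K (S : Set (Fin n)), P.IsHomogeneous j →
      lin c ^ (f + 1) * P ∈ idl A d → ∀ i, phi A (res d S) (lin c ^ f * P * β i) = 0 := by
    intro P hP hPj hzP
    have h1 : lin c ^ f * P * (lin g ^ p * x₁) ∈ idl A d := by
      have e : lin c ^ f * P * (lin g ^ p * x₁) =
          P * (lin c ^ f * B) + γ * (lin c ^ (f + 1) * P) := by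
        rw [hB]
        ring
      rw [e]
      exact Ideal.add_mem _ (Ideal.mul_mem_left _ _ hzB) (Ideal.mul_mem_left _ _ hzP)
    have h2 : ∀ i, lin c ^ f * P * β i - C (phi A (res d S) (lin c ^ f * P * β i)) *
        ∏ s ∈ S, X s ^ d s ∈ idl A d := by
      intro i
      refine hω3 _ ?_ ?_
      · exact Subalgebra.mul_mem _ (Subalgebra.mul_mem _ (Subalgebra.pow_mem _ hz f) hP) (hβ i).1
      · have h3 := ((lin_pow_hom c f).mul hPj).mul (hβ i).2.1
        have e : f + j + j = ∑ s ∈ S, d s := by omega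
        rwa [e] at h3
    have h3 : (∏ s ∈ S, X s ^ d s) * (lin g ^ p *
        ∑ i, C (phi A (res d S) (lin c ^ f * P * β i)) * b k i) ∈ idl A d := by
      have e : (∏ s ∈ S, X s ^ d s) * (lin g ^ p *
          ∑ i, C (phi A (res d S) (lin c ^ f * P * β i)) * b k i) =
          lin c ^ f * P * (lin g ^ p * x₁) - ∑ i, (lin g ^ p * b k i) *
            (lin c ^ f * P * β i - C (phi A (res d S) (lin c ^ f * P * β i)) *
              ∏ s ∈ S, X s ^ d s) := by
        rw [hx₁, Finset.mul_sum, Finset.mul_sum, Finset.mul_sum, Finset.mul_sum,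
          ← Finset.sum_sub_distrib]
        refine Finset.sum_congr rfl fun i _ => ?_
        ring
      rw [e]
      exact Ideal.sub_mem _ h1 (Ideal.sum_mem _ fun i _ => Ideal.mul_mem_left _ _ (h2 i))
    have h4 := (hω1 _).1 h3
    have hD := sum_res_add d S
    rw [sum_res, sum_res] at hD
    have h5 : ∑ i, C (phi A (res d S) (lin c ^ f * P * β i)) * b k i ∈ idl A (res d Sᶜ) := by
      refine hSL' k p (by omega) _ ?_ h4
      refine IsHomogeneous.sum _ _ _ fun i _ => ?_
      have h6 := (isHomogeneous_C (Fin n) (phi A (res d S) (lin c ^ f * P * β i))).mul (hb.hom k i)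
      rwa [zero_add] at h6
    have h7 := hb.ind k _ h5
    intro i
    exact congrFun h7 i
  have hβm : ∀ i, β i ∈ idl A d := by
    intro i
    apply hπ5 _ (hβ i).1
    refine (hTa n K A hA (res d S) c (by rw [sum_res]; exact hSL)).2 f j (by rw [sum_res]; exact hj)
      (β i) (hβ i).2.1 (hle (hβ i).2.2) ?_
    intro P hP hzP
    have h1 : lin c ^ (f + 1) * π P ∈ idl A (res d S) := by
      have e : lin c ^ (f + 1) * π P = lin c ^ (f + 1) * P - lin c ^ (f + 1) * (P - π P) := by ring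
      rw [e]
      exact Ideal.sub_mem _ hzP (Ideal.mul_mem_left _ _ (hπ4 P))
    have h2 : lin c ^ (f + 1) * π P ∈ idl A d :=
      hπ5 _ (Subalgebra.mul_mem _ (Subalgebra.pow_mem _ hz _) (hπ2 P)) h1
    have h3 := key (π P) (hπ2 P) (hπ3 P j hP) h2 i
    have h4 : phi A (res d S) (lin c ^ f * (P - π P) * β i) = 0 := by
      apply phi_of_mem hA
      have e : lin c ^ f * (P - π P) * β i = (lin c ^ f * β i) * (P - π P) := by ring
      rw [e]
      exact Ideal.mul_mem_left _ _ (hπ4 P)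
    have e : lin c ^ f * P * β i =
        lin c ^ f * π P * β i + lin c ^ f * (P - π P) * β i := by ring
    rw [e, map_add, h3, h4, add_zero]
  have hx₁m : x₁ ∈ idl A d := by
    rw [hx₁]
    exact Ideal.sum_mem _ fun i _ => Ideal.mul_mem_right _ _ (hβm i)
  exact vw_of_mem (Ideal.mul_mem_left _ _ hx₁m)

end Pool.Agent.Lib.MP_adb389_agW
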