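import Pool.Agent.Lib.MP_adb389_agW.SpecC

/-!
# The strong Lefschetz property for block triangular matrices
-/

set_option autoImplicit false

namespace Pool.Agent.Lib.MP_adb389_agW

open MvPolynomial Pool.Agent.Lib.MP_adb389_ag

namespace TriAux

variable {n : ℕ} {K : Type} [Field K]

theorem eq_single {m : Fin n →₀ ℕ} (hm : m.degree = 1) : ∃ i, m = Finsupp.single i 1 := by
  have hs : ∑ j, m j = 1 := by rw [← Finsupp.degree_eq_sum, hm]
  obtain ⟨i, _, hi⟩ := Finset.exists_ne_zero_of_sum_ne_zero (s := Finset.univ)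
    (f := fun j => m j) (by rw [hs]; exact one_ne_zero)
  have h1 : m i + ∑ j ∈ Finset.univ.erase i, m j = ∑ j, m j :=
    Finset.add_sum_erase Finset.univ (fun j => m j) (Finset.mem_univ i)
  rw [hs] at h1
  have h2 : ∑ j ∈ Finset.univ.erase i, m j = 0 := by omega
  refine ⟨i, Finsupp.ext fun j => ?_⟩
  by_cases hj : j = i
  · subst hj
    rw [Finsupp.single_eq_same]
    omega
  · rw [Finsupp.single_eq_of_ne hj]
    exact (Finset.sum_eq_zero_iff.1 h2) j (Finset.mem_erase.2 ⟨hj, Finset.mem_univ _⟩)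

theorem lin_of_hom {P : MvPolynomial (Fin n) K} (hP : P.IsHomogeneous 1) :
    lin (fun j => coeff (Finsupp.single j 1) P) = P := by
  ext m
  unfold lin
  rw [coeff_sum]
  by_cases hm : m.degree = 1
  · obtain ⟨i, rfl⟩ := eq_single hm
    rw [Finset.sum_eq_single i]
    · rw [coeff_C_mul, coeff_X', if_pos rfl, mul_one]
    · intro j _ hj
      rw [coeff_C_mul, coeff_X', if_neg, mul_zero]
      intro h
      exact hj ((Finsupp.single_left_inj one_ne_zero).1 h)
    · intro h
      exact absurd (Finset.mem_univ _) h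
  · rw [hP.coeff_eq_zero hm]
    refine Finset.sum_eq_zero fun j _ => ?_
    rw [coeff_C_mul, coeff_X', if_neg, mul_zero]
    intro h
    apply hm
    rw [← h, Finsupp.degree_single]

theorem coeff_zero_of_supported {P : MvPolynomial (Fin n) K} {S : Finset (Fin n)}
    (hP : P ∈ supported K (S : Set (Fin n))) (j : Fin n) (hj : j ∉ S) :
    coeff (Finsupp.single j 1) P = 0 := by
  by_contra h
  apply hj
  have h1 : j ∈ P.vars := by
    rw [mem_vars_iff_mem_support]
    exact ⟨Finsupp.single j 1, mem_support_iff.2 h, by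
      rw [Finsupp.mem_support_iff, Finsupp.single_eq_same]
      exact one_ne_zero⟩
  exact Finset.mem_coe.1 (mem_supported.1 hP (Finset.mem_coe.2 h1))

/-- Injectivity depends only on the class of the form. -/
theorem inj_congr {J : Ideal (MvPolynomial (Fin n) K)} {u v : MvPolynomial (Fin n) K} {m i : ℕ}
    (h : u - v ∈ J) (hu : Inj J (u ^ m) i) : Inj J (v ^ m) i := by
  intro f hf hv
  refine hu f hf ?_
  have h1 : u ^ m - v ^ m ∈ J := by
    obtain ⟨w, hw⟩ := sub_dvd_pow_sub_pow u v m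
    rw [hw]
    exact Ideal.mul_mem_right _ _ h
  have e : u ^ m * f = (u ^ m - v ^ m) * f + v ^ m * f := by ring
  rw [e]
  exact J.add_mem (Ideal.mul_mem_right _ _ h1) hv

end TriAux

open TriAux in
theorem Tri (hT1 : S_T1) (hTd : S_Td) (hLP : S_LP) (hOpen : S_Open) : S_Tri := by
  intro n K _ _ A hA S hS d h1 h2 i m him
  apply hOpen
  obtain ⟨c₀, hc₀⟩ := (gen_forall_two (n := n) (K := K) (∑ j, res d S j)
    (P := fun q p c => Inj (idl A (res d S)) (lin c ^ p) q) fun q p hqp => h1 q p hqp).exists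
  obtain ⟨g, hg⟩ := (gen_forall_two (n := n) (K := K) (∑ j, res d Sᶜ j)
    (P := fun q p c => Inj (idl A (res d Sᶜ)) (lin c ^ p) q) fun q p hqp => h2 q p hqp).exists
  rw [sum_res] at hc₀ hg
  obtain ⟨π, hπ1, hπ2, hπ3, hπ4, hπ5⟩ := hT1 n K A hA S hS d
  have hlin := lin_of_hom (hπ3 _ 1 (lin_hom' c₀))
  obtain ⟨c, hc⟩ : ∃ c : Fin n → K, c = fun j => coeff (Finsupp.single j 1) (π (lin c₀)) :=
    ⟨_, rfl⟩
  rw [← hc] at hlin
  have hcS : ∀ j, j ∉ S → c j = 0 := by
    intro j hj
    rw [hc]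
    exact coeff_zero_of_supported (hπ2 _) j hj
  have hcSL : SL (idl A (res d S)) (∑ i ∈ S, d i) c := by
    intro q p hqp
    refine inj_congr ?_ (hc₀ q p hqp)
    rw [hlin]
    exact hπ4 _
  have hfin := hLP.1 n K (idl A d) c g i m (homI_idl A d) (by
    intro f q p _ hfq
    exact hTd n K A hA S hS d c g hcS hcSL (fun q p hqp => hg q p hqp) f q p (by omega))
  have hex : ∃ s : K, s ∉ {s : K | ¬ Inj (idl A d) (lin (c + s • g) ^ m) i} := by
    by_contra hcon
    push Not at hcon
    exact Set.infinite_univ (hfin.subset fun s _ => hcon s)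
  obtain ⟨s, hs⟩ := hex
  exact ⟨c + s • g, not_not.1 hs⟩

end Pool.Agent.Lib.MP_adb389_agW
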