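import Pool.Agent.Lib.MP_adb389_agW.SpecC

/-! The variables of a closed set of killed rows. -/

set_option autoImplicit false

namespace Pool.Agent.Lib.MP_adb389_agW

open MvPolynomial Pool.Agent.Lib.MP_adb389_ag

/-- (Zm) If the rows in `Z` are supported on `Z` and `d` vanishes on `Z`, then the variables of `Z` are
in the ideal. -/
theorem Zm : S_Zm := by
  classical
  intro n K _ A hA d Z hZ hd z hz
  rw [mem_idl_iff hA]
  intro h
  obtain ⟨v, hv⟩ : ∃ v : Fin n → K, ∀ j, v j = if j ∈ Z then phi A d (X j * h) else 0 :=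
    ⟨_, fun _ => rfl⟩
  have h0 : v = 0 := by
    refine hA (Finset.univ.filter fun j => j ∈ Z) v (fun j hj => ?_) fun i hi => ?_
    · rw [hv, if_neg]
      intro hj'
      exact hj (Finset.mem_filter.2 ⟨Finset.mem_univ _, hj'⟩)
    · have hi' : i ∈ Z := (Finset.mem_filter.1 hi).2
      have h1 := (mem_idl_iff hA).1 (yf_mem (A := A) (hd i hi')) h
      unfold yf at h1
      rw [Finset.sum_mul, map_sum] at h1
      rw [← h1]
      refine Finset.sum_congr rfl fun j _ => ?_
      rw [mul_assoc, ← smul_eq_C_mul, map_smul, smul_eq_mul, hv]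
      by_cases hj : j ∈ Z
      · rw [if_pos hj]
      · have h2 : A i j = 0 := by
          by_contra h3
          exact hj (hZ i hi' j h3)
        rw [h2, zero_mul, zero_mul]
  have h1 := congrFun h0 z
  rwa [hv, if_pos hz] at h1

end Pool.Agent.Lib.MP_adb389_agW
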