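import Pool.Agent.Lib.MP_adb389_agW.All
import Pool.Agent.Lib.MP_adb389_agW.Zm
import Pool.Agent.Lib.MP_adb389_agW.Cha
import Pool.Agent.Lib.MP_adb389_agW.Ch
import Pool.Agent.Lib.MP_adb389_agW.T1
import Pool.Agent.Lib.MP_adb389_agW.T2
import Pool.Agent.Lib.MP_adb389_agW.TE
import Pool.Agent.Lib.MP_adb389_agW.TU
import Pool.Agent.Lib.MP_adb389_agW.Ta
import Pool.Agent.Lib.MP_adb389_agW.Tc
import Pool.Agent.Lib.MP_adb389_agW.Td
import Pool.Agent.Lib.MP_adb389_agW.Tri
import Pool.Agent.Lib.MP_adb389_agW.Blk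
import Pool.Agent.Lib.MP_adb389_agW.CF

/-! The strong Lefschetz property for block triangular matrices: assembly. -/

set_option autoImplicit false

namespace Pool.Agent.Lib.MP_adb389_agW

open MvPolynomial Pool.Agent.Lib.MP_adb389_ag

theorem tT2 : S_T2 := T2 T1
theorem tTU : S_TU := TU T1 tT2
theorem tTc : S_Tc := Tc T1 TE tTU Ta
theorem tTd : S_Td := Td T1 tT2 Ta tTc
theorem tTri : S_Tri := Tri T1 tTd tLP Open
theorem tCh : S_Ch := Ch Zm (Cha Zm N1) tS3c tS3 tTV0 tLP Open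

/-- The strong Lefschetz property for block triangular matrices. -/
theorem slp_block : S_CF := CF Blk tCh tTri

end Pool.Agent.Lib.MP_adb389_agW
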