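import Pool.Agent.Lib.MP_adb389_agW.SpecC

/-!
# MP_adb389_agW: (Blk), one block as a chain
-/

set_option autoImplicit false

namespace Pool.Agent.Lib.MP_adb389_agW

open MvPolynomial Pool.Agent.Lib.MP_adb389_ag

namespace BlkAux

variable {n : ℕ}

/-- The part of the block `s` above `r`. -/
def B (t o : Fin n → ℕ) (s r : ℕ) : Finset (Fin n) :=
  Finset.univ.filter fun j => t j = s ∧ r ≤ o j

theorem mem_B {t o : Fin n → ℕ} {s r : ℕ} {j : Fin n} : j ∈ B t o s r ↔ t j = s ∧ r ≤ o j := by
  unfold B
  rw [Finset.mem_filter]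
  exact ⟨fun h => h.2, fun h => ⟨Finset.mem_univ _, h⟩⟩

theorem two_elts (S : Finset (Fin n)) (h : S.card ≤ 2) (a : Fin n) :
    ∃ b c : Fin n, ∀ j ∈ S, j = b ∨ j = c := by
  rcases S.eq_empty_or_nonempty with h1 | ⟨b, hb⟩
  · exact ⟨a, a, fun j hj => by rw [h1] at hj; exact absurd hj (Finset.notMem_empty j)⟩
  · rcases (S.erase b).eq_empty_or_nonempty with h2 | ⟨c, hc⟩
    · refine ⟨b, b, fun j hj => ?_⟩
      by_contra hcon
      push Not at hcon
      have : j ∈ S.erase b := Finset.mem_erase.2 ⟨hcon.1, hj⟩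
      rw [h2] at this
      exact absurd this (Finset.notMem_empty j)
    · refine ⟨b, c, fun j hj => ?_⟩
      by_contra hcon
      push Not at hcon
      have h3 : (S.erase b).card = S.card - 1 := Finset.card_erase_of_mem hb
      have h4 : ((S.erase b).erase c).card = (S.erase b).card - 1 := Finset.card_erase_of_mem hc
      have h5 : j ∈ (S.erase b).erase c :=
        Finset.mem_erase.2 ⟨hcon.2, Finset.mem_erase.2 ⟨hcon.1, hj⟩⟩
      have h6 := Finset.card_pos.2 ⟨j, h5⟩
      omega

theorem headD_mem {B' : Finset (Fin n)} {l : List (Fin n)} {a : Fin n} (hl : ∀ j ∈ l, j ∈ B')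
    (ha : a ∈ B') : l.headD a ∈ B' := by
  cases l with
  | nil => exact ha
  | cons x l => exact hl x List.mem_cons_self

theorem claim {K : Type} [Field K] {A : Matrix (Fin n) (Fin n) K} {t o : Fin n → ℕ}
    (hA : Shape A t o) (s : ℕ) : ∀ (N r : ℕ), (B t o s r).card = N → (B t o s r).Nonempty →
      ∃ (l : List (Fin n)) (a b c : Fin n), l.Nodup ∧
        (∀ j ∈ B t o s r, j ∈ l ∨ j = a ∨ j = b ∨ j = c) ∧ (∀ j ∈ l, j ∈ B t o s r) ∧
        a ∈ B t o s r ∧ ChR A {j | t j < s} a l ∧ ∀ j ∈ B t o s r, o (l.headD a) ≤ o j := by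
  intro N
  induction N using Nat.strong_induction_on with
  | _ N ih =>
    intro r hN hne
    obtain ⟨i, hi, hmin⟩ := Finset.exists_min_image (B t o s r) o hne
    by_cases h3 : (B t o s r).card ≤ 3
    · obtain ⟨b, c, hbc⟩ := two_elts ((B t o s r).erase i)
        (by rw [Finset.card_erase_of_mem hi]; omega) i
      refine ⟨[], i, b, c, List.nodup_nil, fun j hj => ?_, fun j hj => absurd hj List.not_mem_nil,
        hi, trivial, hmin⟩
      by_cases hji : j = i
      · exact Or.inr (Or.inl hji)
      · exact Or.inr (Or.inr (hbc j (Finset.mem_erase.2 ⟨hji, hj⟩)))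
    · have hi' := mem_B.1 hi
      have hB : B t o s (o i + 1) = (B t o s r).erase i := by
        ext j
        rw [Finset.mem_erase, mem_B, mem_B]
        constructor
        · rintro ⟨h4, h5⟩
          refine ⟨fun h6 => ?_, h4, by omega⟩
          rw [h6] at h5
          omega
        · rintro ⟨h4, h5, h6⟩
          have h7 := hmin j (mem_B.2 ⟨h5, h6⟩)
          have h8 : o j ≠ o i := fun h => h4 (hA.inj h)
          exact ⟨h5, by omega⟩
      have hcard : (B t o s (o i + 1)).card = (B t o s r).card - 1 := by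
        rw [hB, Finset.card_erase_of_mem hi]
      obtain ⟨l, a, b, c, k1, k2, k3, k4, k5, k6⟩ := ih (B t o s (o i + 1)).card (by omega)
        (o i + 1) rfl (Finset.card_pos.1 (by omega))
      have hsub : ∀ j ∈ B t o s (o i + 1), j ∈ B t o s r := fun j hj => by
        rw [hB] at hj
        exact Finset.mem_of_mem_erase hj
      refine ⟨i :: l, a, b, c, ?_, ?_, ?_, hsub a k4, ⟨?_, k5⟩, hmin⟩
      · refine List.nodup_cons.2 ⟨fun h => ?_, k1⟩
        have h4 := k3 i h
        rw [hB] at h4
        exact absurd rfl (Finset.mem_erase.1 h4).1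
      · intro j hj
        by_cases hji : j = i
        · exact Or.inl (hji ▸ List.mem_cons_self)
        · have h4 : j ∈ B t o s (o i + 1) := by
            rw [hB]
            exact Finset.mem_erase.2 ⟨hji, hj⟩
          rcases k2 j h4 with h5 | h5
          · exact Or.inl (List.mem_cons_of_mem _ h5)
          · exact Or.inr h5
      · intro j hj
        rcases List.mem_cons.1 hj with rfl | hj
        · exact hi
        · exact hsub j (k3 j hj)
      · intro j hj
        have h4 := hA.tri i j hj
        rw [hi'.1] at h4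
        rcases Nat.lt_or_ge (t j) s with h5 | h5
        · exact Or.inr (Or.inr h5)
        · have h6 : t j = s := le_antisymm h4 h5
          rcases hA.row i j hj (by rw [h6, hi'.1]) with h7 | h7 | h7
          · exact Or.inl h7
          · right
            left
            have h8 : j ∈ B t o s (o i + 1) := mem_B.2 ⟨h6, h7.ge⟩
            have h9 := k6 j h8
            have h10 := mem_B.1 (headD_mem k3 k4)
            exact hA.inj (by omega)
          · exfalso
            apply h3
            refine le_trans (Finset.card_le_card fun j hj => ?_) h7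
            have h8 := mem_B.1 hj
            rw [Finset.mem_filter]
            exact ⟨Finset.mem_univ _, by rw [h8.1, hi'.1], hmin j hj⟩

end BlkAux

open BlkAux in
theorem Blk : S_Blk := by
  intro n K _ A t o hA s hs
  obtain ⟨j₀, hj₀⟩ := hs
  obtain ⟨l, a, b, c, k1, k2, _, _, k5, _⟩ := claim hA s (B t o s 0).card 0 rfl
    ⟨j₀, mem_B.2 ⟨hj₀, Nat.zero_le _⟩⟩
  exact ⟨l, a, b, c, k1, fun j hj => k2 j (mem_B.2 ⟨hj, Nat.zero_le _⟩), k5⟩

end Pool.Agent.Lib.MP_adb389_agW
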