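import Pool.Agent.Lib.MP_adb389_ag.Inv

/-!
# The weak Lefschetz property in four variables: definitions

From `Lib/MP_adb389_ag`: `yf A i` is the linear form `y_i = ∑ j, a_ij x_j`, `gen A d i = x_i ^ d_i * y_i`,
`idl A d` the ideal of the `gen A d i`, `Good A`: all principal minors of `A` are nonzero, `phi A d` the
Macaulay dual functional (`mem_idl_iff`), `unitRow A i`: `A` with the row `i` replaced by the unit vector
(so `yf (unitRow A i) i = X i`), `lin c` is the linear form `∑ c_i x_i`, `Inj I g k`: multiplication with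
`g` is injective on the homogeneous elements of degree `k` modulo `I`, `Sur`.
-/

set_option autoImplicit false

namespace Pool.Agent.Lib.MP_adb389_agW

open MvPolynomial Pool.Agent.Lib.MP_adb389_ag

/-! ### Abstract graded vector spaces with two commuting operators -/

/-- A graded vector space with two commuting operators `z`, `g` of degree one. `pr i` is the projection
to the piece of degree `i`, an element `a` has degree `i` if `pr i a = a`. -/
structure GM (K M : Type) [Field K] [AddCommGroup M] [Module K M] where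
  z : M →ₗ[K] M
  g : M →ₗ[K] M
  pr : ℤ → M →ₗ[K] M
  comm : ∀ x, z (g x) = g (z x)
  idem : ∀ i x, pr i (pr i x) = pr i x
  zpr : ∀ i x, z (pr i x) = pr (i + 1) (z x)
  gpr : ∀ i x, g (pr i x) = pr (i + 1) (g x)
  neg : ∀ i < 0, ∀ x, pr i x = 0
  fin : ∀ i, Module.Finite K (LinearMap.range (pr i))

/-- `a` lies in `ker z^f + z M`. -/
def GM.W {K M : Type} [Field K] [AddCommGroup M] [Module K M] (G : GM K M) (f : ℕ) (a : M) : Prop :=
  ∃ b c, a = b + G.z c ∧ (G.z ^ f) b = 0

/-- The shift on `M[w]/w^m = (Fin m → M)`: multiplication by `w`. -/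
def shift (K M : Type) [Field K] [AddCommGroup M] [Module K M] (m : ℕ) :
    (Fin m → M) →ₗ[K] (Fin m → M) :=
  LinearMap.pi fun j => if _ : (j : ℕ) = 0 then 0 else LinearMap.proj ⟨(j : ℕ) - 1, by omega⟩

/-! ### Polynomials -/

variable {n : ℕ} {K : Type} [Field K]

/-- `a` lies in `(J : z^f) + (z)`. -/
def VW (J : Ideal (MvPolynomial (Fin n) K)) (z : MvPolynomial (Fin n) K) (f : ℕ)
    (a : MvPolynomial (Fin n) K) : Prop := ∃ b c, a = b + z * c ∧ z ^ f * b ∈ J

/-- Multiplication with `(lin e) ^ p` is injective on the elements of degree `q` of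
`((J : z^(f+1)) + (z)) / ((J : z^f) + (z))`. -/
def Cond (J : Ideal (MvPolynomial (Fin n) K)) (z : MvPolynomial (Fin n) K) (e : Fin n → K)
    (f q p : ℕ) : Prop :=
  ∀ a : MvPolynomial (Fin n) K, a.IsHomogeneous q → z ^ (f + 1) * a ∈ J →
    VW J z f (lin e ^ p * a) → VW J z f a

/-- `J` is a homogeneous ideal. -/
def HomI (J : Ideal (MvPolynomial (Fin n) K)) : Prop :=
  ∀ f ∈ J, ∀ k, homogeneousComponent k f ∈ J

/-- `P` holds outside of the zero set of a nonzero polynomial. -/
def Gen (P : (Fin n → K) → Prop) : Prop :=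
  ∃ q : MvPolynomial (Fin n) K, q ≠ 0 ∧ ∀ c, eval c q ≠ 0 → P c

/-- The ideal of the functional `ψ`. -/
def ann (ψ : MvPolynomial (Fin n) K →ₗ[K] K) : Ideal (MvPolynomial (Fin n) K) where
  carrier := {f | ∀ h, ψ (f * h) = 0}
  add_mem' := fun {a b} ha hb h => by rw [add_mul, map_add, ha h, hb h, add_zero]
  zero_mem' := fun h => by rw [zero_mul, map_zero]
  smul_mem' := fun c a ha h => by
    have e : c • a * h = a * (c * h) := by rw [smul_eq_mul]; ring
    rw [e]
    exact ha _

theorem mem_ann {ψ : MvPolynomial (Fin n) K →ₗ[K] K} {f : MvPolynomial (Fin n) K} :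
    f ∈ ann ψ ↔ ∀ h, ψ (f * h) = 0 := Iff.rfl

/-- `ψ` lives in degree `E`. -/
def IsDeg (ψ : MvPolynomial (Fin n) K →ₗ[K] K) (E : ℕ) : Prop :=
  ∀ (k : ℕ) (f : MvPolynomial (Fin n) K), f.IsHomogeneous k → k ≠ E → ψ f = 0

/-- Modulo `ann ψ` all linear forms are combinations of `lin c` and `lin e`. -/
def Two (ψ : MvPolynomial (Fin n) K →ₗ[K] K) (c e : Fin n → K) : Prop :=
  ∀ l : Fin n → K, ∃ x y : K, lin l - C x * lin c - C y * lin e ∈ ann ψ

/-- The functional `φ_(A,d) (v ·)`; its ideal is `(idl A d : v)`. -/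
noncomputable def psi (A : Matrix (Fin n) (Fin n) K) (d : Fin n → ℕ) (v : MvPolynomial (Fin n) K) :
    MvPolynomial (Fin n) K →ₗ[K] K := (phi A d).comp (LinearMap.mulLeft K v)

/-- The projection along `y_i`: the variable `x_i` is replaced by `- ∑_(j ≠ i) (a_ij / a_ii) x_j`. -/
noncomputable def prj (A : Matrix (Fin n) (Fin n) K) (i : Fin n) :
    MvPolynomial (Fin n) K →ₐ[K] MvPolynomial (Fin n) K :=
  aeval fun j => if j = i then -(C (A i i)⁻¹ * ∑ l ∈ Finset.univ.erase i, C (A i l) * X l) else X j

/-- Four different indices, there are no other ones. -/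
structure Idx (e a b c : Fin n) : Prop where
  ea : e ≠ a
  eb : e ≠ b
  ec : e ≠ c
  ab : a ≠ b
  ac : a ≠ c
  bc : b ≠ c
  all : ∀ j, j = e ∨ j = a ∨ j = b ∨ j = c

/-! ### Basic lemmas -/

theorem lin_single (i : Fin n) : lin (Pi.single i 1 : Fin n → K) = X i := by
  unfold lin
  rw [Finset.sum_eq_single i]
  · rw [Pi.single_eq_same, C_1, one_mul]
  · intro j _ hj
    rw [Pi.single_eq_of_ne hj, C_0, zero_mul]
  · intro h; exact absurd (Finset.mem_univ i) h

theorem yf_eq_lin (A : Matrix (Fin n) (Fin n) K) (i : Fin n) : yf A i = lin (A i) := rfl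

theorem lin_add_smul (c e : Fin n → K) (s : K) : lin (c + s • e) = lin c + C s * lin e := by
  unfold lin
  rw [Finset.mul_sum, ← Finset.sum_add_distrib]
  refine Finset.sum_congr rfl fun j _ => ?_
  rw [Pi.add_apply, Pi.smul_apply, smul_eq_mul, C_add, C_mul]
  ring

theorem lin_pow_hom (c : Fin n → K) (p : ℕ) : (lin c ^ p).IsHomogeneous p := by
  have := (lin_hom' c).pow p
  rwa [one_mul] at this

theorem homI_idl (A : Matrix (Fin n) (Fin n) K) (d : Fin n → ℕ) : HomI (idl A d) :=
  fun _ hf k => hc_mem hf k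

theorem mem_ann_psi {A : Matrix (Fin n) (Fin n) K} (hA : Good A) {d : Fin n → ℕ}
    {v f : MvPolynomial (Fin n) K} : f ∈ ann (psi A d v) ↔ v * f ∈ idl A d := by
  rw [mem_ann, mem_idl_iff hA]
  refine forall_congr' fun h => ?_
  unfold psi
  rw [LinearMap.comp_apply, LinearMap.mulLeft_apply, mul_assoc]

theorem ann_psi_one {A : Matrix (Fin n) (Fin n) K} (hA : Good A) (d : Fin n → ℕ) :
    ann (psi A d 1) = idl A d := by
  ext f
  rw [mem_ann_psi hA, one_mul]

theorem isDeg_psi {A : Matrix (Fin n) (Fin n) K} (hA : Good A) {d : Fin n → ℕ}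
    {v : MvPolynomial (Fin n) K} {t E : ℕ} (hv : v.IsHomogeneous t) (h : t + E = ∑ i, d i) :
    IsDeg (psi A d v) E := by
  intro k f hf hk
  exact phi_hom hA (hv.mul hf) (by omega)

theorem isDeg_psi' {A : Matrix (Fin n) (Fin n) K} (hA : Good A) {d : Fin n → ℕ}
    {v : MvPolynomial (Fin n) K} {t : ℕ} (hv : v.IsHomogeneous t) (h : ∑ i, d i < t) (E : ℕ) :
    IsDeg (psi A d v) E := by
  intro k f hf _
  exact phi_hom hA (hv.mul hf) (by omega)

theorem homI_ann {ψ : MvPolynomial (Fin n) K →ₗ[K] K} {E : ℕ} (hψ : IsDeg ψ E) :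
    HomI (ann ψ) := by
  intro f hf k h
  rw [← sum_homogeneousComponent h, Finset.mul_sum, map_sum]
  refine Finset.sum_eq_zero fun j _ => ?_
  by_cases hkj : k + j = E
  · have h1 := hf (homogeneousComponent j h)
    have h2 : f * homogeneousComponent j h =
        ∑ l ∈ Finset.range (f.totalDegree + 1),
          homogeneousComponent l f * homogeneousComponent j h := by
      rw [← Finset.sum_mul, sum_homogeneousComponent]
    rw [h2, map_sum] at h1
    by_cases hk : k ∈ Finset.range (f.totalDegree + 1)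
    · rw [Finset.sum_eq_single k] at h1
      · exact h1
      · intro l _ hl
        exact hψ (l + j) _ ((homogeneousComponent_isHomogeneous l f).mul
          (homogeneousComponent_isHomogeneous j h)) (by omega)
      · intro h3; exact absurd hk h3
    · rw [Finset.mem_range, not_lt] at hk
      rw [homogeneousComponent_eq_zero _ _ (by omega), zero_mul, map_zero]
  · exact hψ (k + j) _ ((homogeneousComponent_isHomogeneous k f).mul
      (homogeneousComponent_isHomogeneous j h)) hkj

theorem mem_pow_iff {A : Matrix (Fin n) (Fin n) K} (hA : Good A) {d : Fin n → ℕ} {i : Fin n}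
    {j : ℕ} (hj : j ≤ d i) {f : MvPolynomial (Fin n) K} :
    X i ^ j * f ∈ idl A d ↔ f ∈ idl A (Function.update d i (d i - j)) := by
  rw [mem_idl_iff hA, mem_idl_iff hA]
  refine forall_congr' fun h => ?_
  rw [mul_assoc, phi_X_pow hA i j d hj]

theorem mem_pow_iff' {A : Matrix (Fin n) (Fin n) K} (hA : Good A) {d : Fin n → ℕ} {i : Fin n}
    {j : ℕ} (hj : d i ≤ j) {f : MvPolynomial (Fin n) K} :
    X i ^ j * f ∈ idl A d ↔ X i ^ (j - d i) * f ∈ idl A (Function.update d i 0) := by
  have e : X i ^ j * f = X i ^ d i * (X i ^ (j - d i) * f) := by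
    rw [← mul_assoc, ← pow_add]
    congr 2
    omega
  rw [e, mem_pow_iff hA le_rfl, Nat.sub_self]

theorem gen_mem (A : Matrix (Fin n) (Fin n) K) (d : Fin n → ℕ) (i : Fin n) :
    gen A d i ∈ idl A d := Ideal.subset_span ⟨i, rfl⟩

theorem yf_mem {A : Matrix (Fin n) (Fin n) K} {d : Fin n → ℕ} {i : Fin n} (hi : d i = 0) :
    yf A i ∈ idl A d := by
  have h := gen_mem A d i
  unfold gen at h
  rwa [hi, pow_zero, one_mul] at h

theorem X_mem_unitRow (A : Matrix (Fin n) (Fin n) K) (d : Fin n → ℕ) (i : Fin n) :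
    X i ∈ idl (unitRow A i) (Function.update d i 0) := by
  have h := yf_mem (A := unitRow A i) (d := Function.update d i 0) (i := i)
    (by rw [Function.update_self])
  rwa [yf_unitRow_self] at h

theorem mem_y_iff {A : Matrix (Fin n) (Fin n) K} (hA : Good A) {d : Fin n → ℕ} {i : Fin n}
    (hi : d i ≠ 0) {f : MvPolynomial (Fin n) K} :
    X i ^ (d i - 1) * yf A i * f ∈ idl A d ↔
      f ∈ idl (unitRow A i) (Function.update d i 0) := by
  obtain ⟨κ, hκ, h⟩ := phi_yf_pow hA i
  rw [mem_idl_iff hA, mem_idl_iff (good_unitRow hA i)]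
  refine forall_congr' fun p => ?_
  rw [mul_assoc _ f p, h d hi]
  constructor
  · intro h0
    exact (mul_eq_zero.1 h0).resolve_left hκ
  · intro h0
    rw [h0, mul_zero]

/-- For `d i ≠ 0` an element of `idl A d'` (`d' i = 1`, equal to `d` otherwise) is killed modulo `x_i`. -/
theorem idl_one_le {A : Matrix (Fin n) (Fin n) K} {d : Fin n → ℕ} {i : Fin n} :
    idl A (Function.update d i 1) ≤ idl (unitRow A i) (Function.update d i 0) := by
  have h := idl_le_unitRow (A := A) (d := Function.update d i 1) (i := i)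
    (by rw [Function.update_self]; exact one_ne_zero)
  rwa [Function.update_idem] at h

/-- The ideals with `d i = 0` and `d i` arbitrary, with the generator `y_i`. -/
theorem exists_y {A : Matrix (Fin n) (Fin n) K} {d : Fin n → ℕ} {i : Fin n}
    {f : MvPolynomial (Fin n) K} (hf : f ∈ idl A (Function.update d i 0)) :
    ∃ b h, f = b + yf A i * h ∧ b ∈ idl A d := by
  have hle : idl A (Function.update d i 0) ≤ idl A d ⊔ Ideal.span {yf A i} := by
    unfold idl
    rw [Ideal.span_le]
    rintro _ ⟨j, rfl⟩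
    by_cases hj : j = i
    · subst hj
      have : gen A (Function.update d j 0) j = yf A j := by
        unfold gen
        rw [Function.update_self, pow_zero, one_mul]
      rw [this]
      exact Ideal.mem_sup_right (Ideal.subset_span rfl)
    · have : gen A (Function.update d i 0) j = gen A d j := by
        unfold gen
        rw [Function.update_of_ne hj]
      rw [this]
      exact Ideal.mem_sup_left (Ideal.subset_span ⟨j, rfl⟩)
  obtain ⟨b, hb, r, hr, hbr⟩ := Submodule.mem_sup.1 (hle hf)
  obtain ⟨h, hh⟩ := Ideal.mem_span_singleton.1 hr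
  exact ⟨b, h, by rw [← hh]; exact hbr.symm, hb⟩

theorem exists_X {A : Matrix (Fin n) (Fin n) K} {d : Fin n → ℕ} {i : Fin n}
    {f : MvPolynomial (Fin n) K} (hf : f ∈ idl (unitRow A i) (Function.update d i 0)) :
    ∃ b h, f = b + X i * h ∧ b ∈ idl A d := by
  obtain ⟨r, hr, b, hb, hbr⟩ := Submodule.mem_sup.1 (idl_unitRow_le A d i hf)
  obtain ⟨h, hh⟩ := Ideal.mem_span_singleton.1 hr
  exact ⟨b, h, by rw [← hh, add_comm]; exact hbr.symm, hb⟩

theorem idl_le_zero {A : Matrix (Fin n) (Fin n) K} {d : Fin n → ℕ} {i : Fin n} :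
    idl A d ≤ idl A (Function.update d i 0) := by
  unfold idl
  rw [Ideal.span_le]
  rintro _ ⟨j, rfl⟩
  by_cases hj : j = i
  · subst hj
    unfold gen
    exact Ideal.mul_mem_left _ _ (yf_mem (d := Function.update d j 0) (by rw [Function.update_self]))
  · have : gen A d j = gen A (Function.update d i 0) j := by
      unfold gen
      rw [Function.update_of_ne hj]
    rw [this]
    exact gen_mem _ _ _

/-- Two variables: `d` is supported on `b`, `c`. -/
theorem two_psi {A : Matrix (Fin n) (Fin n) K} (hA : Good A) {d : Fin n → ℕ} {b c : Fin n}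
    (hd : ∀ j, j ≠ b → j ≠ c → d j = 0) (v : MvPolynomial (Fin n) K) :
    Two (psi A d v) (Pi.single b 1) (Pi.single c 1) := by
  have hX : ∀ j : Fin n, ∃ x y : K,
      X j - C x * X b - C y * X c ∈ idl A d := by
    intro j
    by_cases hbc : b = c
    · subst hbc
      by_cases hb : d b = 0
      · refine ⟨0, 0, ?_⟩
        rw [C_0, zero_mul, sub_zero, sub_zero]
        exact X_mem_of_zero hA (fun i => by
          by_cases hi : i = b
          · rw [hi]; exact hb
          · exact hd i hi hi) j
      · refine ⟨qv A (zs d) b j, 0, ?_⟩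
        rw [C_0, zero_mul, sub_zero, mem_idl_iff hA]
        intro h
        rw [sub_mul, map_sub, mul_assoc, ← smul_eq_C_mul, map_smul, smul_eq_mul,
          phi_X_mul' hA, phi_X_mul hA hb, Finset.sum_eq_single b]
        · rw [if_neg hb, sub_self]
        · intro m _ hm
          rw [if_pos (hd m hm hm)]
        · intro h1; exact absurd (Finset.mem_univ b) h1
    · refine ⟨if d b = 0 then 0 else qv A (zs d) b j, if d c = 0 then 0 else qv A (zs d) c j, ?_⟩
      rw [mem_idl_iff hA]
      intro h
      rw [sub_mul, sub_mul, map_sub, map_sub, mul_assoc, mul_assoc, ← smul_eq_C_mul,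
        ← smul_eq_C_mul, map_smul, map_smul, smul_eq_mul, smul_eq_mul, phi_X_mul' hA]
      have h1 : ∀ m, (if d m = 0 then 0 else qv A (zs d) m j * phi A (low d m) h) =
          (if m = b then (if d b = 0 then 0 else qv A (zs d) b j) * phi A d (X b * h) else 0) +
            (if m = c then (if d c = 0 then 0 else qv A (zs d) c j) * phi A d (X c * h) else 0) := by
        intro m
        by_cases hmb : m = b
        · subst hmb
          rw [if_pos rfl, if_neg hbc, add_zero]
          by_cases hm : d m = 0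
          · rw [if_pos hm, if_pos hm, zero_mul]
          · rw [if_neg hm, if_neg hm, phi_X_mul hA hm]
        · by_cases hmc : m = c
          · subst hmc
            rw [if_neg hmb, if_pos rfl, zero_add]
            by_cases hm : d m = 0
            · rw [if_pos hm, if_pos hm, zero_mul]
            · rw [if_neg hm, if_neg hm, phi_X_mul hA hm]
          · rw [if_neg hmb, if_neg hmc, if_pos (hd m hmb hmc), add_zero]
      rw [Finset.sum_congr rfl fun m _ => h1 m, Finset.sum_add_distrib, Finset.sum_ite_eq',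
        Finset.sum_ite_eq', if_pos (Finset.mem_univ _), if_pos (Finset.mem_univ _)]
      ring
  intro l
  choose x y hxy using hX
  refine ⟨∑ j, l j * x j, ∑ j, l j * y j, ?_⟩
  rw [mem_ann_psi hA, lin_single, lin_single]
  refine Ideal.mul_mem_left _ _ ?_
  have e : lin l - C (∑ j, l j * x j) * X b - C (∑ j, l j * y j) * X c =
      ∑ j, C (l j) * (X j - C (x j) * X b - C (y j) * X c) := by
    unfold lin
    rw [map_sum, map_sum, Finset.sum_mul, Finset.sum_mul, ← Finset.sum_sub_distrib,
      ← Finset.sum_sub_distrib]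
    refine Finset.sum_congr rfl fun j _ => ?_
    rw [C_mul, C_mul]
    ring
  rw [e]
  exact Ideal.sum_mem _ fun j _ => Ideal.mul_mem_left _ _ (hxy j)

/-! ### Generic linear forms -/

theorem Gen.mono {P Q : (Fin n → K) → Prop} (h : Gen P) (hPQ : ∀ c, P c → Q c) : Gen Q := by
  obtain ⟨q, hq, h⟩ := h
  exact ⟨q, hq, fun c hc => hPQ c (h c hc)⟩

theorem Gen.and {P Q : (Fin n → K) → Prop} (h : Gen P) (h' : Gen Q) :
    Gen fun c => P c ∧ Q c := by
  obtain ⟨q, hq, h⟩ := h
  obtain ⟨q', hq', h'⟩ := h'
  refine ⟨q * q', mul_ne_zero hq hq', fun c hc => ?_⟩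
  rw [map_mul] at hc
  exact ⟨h c (left_ne_zero_of_mul hc), h' c (right_ne_zero_of_mul hc)⟩

theorem gen_true {P : (Fin n → K) → Prop} (h : ∀ c, P c) : Gen P :=
  ⟨1, one_ne_zero, fun c _ => h c⟩

theorem gen_forall_lt (N : ℕ) {P : ℕ → (Fin n → K) → Prop} (h : ∀ i < N, Gen (P i)) :
    Gen fun c => ∀ i < N, P i c := by
  induction N with
  | zero => exact gen_true fun c i hi => absurd hi (Nat.not_lt_zero i)
  | succ N ih =>
    refine ((ih fun i hi => h i (by omega)).and (h N (by omega))).mono fun c hc i hi => ?_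
    by_cases hN : i = N
    · rw [hN]; exact hc.2
    · exact hc.1 i (by omega)

/-- The pairs `(q, p)` with `2 q + p = E`. -/
theorem gen_forall_two (E : ℕ) {P : ℕ → ℕ → (Fin n → K) → Prop}
    (h : ∀ q p, 2 * q + p = E → Gen (P q p)) :
    Gen fun c => ∀ q p, 2 * q + p = E → P q p c := by
  have h1 : ∀ q < E + 1, Gen fun c => 2 * q ≤ E → P q (E - 2 * q) c := by
    intro q _
    by_cases hq : 2 * q ≤ E
    · exact (h q (E - 2 * q) (by omega)).mono fun c hc _ => hc
    · exact gen_true fun c hc => absurd hc hq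
  refine (gen_forall_lt (E + 1) h1).mono fun c hc q p hqp => ?_
  have e : p = E - 2 * q := by omega
  rw [e]
  exact hc q (by omega) (by omega)

theorem Gen.exists [Infinite K] {P : (Fin n → K) → Prop} (h : Gen P) : ∃ c, P c := by
  obtain ⟨q, hq, h⟩ := h
  by_contra hcon
  push Not at hcon
  apply hq
  refine MvPolynomial.funext fun c => ?_
  rw [map_zero]
  by_contra hc
  exact hcon c (h c hc)

end Pool.Agent.Lib.MP_adb389_agW
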