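import Pool.Agent.Lib.MP_adb389_agW.SpecL

/-!
# MP_adb389_agW, Pencil: kernel vectors of pencils over `K[X]`
-/

set_option autoImplicit false

namespace Pool.Agent.Lib.MP_adb389_agW

open Polynomial Matrix

namespace PencilAux

/-- The matrix `Z + X G`. -/
noncomputable def pen {K : Type} [Field K] {m n : ℕ} (Z G : Matrix (Fin m) (Fin n) K) :
    Matrix (Fin m) (Fin n) K[X] := Z.map C + (X : K[X]) • G.map C

theorem pen_apply {K : Type} [Field K] {m n : ℕ} (Z G : Matrix (Fin m) (Fin n) K) (i : Fin m)
    (j : Fin n) : pen Z G i j = C (Z i j) + X * C (G i j) := rfl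

theorem pen_eval {K : Type} [Field K] {m n : ℕ} (Z G : Matrix (Fin m) (Fin n) K) (s : K) :
    (pen Z G).map (eval s) = Z + s • G := by
  ext i j
  rw [Matrix.map_apply, pen_apply, eval_add, eval_mul, eval_C, eval_C, eval_X]
  rfl

theorem coeff_pen {K : Type} [Field K] {m n : ℕ} (Z G : Matrix (Fin m) (Fin n) K)
    (p : Fin n → K[X]) (i : Fin m) (r : ℕ) :
    ((pen Z G *ᵥ p) i).coeff (r + 1) =
      (Z *ᵥ fun j => (p j).coeff (r + 1)) i + (G *ᵥ fun j => (p j).coeff r) i := by
  show (∑ j, pen Z G i j * p j).coeff (r + 1) = ∑ j, Z i j * (p j).coeff (r + 1) +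
    ∑ j, G i j * (p j).coeff r
  rw [finset_sum_coeff, ← Finset.sum_add_distrib]
  refine Finset.sum_congr rfl fun j _ => ?_
  rw [pen_apply, add_mul, coeff_add, coeff_C_mul, mul_assoc, coeff_X_mul, coeff_C_mul]

theorem coeff_pen_zero {K : Type} [Field K] {m n : ℕ} (Z G : Matrix (Fin m) (Fin n) K)
    (p : Fin n → K[X]) (i : Fin m) :
    ((pen Z G *ᵥ p) i).coeff 0 = (Z *ᵥ fun j => (p j).coeff 0) i := by
  show (∑ j, pen Z G i j * p j).coeff 0 = ∑ j, Z i j * (p j).coeff 0
  rw [finset_sum_coeff]
  refine Finset.sum_congr rfl fun j _ => ?_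
  rw [pen_apply, add_mul, coeff_add, coeff_C_mul, mul_assoc, coeff_X_mul_zero, add_zero]

/-- A kernel vector over `K[X]`. -/
theorem exists_ker {K : Type} [Field K] {m n : ℕ} (Z G : Matrix (Fin m) (Fin n) K)
    (h : {s : K | ∃ u : Fin n → K, u ≠ 0 ∧ (Z + s • G) *ᵥ u = 0}.Infinite) :
    ∃ p : Fin n → K[X], p ≠ 0 ∧ pen Z G *ᵥ p = 0 := by
  classical
  let F := FractionRing K[X]
  let MF : Matrix (Fin m) (Fin n) F := (pen Z G).map (algebraMap K[X] F)
  have hinj : Function.Injective (algebraMap K[X] F) := IsFractionRing.injective K[X] F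
  by_cases hi : Function.Injective (Matrix.toLin' MF)
  · exfalso
    obtain ⟨N, hN⟩ := LinearMap.exists_leftInverse_of_injective (Matrix.toLin' MF)
      (LinearMap.ker_eq_bot.2 hi)
    have h1 : LinearMap.toMatrix' N * MF = 1 := by
      have h2 := congrArg LinearMap.toMatrix' hN
      rwa [LinearMap.toMatrix'_comp, LinearMap.toMatrix'_toLin', LinearMap.toMatrix'_id] at h2
    obtain ⟨b, hb⟩ := IsLocalization.exist_integer_multiples (nonZeroDivisors K[X])
      (Finset.univ : Finset (Fin n × Fin m)) (fun x => LinearMap.toMatrix' N x.1 x.2)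
    have hb' : ∀ x : Fin n × Fin m, ∃ a : K[X],
        algebraMap K[X] F a = (b : K[X]) • LinearMap.toMatrix' N x.1 x.2 :=
      fun x => hb x (Finset.mem_univ x)
    choose a ha using hb'
    have h3 : (Matrix.of fun i j => a (i, j)) * pen Z G = (b : K[X]) • (1 : Matrix (Fin n) (Fin n) K[X]) := by
      refine Matrix.ext fun i j => hinj ?_
      have h4 := congrFun (congrFun h1 i) j
      rw [Matrix.mul_apply] at h4
      rw [Matrix.mul_apply, map_sum]
      have h5 : ∀ l, algebraMap K[X] F ((Matrix.of fun i j => a (i, j)) i l * pen Z G l j) =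
          algebraMap K[X] F (b : K[X]) * (LinearMap.toMatrix' N i l * MF l j) := by
        intro l
        rw [map_mul, Matrix.of_apply, ha (i, l), Algebra.smul_def, mul_assoc]
        rfl
      rw [Finset.sum_congr rfl fun l _ => h5 l, ← Finset.mul_sum, h4, Matrix.smul_apply, smul_eq_mul,
        map_mul]
      congr 1
      rw [Matrix.one_apply, Matrix.one_apply]
      split_ifs
      · rw [map_one]
      · rw [map_zero]
    apply h
    refine ((b : K[X]).roots.toFinset.finite_toSet).subset ?_
    rintro s ⟨u, hu, hs⟩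
    have hb0 : (b : K[X]) ≠ 0 := nonZeroDivisors.ne_zero b.2
    rw [Finset.mem_coe, Multiset.mem_toFinset, mem_roots hb0, IsRoot.def]
    by_contra hne
    have h6 : ((Matrix.of fun i j => a (i, j)) * pen Z G).map (eval s) =
        (b : K[X]).eval s • (1 : Matrix (Fin n) (Fin n) K) := by
      rw [h3]
      ext i j
      rw [Matrix.map_apply, Matrix.smul_apply, Matrix.smul_apply, smul_eq_mul, smul_eq_mul,
        eval_mul, Matrix.one_apply, Matrix.one_apply]
      split_ifs
      · rw [eval_one]
      · rw [eval_zero]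
    have h7 : ((Matrix.of fun i j => a (i, j)) * pen Z G).map (eval s) =
        ((Matrix.of fun i j => a (i, j)).map (eval s)) * ((pen Z G).map (eval s)) := by
      have h8 := Matrix.map_mul (L := Matrix.of fun i j => a (i, j)) (M := pen Z G)
        (f := Polynomial.evalRingHom s)
      exact h8
    rw [h7, pen_eval] at h6
    have h9 : ((Matrix.of fun i j => a (i, j)).map (eval s) * (Z + s • G)) *ᵥ u =
        ((b : K[X]).eval s • (1 : Matrix (Fin n) (Fin n) K)) *ᵥ u := by rw [h6]
    rw [← Matrix.mulVec_mulVec, hs, Matrix.mulVec_zero, Matrix.smul_mulVec, Matrix.one_mulVec] at h9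
    exact hu ((smul_eq_zero.1 h9.symm).resolve_left hne)
  · have h1 : LinearMap.ker (Matrix.toLin' MF) ≠ ⊥ := fun h2 => hi (LinearMap.ker_eq_bot.1 h2)
    obtain ⟨w, hw, hw0⟩ := (Submodule.ne_bot_iff _).1 h1
    rw [LinearMap.mem_ker, Matrix.toLin'_apply] at hw
    obtain ⟨b, hb⟩ := IsLocalization.exist_integer_multiples (nonZeroDivisors K[X])
      (Finset.univ : Finset (Fin n)) w
    have hb' : ∀ x : Fin n, ∃ a : K[X], algebraMap K[X] F a = (b : K[X]) • w x :=
      fun x => hb x (Finset.mem_univ x)
    choose p hp using hb'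
    have hb0 : (b : K[X]) ≠ 0 := nonZeroDivisors.ne_zero b.2
    refine ⟨p, ?_, ?_⟩
    · rintro rfl
      apply hw0
      funext x
      have h2 := hp x
      rw [Pi.zero_apply, map_zero, Algebra.smul_def] at h2
      refine (mul_eq_zero.1 h2.symm).resolve_left fun h3 => hb0 (hinj (by rw [h3, map_zero]))
    · funext i
      apply hinj
      have h2 := congrFun hw i
      rw [Pi.zero_apply] at h2
      show algebraMap K[X] F (∑ j, pen Z G i j * p j) = algebraMap K[X] F 0
      rw [map_sum, map_zero]
      have h5 : ∀ j, algebraMap K[X] F (pen Z G i j * p j) =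
          algebraMap K[X] F (b : K[X]) * (MF i j * w j) := by
        intro j
        rw [map_mul, hp j, Algebra.smul_def]
        show algebraMap K[X] F (pen Z G i j) * _ = _ * (algebraMap K[X] F (pen Z G i j) * _)
        ring
      rw [Finset.sum_congr rfl fun j _ => h5 j, ← Finset.mul_sum]
      have h6 : ∑ j, MF i j * w j = 0 := h2
      rw [h6, mul_zero]

/-- A kernel vector over `K[X]` with a nonzero constant term. -/
theorem exists_ker' {K : Type} [Field K] {m n : ℕ} (Z G : Matrix (Fin m) (Fin n) K)
    (h : ∃ p : Fin n → K[X], p ≠ 0 ∧ pen Z G *ᵥ p = 0) :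
    ∃ p : Fin n → K[X], (fun j => (p j).coeff 0) ≠ 0 ∧ pen Z G *ᵥ p = 0 := by
  classical
  have key : ∀ N : ℕ, ∀ p : Fin n → K[X], ∑ j, (p j).natDegree ≤ N → p ≠ 0 →
      pen Z G *ᵥ p = 0 →
      ∃ p : Fin n → K[X], (fun j => (p j).coeff 0) ≠ 0 ∧ pen Z G *ᵥ p = 0 := by
    intro N
    induction N with
    | zero =>
      intro p hN hp hpen
      refine ⟨p, fun h0 => hp ?_, hpen⟩
      funext j
      have h1 : (p j).natDegree = 0 := by
        have h2 := (Finset.sum_eq_zero_iff.1 (Nat.le_zero.1 hN)) j (Finset.mem_univ j)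
        exact h2
      rw [eq_C_of_natDegree_eq_zero h1]
      have h3 := congrFun h0 j
      simp only [Pi.zero_apply] at h3
      rw [h3, C_0, Pi.zero_apply]
    | succ N ih =>
      intro p hN hp hpen
      by_cases h0 : (fun j => (p j).coeff 0) = 0
      · have h1 : ∀ j, ∃ q, p j = X * q := by
          intro j
          exact X_dvd_iff.2 (congrFun h0 j)
        choose q hq using h1
        have hqne : q ≠ 0 := by
          rintro rfl
          apply hp
          funext j
          rw [hq j, Pi.zero_apply, mul_zero]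
        refine ih q ?_ hqne ?_
        · have h2 : ∀ j, (q j).natDegree ≤ (p j).natDegree := by
            intro j
            by_cases hj : q j = 0
            · rw [hj, natDegree_zero]
              exact Nat.zero_le _
            · rw [hq j, natDegree_X_mul hj]
              omega
          obtain ⟨j, hj⟩ := Function.ne_iff.1 hqne
          have h3 : ∑ j, (q j).natDegree < ∑ j, (p j).natDegree := by
            refine Finset.sum_lt_sum (fun j _ => h2 j) ⟨j, Finset.mem_univ j, ?_⟩
            rw [hq j, natDegree_X_mul hj]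
            omega
          omega
        · have h2 : p = (X : K[X]) • q := by
            funext j
            rw [hq j]
            rfl
          rw [h2, Matrix.mulVec_smul] at hpen
          exact (smul_eq_zero.1 hpen).resolve_left X_ne_zero
      · exact ⟨p, h0, hpen⟩
  obtain ⟨p, hp, hpen⟩ := h
  exact key _ p le_rfl hp hpen

end PencilAux

open PencilAux

theorem Pencil : S_Pencil := by
  classical
  intro K U V _ _ _ _ _ _ _ z g hinf
  let b := Module.finBasis K U
  let c := Module.finBasis K V
  have hrep : ∀ (f : U →ₗ[K] V) (u : U),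
      LinearMap.toMatrix b c f *ᵥ b.equivFun u = c.equivFun (f u) := by
    intro f u
    exact LinearMap.toMatrix_mulVec_repr b c f u
  obtain ⟨p, hp0, hp⟩ := exists_ker' (LinearMap.toMatrix b c z) (LinearMap.toMatrix b c g)
    (exists_ker _ _ (by
      refine hinf.mono ?_
      rintro s ⟨u, hu, hs⟩
      refine ⟨b.equivFun u, fun h0 => hu ((LinearEquiv.map_eq_zero_iff _).1 h0), ?_⟩
      rw [Matrix.add_mulVec, Matrix.smul_mulVec, hrep, hrep, ← map_smul, ← map_add, hs, map_zero]))
  refine ⟨fun r => b.equivFun.symm fun j => (p j).coeff r, ?_, ?_, ?_⟩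
  · intro h0
    exact hp0 ((LinearEquiv.map_eq_zero_iff _).1 h0)
  · apply c.equivFun.injective
    rw [← hrep, LinearEquiv.apply_symm_apply, map_zero]
    funext i
    rw [← coeff_pen_zero (LinearMap.toMatrix b c z) (LinearMap.toMatrix b c g) p i, hp]
    exact coeff_zero 0
  · intro r
    apply c.equivFun.injective
    rw [map_add, ← hrep, ← hrep, LinearEquiv.apply_symm_apply, LinearEquiv.apply_symm_apply, map_zero]
    funext i
    rw [Pi.add_apply, ← coeff_pen (LinearMap.toMatrix b c z) (LinearMap.toMatrix b c g) p i r, hp]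
    exact coeff_zero (r + 1)

end Pool.Agent.Lib.MP_adb389_agW
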