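import Pool.Agent.Lib.MP_adb389_agW.SpecN

/-!
# MP_adb389_agW: linear forms are prime
-/

set_option autoImplicit false

namespace Pool.Agent.Lib.MP_adb389_agW

open MvPolynomial Pool.Agent.Lib.MP_adb389_ag

namespace PrAux

variable {n : ℕ} {K : Type} [Field K]

theorem coeff_lin (c : Fin n → K) (i : Fin n) : coeff (Finsupp.single i 1) (lin c) = c i := by
  classical
  unfold lin
  rw [coeff_sum, Finset.sum_eq_single i]
  · rw [coeff_C_mul, coeff_X, if_pos rfl, mul_one]
  · intro j _ hj
    rw [coeff_C_mul, coeff_X, if_neg, mul_zero]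
    intro h
    exact hj (Finsupp.single_left_injective one_ne_zero h)
  · intro h; exact absurd (Finset.mem_univ i) h

theorem lin_ne_zero {c : Fin n → K} (hc : c ≠ 0) : lin c ≠ 0 := by
  intro h
  apply hc
  funext i
  rw [← coeff_lin c i, h, coeff_zero, Pi.zero_apply]

theorem irr {c : Fin n → K} (hc : c ≠ 0) : Irreducible (lin c) := by
  refine irreducible_of_totalDegree_eq_one ((lin_hom' c).totalDegree (lin_ne_zero hc)) ?_
  intro x hx
  rw [isUnit_iff_ne_zero]
  rintro rfl
  apply hc
  funext i
  have := hx (Finsupp.single i 1)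
  rw [coeff_lin, zero_dvd_iff] at this
  exact this

end PrAux

open PrAux in
theorem Pr : S_Pr := by
  intro n K _ c hc
  refine ⟨(irr hc).prime, ?_⟩
  rintro c' ⟨r, hr⟩
  refine ⟨coeff 0 r, ?_⟩
  have h1 : homogeneousComponent (1 + 0) (lin c * r) = lin c * homogeneousComponent 0 r :=
    hc_mul (lin_hom' c)
  rw [← hr, homogeneousComponent_zero, homogeneousComponent_of_mem (lin_hom' c'), if_pos rfl] at h1
  rw [h1, mul_comm]

end Pool.Agent.Lib.MP_adb389_agW
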