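import Pool.Agent.Lib.MP_adb389_agW.SpecN

/-!
# MP_adb389_agW (S3F): the strong Lefschetz property in three variables, final form
-/

set_option autoImplicit false

namespace Pool.Agent.Lib.MP_adb389_agW

open MvPolynomial Pool.Agent.Lib.MP_adb389_ag

theorem S3F (hS3 : S_S3) : S_S3F := by
  intro K _ _ A hA d
  have hinf : Infinite K := CharZero.infinite K
  have h0 : ∀ j : Fin 3, j ≠ 0 → j ≠ 1 → j ≠ 2 → d j = 0 := by
    intro j h1 h2 h3
    fin_cases j
    · exact absurd rfl h1
    · exact absurd rfl h2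
    · exact absurd rfl h3
  have h := gen_forall_two (∑ j, d j) (P := fun i m c => Inj (idl A d) (lin c ^ m) i)
    (fun i m him => hS3 3 K A hA d 0 1 2 h0 i m him)
  obtain ⟨c, hc⟩ := h.exists
  exact ⟨c, fun k s => maxRank_of_HL hA (lin_hom' c) (fun k hk => hc k _ (by omega)) k s⟩

end Pool.Agent.Lib.MP_adb389_agW
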