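import Pool.Agent.Lib.MP_adb389_agW.SpecN

/-!
# MP_adb389_agW, block C: the strong Lefschetz property for block triangular matrices

Every `def S_Foo : Prop` is one task: write `Pool/Agent/Lib/MP_adb389_agW/Foo.lean` containing
`theorem Foo (hyps S_... as allowed in the docstring) : S_Foo` in the namespace
`Pool.Agent.Lib.MP_adb389_agW` (helper lemmas in the namespace `Pool.Agent.Lib.MP_adb389_agW.FooAux`).
All tasks are independent: the allowed statements are hypotheses of the theorem.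

Everything takes place in one polynomial ring: `idl A d` with `d i = 0` contains the linear form
`yf A i`, `idl (unitRow A i) d` with `d i = 0` contains `X i`. Useful lemmas: see the head of `SpecN.lean`,
and `vw_of_mem`, `vw_add`, `vw_mul`, `vw_z_mul`, `vw_iff_of_sub`, `sum_res` below.
-/

set_option autoImplicit false

namespace Pool.Agent.Lib.MP_adb389_agW

open MvPolynomial Pool.Agent.Lib.MP_adb389_ag

variable {n : ℕ} {K : Type} [Field K]

/-! ### Lemmas on `VW` -/

theorem vw_of_mem {J : Ideal (MvPolynomial (Fin n) K)} {z x : MvPolynomial (Fin n) K} {f : ℕ}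
    (h : z ^ f * x ∈ J) : VW J z f x := ⟨x, 0, by rw [mul_zero, add_zero], h⟩

theorem vw_add {J : Ideal (MvPolynomial (Fin n) K)} {z x y : MvPolynomial (Fin n) K} {f : ℕ}
    (hx : VW J z f x) (hy : VW J z f y) : VW J z f (x + y) := by
  obtain ⟨b, c, rfl, hb⟩ := hx
  obtain ⟨b', c', rfl, hb'⟩ := hy
  refine ⟨b + b', c + c', by ring, ?_⟩
  rw [mul_add]
  exact Ideal.add_mem _ hb hb'

theorem vw_mul {J : Ideal (MvPolynomial (Fin n) K)} {z x : MvPolynomial (Fin n) K} {f : ℕ}
    (r : MvPolynomial (Fin n) K) (hx : VW J z f x) : VW J z f (r * x) := by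
  obtain ⟨b, c, rfl, hb⟩ := hx
  refine ⟨r * b, r * c, by ring, ?_⟩
  have e : z ^ f * (r * b) = r * (z ^ f * b) := by ring
  rw [e]
  exact Ideal.mul_mem_left _ _ hb

theorem vw_z_mul {J : Ideal (MvPolynomial (Fin n) K)} {z x : MvPolynomial (Fin n) K} {f : ℕ} :
    VW J z f (z * x) := ⟨0, x, by rw [zero_add], by rw [mul_zero]; exact J.zero_mem⟩

theorem vw_sub {J : Ideal (MvPolynomial (Fin n) K)} {z x y : MvPolynomial (Fin n) K} {f : ℕ}
    (hx : VW J z f x) (hy : VW J z f y) : VW J z f (x - y) := by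
  have e : x - y = x + (-1) * y := by ring
  rw [e]
  exact vw_add hx (vw_mul _ hy)

theorem vw_iff_of_sub {J : Ideal (MvPolynomial (Fin n) K)} {z x y : MvPolynomial (Fin n) K} {f : ℕ}
    (h : VW J z f (x - y)) : VW J z f x ↔ VW J z f y := by
  constructor
  · intro hx
    have := vw_sub hx h
    rwa [sub_sub_cancel] at this
  · intro hy
    have := vw_add h hy
    rwa [sub_add_cancel] at this

theorem vw_sum {J : Ideal (MvPolynomial (Fin n) K)} {z : MvPolynomial (Fin n) K} {f : ℕ}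
    {ι : Type} {s : Finset ι} {x : ι → MvPolynomial (Fin n) K} (h : ∀ i ∈ s, VW J z f (x i)) :
    VW J z f (∑ i ∈ s, x i) := by
  classical
  induction s using Finset.induction_on with
  | empty => rw [Finset.sum_empty]; exact vw_of_mem (by rw [mul_zero]; exact J.zero_mem)
  | insert i s hi ih =>
    rw [Finset.sum_insert hi]
    exact vw_add (h i (Finset.mem_insert_self _ _))
      (ih fun j hj => h j (Finset.mem_insert_of_mem hj))

/-! ### Definitions -/

/-- `d` restricted to `S`. -/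
def res (d : Fin n → ℕ) (S : Finset (Fin n)) : Fin n → ℕ := fun i => if i ∈ S then d i else 0

theorem sum_res (d : Fin n → ℕ) (S : Finset (Fin n)) : ∑ i, res d S i = ∑ i ∈ S, d i := by
  unfold res
  rw [Finset.sum_ite_mem, Finset.univ_inter]

theorem sum_res_add (d : Fin n → ℕ) (S : Finset (Fin n)) :
    ∑ i, res d S i + ∑ i, res d Sᶜ i = ∑ i, d i := by
  rw [sum_res, sum_res, Finset.sum_add_sum_compl]

/-- The strong Lefschetz property with the Lefschetz element `c · x`, in the middle. -/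
def SL (J : Ideal (MvPolynomial (Fin n) K)) (D : ℕ) (c : Fin n → K) : Prop :=
  ∀ i m : ℕ, 2 * i + m = D → Inj J (lin c ^ m) i

/-- The rows of the elements of `l` are supported on the diagonal, the next element of `l` (the last
one: on `a`) and `Z`. -/
def ChR (A : Matrix (Fin n) (Fin n) K) (Z : Set (Fin n)) (a : Fin n) : List (Fin n) → Prop
  | [] => True
  | i :: l => (∀ j, A i j ≠ 0 → j = i ∨ j = l.headD a ∨ j ∈ Z) ∧ ChR A Z a l

/-- The hypotheses of the chain theorem. -/
structure ChH (A : Matrix (Fin n) (Fin n) K) (d : Fin n → ℕ) (Z : Set (Fin n)) (l : List (Fin n))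
    (a b c : Fin n) : Prop where
  good : Good A
  nodup : l.Nodup
  zcl : ∀ i ∈ Z, ∀ j, A i j ≠ 0 → j ∈ Z
  zd : ∀ i ∈ Z, d i = 0
  sup : ∀ j, j ∉ l → j ≠ a → j ≠ b → j ≠ c → d j = 0
  row : ChR A Z a l

/-- First conclusion of the chain theorem. -/
def Ch1 (A : Matrix (Fin n) (Fin n) K) (d : Fin n → ℕ) (h : Fin n) : Prop :=
  Gen fun g => ∀ f q p : ℕ, 2 * q + p + f = ∑ j, d j → Cond (idl A d) (X h) g f q p

/-- Second conclusion of the chain theorem. -/
def Ch2 (A : Matrix (Fin n) (Fin n) K) (d : Fin n → ℕ) : Prop :=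
  ∀ i m : ℕ, 2 * i + m = ∑ j, d j → Gen fun c => Inj (idl A d) (lin c ^ m) i

/-- Third conclusion of the chain theorem. -/
def Ch3 (A : Matrix (Fin n) (Fin n) K) (d : Fin n → ℕ) (h : Fin n) : Prop :=
  ∀ i m : ℕ, 2 * i + m + 1 = ∑ j, d j → Gen fun c => Inj (ann (psi A d (X h))) (lin c ^ m) i

/-- A homogeneous basis of `R / J`. -/
structure Bs (J : Ideal (MvPolynomial (Fin n) K)) (m : ℕ → ℕ)
    (b : (k : ℕ) → Fin (m k) → MvPolynomial (Fin n) K) : Prop where
  hom : ∀ k i, (b k i).IsHomogeneous k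
  gen : ∀ (k : ℕ) (f : MvPolynomial (Fin n) K), f.IsHomogeneous k →
    ∃ u : Fin (m k) → K, f - ∑ i, C (u i) * b k i ∈ J
  ind : ∀ (k : ℕ) (u : Fin (m k) → K), ∑ i, C (u i) * b k i ∈ J → u = 0

theorem exists_bs {A : Matrix (Fin n) (Fin n) K} (hA : Good A) (d : Fin n → ℕ) :
    ∃ (m : ℕ → ℕ) (b : (k : ℕ) → Fin (m k) → MvPolynomial (Fin n) K), Bs (idl A d) m b := by
  choose m b hb using fun k => exists_basis (K := K) _ d rfl k
  refine ⟨m, b, fun k i => (hb k).1 i, fun k f hf => ?_, fun k u hu => ?_⟩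
  · obtain ⟨u, hu⟩ := ((hb k).2 A hA).1 f hf
    refine ⟨u, ?_⟩
    simp only [← smul_eq_C_mul]
    exact hu
  · refine ((hb k).2 A hA).2 u ?_
    simp only [← smul_eq_C_mul] at hu
    exact hu

/-! ### Chains -/

/-- (Zm) PROOF. `mem_idl_iff` and `phi_X_mul'`: `φ (X z * h) = ∑_(m, d m ≠ 0) qv A (zs d) m z * ...`. For `m` with
`d m ≠ 0` the vector `q = qv A (zs d) m` satisfies `∑_j A i j * q j = 0` for `i ∈ zs d` (`qv_zero`), in
particular for `i ∈ Z` (`zd`). Let `v j = q j` for `j ∈ Z`, `v j = 0` otherwise. As the rows in `Z` are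
supported on `Z`, `∑_j A i j * v j = 0` for `i ∈ Z`, so `v = 0` (`Good` with the finset of the elements of `Z`)
and `q z = 0`. -/
def S_Zm : Prop :=
  ∀ (n : ℕ) (K : Type) [Field K] (A : Matrix (Fin n) (Fin n) K), Good A →
    ∀ (d : Fin n → ℕ) (Z : Set (Fin n)), (∀ i ∈ Z, ∀ j, A i j ≠ 0 → j ∈ Z) → (∀ i ∈ Z, d i = 0) →
    ∀ z ∈ Z, X z ∈ idl A d

/-- (Cha) The step of the chain theorem, first conclusion. Allowed hypotheses: `S_Zm`, `S_N1`.
PROOF. Let `h = l.headD a`, the row `i` is supported on `i`, `h`, `Z`. `d₀ = update d i 0`, `A' = unitRow A i`,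
`I' = idl A' d₀`. `ChH A' d₀ Z l a b c` holds if `i ∉ Z` (the rows of the elements of `l` and `Z` are those of
`A`), `ChH A d₀ Z l a b c` holds. Let `x` have degree `q`, `X i ^ (f+1) * x ∈ idl A d`,
`lin g ^ p * x = β + X i * γ`, `X i ^ f * β ∈ idl A d`.
`f + 1 < d i`: (N1).
`f + 1 = d i` (so `i ∉ Z`): exactly as in (S3c) of `SpecN`: `x = b₁ + yf A i * u`, `b₁ ∈ idl A d`, `u` homogeneous of
degree `q - 1` (if `q = 0` then `x = b₁`, done), and `lin g ^ p * (yf A i * u) ∈ I'`. Modulo `I'` (which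
contains `X i` and the `X z`, `z ∈ Z`, by (Zm)) `yf A i` is `C (A i h) * X h` (if `h = i` or `h ∈ Z` it is zero;
then `x ∈ I'`, `exists_X`, done; the same if `A i h = 0`). If `A i h ≠ 0`: `X h * lin g ^ p * u ∈ I'`, so
`u ∈ ann (psi A' d₀ (X h))` by `Ch3 A' d₀ h` (`∑ d₀ = 2 (q-1) + p + 1`), `yf A i * u ∈ I'`, `x ∈ I'`,
`exists_X`.
`f ≥ d i`: by `mem_pow_iff'` the condition is `Cond (idl A d₀) (X i) g (f - d i) q p`. `yf A i ∈ idl A d₀`, so
`X i ≡ C x * X h` modulo `idl A d₀`, `x = - A i h / A i i` (or `X i ∈ idl A d₀`, if `h = i`, or `h ∈ Z`, or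
`A i h = 0`). If `X i ∈ idl A d₀`: as in (WA) of `SpecN`, with `Ch2 A d₀`. If `x ≠ 0`: as in (WB), with
`Ch1 A d₀ h`. -/
def S_Cha : Prop :=
  ∀ (n : ℕ) (K : Type) [Field K] [CharZero K] (Z : Set (Fin n)) (l : List (Fin n))
    (i a b c : Fin n), (∀ (A : Matrix (Fin n) (Fin n) K) (d : Fin n → ℕ), ChH A d Z l a b c →
      Ch1 A d (l.headD a) ∧ Ch2 A d ∧ Ch3 A d (l.headD a)) →
    ∀ (A : Matrix (Fin n) (Fin n) K) (d : Fin n → ℕ), ChH A d Z (i :: l) a b c → Ch1 A d i

/-- (Ch) The chain theorem. Allowed hypotheses: `S_Zm`, `S_Cha`, `S_S3c`, `S_S3`, `S_TV0`, `S_LP`, `S_Open`.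
PROOF. Induction on `l`. `l = []`: (S3c), (S3), and for `Ch3` with `h = a`: if `d a ≠ 0` then
`u ∈ ann (psi A d (X a))` iff `u ∈ idl A (update d a (d a - 1))` (`mem_ann_psi`, `mem_pow_iff`) and (S3); if
`d a = 0` then `d` is supported on `b`, `c`: (TV0), `two_psi`, `isDeg_psi`. `i :: l`: `Ch1` is (Cha). `Ch2`: (LP),
first part, with `c = Pi.single i 1` and `g` generic for `Ch1`, then (Open). `Ch3` with `h = i`: if `d i ≠ 0` it
is `Ch2` for `update d i (d i - 1)` (the hypotheses `ChH` hold). If `d i = 0` then `ChH A d Z l a b c` holds and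
`yf A i ∈ idl A d`: `X i ≡ C x * X (l.headD a)` modulo `idl A d` (the `X z`, `z ∈ Z`, are in `idl A d` by (Zm));
if `x = 0` (or `X i ∈ idl A d`) then `ann (psi A d (X i))` is everything, else it is
`ann (psi A d (X (l.headD a)))`: induction. -/
def S_Ch : Prop :=
  ∀ (n : ℕ) (K : Type) [Field K] [CharZero K] (Z : Set (Fin n)) (l : List (Fin n))
    (a b c : Fin n) (A : Matrix (Fin n) (Fin n) K) (d : Fin n → ℕ), ChH A d Z l a b c →
      Ch1 A d (l.headD a) ∧ Ch2 A d ∧ Ch3 A d (l.headD a)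

/-! ### Block triangular matrices

`S` is a set of indices such that the rows in `S` are supported on `S`. -/

/-- (T1) The projection to the polynomials in the variables of `S`.
PROOF. Let `T = Sᶜ`, `A_T` the principal submatrix on `T`, invertible (`det_ne_zero_of_good`), `N` its inverse.
`π` is the `aeval` with `X s ↦ X s` for `s ∈ S`, and
`X j ↦ - ∑_(s ∈ S) (∑_(t ∈ T) N j t * A t s) X s` for `j ∈ T`. Then
`X j - π (X j) = ∑_t C (N j t) * yf A t` and `yf A t ∈ idl A (res d S)` for `t ∈ T` (as `res d S t = 0`), so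
`p - π p ∈ idl A (res d S)` for all `p`; `π (yf A t) = 0` for `t ∈ T`. Last claim: `p = ∑_j h_j * gen A (res d S) j`;
apply `π`: the terms `j ∈ T` vanish, for `j ∈ S` the generator is `gen A d j`, a polynomial in the
variables of `S` (the rows in `S` are supported on `S`), fixed by `π`. -/
def S_T1 : Prop :=
  ∀ (n : ℕ) (K : Type) [Field K] (A : Matrix (Fin n) (Fin n) K), Good A →
    ∀ (S : Finset (Fin n)), (∀ i ∈ S, ∀ j, j ∉ S → A i j = 0) → ∀ d : Fin n → ℕ,
    ∃ π : MvPolynomial (Fin n) K →ₐ[K] MvPolynomial (Fin n) K,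
      (∀ p ∈ supported K (S : Set (Fin n)), π p = p) ∧
      (∀ p, π p ∈ supported K (S : Set (Fin n))) ∧
      (∀ (p : MvPolynomial (Fin n) K) (k : ℕ), p.IsHomogeneous k → (π p).IsHomogeneous k) ∧
      (∀ p, p - π p ∈ idl A (res d S)) ∧
      ∀ p ∈ supported K (S : Set (Fin n)), p ∈ idl A (res d S) → p ∈ idl A d

/-- (T2) The socle of the lower block. Allowed hypotheses: `S_T1`. Let `ω = ∏_(s ∈ S) X s ^ d s`.
PROOF. First claim: induction over the finset `S` with `phi_X_pow` and `mem_idl_iff` (or `mem_pow_iff`):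
`res d Sᶜ` is `d` with the entries in `S` replaced by `0`. Second claim: `P ∈ idl A (res d S)` by `mem_of_top`
(`sum_res`), then (T1). Third claim: `P - C x * ω`, `x = phi A (res d S) P`, lies in `idl A (res d S)` by
`mem_of_pair` with `k = 0` (`phi A (res d S) ω = phi A 0 1 = 1` by `phi_X_pow`, `phi_zero`), and (T1). -/
def S_T2 : Prop :=
  ∀ (n : ℕ) (K : Type) [Field K] (A : Matrix (Fin n) (Fin n) K), Good A →
    ∀ (S : Finset (Fin n)), (∀ i ∈ S, ∀ j, j ∉ S → A i j = 0) → ∀ d : Fin n → ℕ,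
      (∀ p, (∏ s ∈ S, X s ^ d s) * p ∈ idl A d ↔ p ∈ idl A (res d Sᶜ)) ∧
      (∀ P ∈ supported K (S : Set (Fin n)), ∀ h : ℕ, P.IsHomogeneous h → ∑ s ∈ S, d s < h →
        P ∈ idl A d) ∧
      ∀ P ∈ supported K (S : Set (Fin n)), P.IsHomogeneous (∑ s ∈ S, d s) →
        P - C (phi A (res d S) P) * ∏ s ∈ S, X s ^ d s ∈ idl A d

/-- (TE) Expansion. PROOF. `idl A (res d Sᶜ)` is generated by the `yf A s`, `s ∈ S`, combinations of the `X s`,
`s ∈ S`, and the `gen A d t`, `t ∉ S`. So a homogeneous element of degree `q` of this ideal is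
`j₀ + ∑_(s ∈ S) X s * h_s` with `j₀ ∈ idl A d` and `h_s` homogeneous of degree `q - 1` (take homogeneous
components; for `q = 0` it is `j₀`). Strong induction on `q`: `x = ∑ C (u i) * b q i + j₀ + ∑ X s * h_s`
(`Bs.gen`), and `h_s` is a combination of the `b k i`, `k ≤ q - 1`, with coefficients in the polynomials in
the variables of `S`, homogeneous of degree `q - 1 - k`. -/
def S_TE : Prop :=
  ∀ (n : ℕ) (K : Type) [Field K] (A : Matrix (Fin n) (Fin n) K), Good A →
    ∀ (S : Finset (Fin n)), (∀ i ∈ S, ∀ j, j ∉ S → A i j = 0) → ∀ (d : Fin n → ℕ) (m : ℕ → ℕ)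
      (b : (k : ℕ) → Fin (m k) → MvPolynomial (Fin n) K), Bs (idl A (res d Sᶜ)) m b →
    ∀ (q : ℕ) (x : MvPolynomial (Fin n) K), x.IsHomogeneous q →
      ∃ β : (k : ℕ) → Fin (m k) → MvPolynomial (Fin n) K,
        (∀ k ≤ q, ∀ i, β k i ∈ supported K (S : Set (Fin n)) ∧ (β k i).IsHomogeneous (q - k)) ∧
        x - ∑ k ∈ Finset.range (q + 1), ∑ i, β k i * b k i ∈ idl A d

/-- (TU) Uniqueness. Allowed hypotheses: `S_T1`, `S_T2`.
PROOF. `D_S = ∑_(s ∈ S) d s`. Show `β k i ∈ idl A d` by strong induction on `q - k` (i.e. for `k = q, q - 1, ...`).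
Let it be known for all `k' > k`; these terms may be omitted. Let `j = q - k`. If `j > D_S`: (T2), second
part. Otherwise let `P` be a polynomial in the variables of `S`, homogeneous of degree `D_S - j`. Multiply
by `P`: for `k' < k` the coefficients `P * β k' i` have degree `> D_S`, so they are in `idl A d`. By (T2), third
part, `(∏ X s ^ d s) * ∑_i C (φ (P * β k i)) * b k i ∈ idl A d`, `φ = phi A (res d S)`, so by (T2), first part, and
`Bs.ind` `φ (P * β k i) = 0` for all `i`. For an arbitrary homogeneous `p` of degree `D_S - j`: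
`φ (β k i * p) = φ (β k i * π p) = 0` (`p - π p ∈ idl A (res d S)`), so `β k i ∈ idl A (res d S)`
(`mem_of_pair`), and then it is in `idl A d` by (T1). -/
def S_TU : Prop :=
  ∀ (n : ℕ) (K : Type) [Field K] (A : Matrix (Fin n) (Fin n) K), Good A →
    ∀ (S : Finset (Fin n)), (∀ i ∈ S, ∀ j, j ∉ S → A i j = 0) → ∀ (d : Fin n → ℕ) (m : ℕ → ℕ)
      (b : (k : ℕ) → Fin (m k) → MvPolynomial (Fin n) K), Bs (idl A (res d Sᶜ)) m b →
    ∀ (q : ℕ) (β : (k : ℕ) → Fin (m k) → MvPolynomial (Fin n) K),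
      (∀ k ≤ q, ∀ i, β k i ∈ supported K (S : Set (Fin n)) ∧ (β k i).IsHomogeneous (q - k)) →
      ∑ k ∈ Finset.range (q + 1), ∑ i, β k i * b k i ∈ idl A d →
      ∀ k ≤ q, ∀ i, β k i ∈ idl A d

/-- (Ta) The graded pieces for a strong Lefschetz element. Let `z = lin c`, `D = ∑ d`.
PROOF. First part. If `2 j + f < D`: `z ^ (D - 2 j) * β ∈ idl A d` as `D - 2 j ≥ f + 1`, so `β ∈ idl A d`. If
`2 j + f > D`: if `j + f > D` then `z ^ f * β ∈ idl A d` (`mem_of_top`). Otherwise `j ≥ 1`, and `z ^ (f+1)` is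
surjective from degree `j - 1` to degree `j + f` by `sur_of_inj` with `k' = D - (j + f)`
(`2 k' + (f + 1) ≤ D`, so `z ^ (f+1)` is injective in degree `k'`, because `z ^ (D - 2 k')` is). So there is
`c'` with `z ^ f * β - z ^ (f+1) * c' ∈ idl A d`: `β = (β - z * c') + z * c'`.
Second part, `2 j + f = D`: it is enough that `z ^ f * β ∈ idl A d` (`SL`). By `mem_of_pair` let `y` be
homogeneous of degree `j`. If `j ≥ 1` there is `c'` homogeneous of degree `j - 1` with
`z ^ (f+1) * y - z ^ (f+2) * c' ∈ idl A d` (`sur_of_inj`, `k' = j - 1`); if `j = 0` take `c' = 0`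
(`z ^ (f+1) * y` has degree `> D`). `π' = y - z * c'` satisfies `z ^ (f+1) * π' ∈ idl A d`, and
`φ (z ^ f * β * y) = φ (z ^ f * π' * β) + φ (z ^ (f+1) * β * c') = 0`. -/
def S_Ta : Prop :=
  ∀ (n : ℕ) (K : Type) [Field K] (A : Matrix (Fin n) (Fin n) K), Good A →
    ∀ (d : Fin n → ℕ) (c : Fin n → K), SL (idl A d) (∑ i, d i) c →
    (∀ (f j : ℕ), 2 * j + f ≠ ∑ i, d i → ∀ β : MvPolynomial (Fin n) K, β.IsHomogeneous j →
      lin c ^ (f + 1) * β ∈ idl A d → VW (idl A d) (lin c) f β) ∧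
    ∀ (f j : ℕ), 2 * j + f = ∑ i, d i → ∀ β : MvPolynomial (Fin n) K, β.IsHomogeneous j →
      lin c ^ (f + 1) * β ∈ idl A d →
      (∀ p : MvPolynomial (Fin n) K, p.IsHomogeneous j → lin c ^ (f + 1) * p ∈ idl A d →
        phi A d (lin c ^ f * p * β) = 0) → β ∈ idl A d

/-- (Tc) Reduction to the central degree. Allowed hypotheses: `S_T1`, `S_TE`, `S_TU`, `S_Ta`.
PROOF. `z = lin c` is a polynomial in the variables of `S`. (TE): `x ≡ ∑_k ∑_i β k i * b k i` modulo
`idl A d`. Then `∑_k ∑_i (z ^ (f+1) * β k i) * b k i ∈ idl A d` has degree `q + f + 1`; (TU) (extended by zero for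
`k > q`) gives `z ^ (f+1) * β k i ∈ idl A d ≤ idl A (res d S)`. If `2 (q - k) + f ≠ D_S` then by (Ta), first
part, for `res d S`: `β k i = β' + z * γ`, `z ^ f * β' ∈ idl A (res d S)`; apply `π` of (T1): `β k i = π β' + z * π γ`
and `z ^ f * π β' = π (z ^ f * β')` lies in `idl A (res d S)` (it differs from `z ^ f * β'` by an element of it) and
is a polynomial in the variables of `S`, so it lies in `idl A d`. Hence `VW (idl A d) z f (β k i * b k i)`. At
most one `k ≤ q` satisfies `2 (q - k) + f = D_S`; if there is one, take this `k`, `j = q - k` and `β = β k`;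
if there is none take `β = 0`. -/
def S_Tc : Prop :=
  ∀ (n : ℕ) (K : Type) [Field K] (A : Matrix (Fin n) (Fin n) K), Good A →
    ∀ (S : Finset (Fin n)), (∀ i ∈ S, ∀ j, j ∉ S → A i j = 0) → ∀ (d : Fin n → ℕ) (m : ℕ → ℕ)
      (b : (k : ℕ) → Fin (m k) → MvPolynomial (Fin n) K), Bs (idl A (res d Sᶜ)) m b →
    ∀ (c : Fin n → K), (∀ j, j ∉ S → c j = 0) → SL (idl A (res d S)) (∑ i ∈ S, d i) c →
    ∀ (f q : ℕ) (x : MvPolynomial (Fin n) K), x.IsHomogeneous q → lin c ^ (f + 1) * x ∈ idl A d →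
      VW (idl A d) (lin c) f x ∨
      ∃ (j k : ℕ) (β : Fin (m k) → MvPolynomial (Fin n) K), 2 * j + f = ∑ i ∈ S, d i ∧ j + k = q ∧
        (∀ i, β i ∈ supported K (S : Set (Fin n)) ∧ (β i).IsHomogeneous j ∧
          lin c ^ (f + 1) * β i ∈ idl A d) ∧
        VW (idl A d) (lin c) f (x - ∑ i, β i * b k i)

/-- (Td) Allowed hypotheses: `S_T1`, `S_T2`, `S_Ta`, `S_Tc`.
PROOF. `exists_bs`. Let `x` have degree `q`, `z ^ (f+1) * x ∈ idl A d`, `VW (lin g ^ p * x)`. (Tc): the first
alternative is the claim. Second: `x₁ = ∑_i β_i * b k i`, and `VW (lin g ^ p * x₁)` (`vw_iff_of_sub`,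
`vw_mul`): `lin g ^ p * x₁ = B + z * γ`, `z ^ f * B ∈ idl A d`. Let `P` be a polynomial in the variables of `S`,
homogeneous of degree `j`, `z ^ (f+1) * P ∈ idl A d`. Then `z ^ f * P * lin g ^ p * x₁ ∈ idl A d`. By (T2), third
part, `z ^ f * P * β_i ≡ C (G_i) * ω` with `G_i = φ (z ^ f * P * β_i)`, `φ = phi A (res d S)`, so
`ω * lin g ^ p * ∑ C (G_i) * b k i ∈ idl A d`, `lin g ^ p * ∑ C (G_i) * b k i ∈ idl A (res d Sᶜ)` ((T2), first
part), and `2 k + p = ∑_(t ∉ S) d t`, so `∑ C (G_i) * b k i ∈ idl A (res d Sᶜ)` by `SL` and `G_i = 0` (`Bs.ind`).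
Now (Ta), second part, for `res d S` and `β_i`: an arbitrary `p` there with `z ^ (f+1) * p ∈ idl A (res d S)` may
be replaced by `π p` (`z ^ (f+1) * π p ∈ idl A (res d S)`, hence in `idl A d` by (T1); and `φ` does not change). So
`β_i ∈ idl A (res d S)`, hence in `idl A d`, `x₁ ∈ idl A d`, and `VW x`. -/
def S_Td : Prop :=
  ∀ (n : ℕ) (K : Type) [Field K] (A : Matrix (Fin n) (Fin n) K), Good A →
    ∀ (S : Finset (Fin n)), (∀ i ∈ S, ∀ j, j ∉ S → A i j = 0) → ∀ (d : Fin n → ℕ)
      (c g : Fin n → K), (∀ j, j ∉ S → c j = 0) → SL (idl A (res d S)) (∑ i ∈ S, d i) c →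
      SL (idl A (res d Sᶜ)) (∑ i ∈ Sᶜ, d i) g →
      ∀ f q p : ℕ, 2 * q + p + f = ∑ i, d i → Cond (idl A d) (lin c) g f q p

/-- (Tri) The strong Lefschetz property for block triangular matrices. Allowed hypotheses: `S_T1`,
`S_Td`, `S_LP`, `S_Open`.
PROOF. Choose `c₀` with `SL (idl A (res d S)) _ c₀` and `g` with `SL (idl A (res d Sᶜ)) _ g` (`Ch2`,
`gen_forall_two`, `Gen.exists`, `sum_res`). `π (lin c₀)` of (T1) is homogeneous of degree one and a
polynomial in the variables of `S`, so it is `lin c` with `c j = 0` for `j ∉ S`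
(`c j` = the coefficient of `X j`), and `lin c₀ - lin c ∈ idl A (res d S)`, so `SL (idl A (res d S)) _ c`. (Td), (LP)
first part with `c` and `e = g`, then (Open). -/
def S_Tri : Prop :=
  ∀ (n : ℕ) (K : Type) [Field K] [CharZero K] (A : Matrix (Fin n) (Fin n) K), Good A →
    ∀ (S : Finset (Fin n)), (∀ i ∈ S, ∀ j, j ∉ S → A i j = 0) → ∀ (d : Fin n → ℕ),
      Ch2 A (res d S) → Ch2 A (res d Sᶜ) → Ch2 A d

/-! ### The theorem -/

/-- The matrix is block triangular with respect to the labelling `t`, and in each block all rows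
except those of the three largest indices (for the ordering `o`) have in the block only the diagonal
entry and the entry of the next index. -/
structure Shape (A : Matrix (Fin n) (Fin n) K) (t o : Fin n → ℕ) : Prop where
  inj : Function.Injective o
  tri : ∀ i j, A i j ≠ 0 → t j ≤ t i
  row : ∀ i j, A i j ≠ 0 → t j = t i → j = i ∨ o j = o i + 1 ∨
    (Finset.univ.filter fun l => t l = t i ∧ o i ≤ o l).card ≤ 3

/-- (Blk) One block as a chain. PROOF. Let `Z = {j | t j < s}` and `B r = {j | t j = s, r ≤ o j}`. Claim: for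
every `r` with `B r` nonempty there are `l a b c` such that: `l` has no duplicates; every `j ∈ B r` is in
`l` or equal to `a`, `b` or `c`; all elements of `l` and `a` are in `B r`, `ChR A Z a l`; and
`l.headD a ∈ B r` satisfies `o (l.headD a) ≤ o j` for all `j ∈ B r`. If `B r` has at most three elements take
`l = []`, `a` the element with the smallest `o`, `b`, `c` the other ones (or `a`). Otherwise induction
downwards on `r` (for large `r` the set `B r` is empty; strong induction on the cardinality of `B r` is also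
possible): let `i` be the element of `B r` with the smallest value `o i`; `B (o i + 1)` is `B r` without `i`, it has
at least three elements; take `l, a, b, c` for it and the list `i :: l`. Row `i`: if `A i j ≠ 0` then `t j ≤ s`;
if `t j < s` then `j ∈ Z`; if `t j = s` then `j = i` or `o j = o i + 1` (`B (o i) = B r` has more than three
elements), and then `j` is the element of `B (o i + 1)` with the smallest `o`, so `j = l.headD a` (`inj`).
The claim for `r = 0` gives the statement. -/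
def S_Blk : Prop :=
  ∀ (n : ℕ) (K : Type) [Field K] (A : Matrix (Fin n) (Fin n) K) (t o : Fin n → ℕ), Shape A t o →
    ∀ s : ℕ, (∃ j, t j = s) → ∃ (l : List (Fin n)) (a b c : Fin n), l.Nodup ∧
      (∀ j, t j = s → j ∈ l ∨ j = a ∨ j = b ∨ j = c) ∧ ChR A {j | t j < s} a l

/-- (CF) Final form. Allowed hypotheses: `S_Blk`, `S_Ch`, `S_Tri`.
PROOF. For `s : ℕ` let `S s = {i | t i < s}` (a finset). Claim: `Ch2 A (res d (S s))` for all `s`. `s = 0`:
`res d ∅ = 0`, `D = 0`, so `i = m = 0`; `Inj (idl A 0) 1 0` is clear. Step: `d' = res d (S (s+1))`, (Tri) for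
`A`, `S s`, `d'`: `res d' (S s) = res d (S s)`: induction. `res d' (S s)ᶜ` is `d` on the block `{t = s}` and zero
elsewhere: if the block is empty it is zero (as above), else (Blk) and (Ch) with `Z = {j | t j < s}`. For
large `s` `res d (S s) = d`. Then `gen_forall_two`, `Gen.exists`, `maxRank_of_HL`. -/
def S_CF : Prop :=
  ∀ (n : ℕ) (K : Type) [Field K] [CharZero K] (A : Matrix (Fin n) (Fin n) K), Good A →
    ∀ (t o : Fin n → ℕ), Shape A t o → ∀ d : Fin n → ℕ, ∃ c : Fin n → K, ∀ k s : ℕ,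
      Inj (idl A d) (lin c ^ s) k ∨ Sur (idl A d) (lin c ^ s) k s

end Pool.Agent.Lib.MP_adb389_agW
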