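import Pool.Agent.Lib.MP_adb389_agW.Defs

/-!
# MP_adb389_agW, block L: degenerations of the Lefschetz element

Every `def S_Foo : Prop` is one task: write `Pool/Agent/Lib/MP_adb389_agW/Foo.lean` containing
`theorem Foo (hyps S_... as allowed in the docstring) : S_Foo` in the namespace
`Pool.Agent.Lib.MP_adb389_agW` (helper lemmas in the namespace `Pool.Agent.Lib.MP_adb389_agW.FooAux`).
All tasks are independent: the allowed statements are hypotheses of the theorem.
-/

set_option autoImplicit false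

namespace Pool.Agent.Lib.MP_adb389_agW

open MvPolynomial Pool.Agent.Lib.MP_adb389_ag

/-- (Pencil) A pencil `z + s g` which is not injective for infinitely many `s` has a polynomial kernel
vector.
PROOF. Take bases: `z + s g` is a matrix `Z + s G`. Consider the matrix `Z + X G` over `K[X]` as a linear
map over the field of fractions `F` of `K[X]`. If it is injective over `F` it has a left inverse `N` over
`F` (`LinearMap.exists_leftInverse_of_injective`); clear the denominators: `N' (Z + X G) = q • 1` with `q ≠ 0`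
in `K[X]`, `N'` over `K[X]`; evaluate at `s`: `Z + s G` is injective if `q(s) ≠ 0`, so only finitely many
`s` are bad, a contradiction. So there is a kernel vector over `F`, clear the denominators: a vector
`p ≠ 0` over `K[X]` with `(Z + X G) p = 0`. Divide by the largest power of `X` dividing all coordinates
(or: take such a `p ≠ 0` with the smallest sum of degrees): not all coordinates have zero constant term
(`X q` in the kernel implies `q` in the kernel). `P r` is the vector of the coefficients of `X^r`. -/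
def S_Pencil : Prop :=
  ∀ (K U V : Type) [Field K] [AddCommGroup U] [Module K U] [AddCommGroup V] [Module K V]
    [Module.Finite K U] [Module.Finite K V] (z g : U →ₗ[K] V),
    {s : K | ∃ u : U, u ≠ 0 ∧ z u + s • g u = 0}.Infinite →
    ∃ P : ℕ → U, P 0 ≠ 0 ∧ z (P 0) = 0 ∧ ∀ r, z (P (r + 1)) + g (P r) = 0

/-- (LB) Middle injectivity. Allowed hypotheses: `S_Pencil`.
PROOF. Suppose the set is infinite. (Pencil) with `U = range (pr k)`, `V = range (pr (k+1))` and the
restrictions of `z`, `g` (`G.zpr`, `G.gpr`; `a` is in `range (pr k)` iff `pr k a = a` by `idem`) gives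
`P 0 ≠ 0`, `z P_0 = 0`, `z P_(r+1) = - g P_r`. So `z^j P_j = (-1)^j g^j P_0` for all `j` (induction:
`z^(j+1) P_(j+1) = - z^j g P_j = - g z^j P_j`). Let `f` be the largest natural number such that
`P_0 = z^f a` with `pr (k - f) a = a` (`f = 0` is possible, and `f > k` is not possible as then `a = 0`
by `neg`). `z^(f+1) a = z P_0 = 0`. `z^f (g^(f+1) a) = g^(f+1) P_0 = (-1)^(f+1) z^(f+1) P_(f+1)`, so
`b := g^(f+1) a - (-1)^(f+1) z P_(f+1)` satisfies `z^f b = 0` and `W f (g^(f+1) a)` holds. By hypothesis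
`a = b + z c` with `z^f b = 0`; apply `pr (k - f)`: `a = pr b + z (pr (k - f - 1) c)` and
`z^f (pr b) = pr (z^f b) = 0`. So `P_0 = z^f a = z^(f+1) (pr (k - f - 1) c)`: contradiction to the choice of
`f`. -/
def S_LB : Prop :=
  ∀ (K M : Type) [Field K] [AddCommGroup M] [Module K M] (G : GM K M) (k : ℤ),
    (∀ f : ℕ, ∀ a : M, G.pr (k - f) a = a → (G.z ^ (f + 1)) a = 0 →
      G.W f ((G.g ^ (f + 1)) a) → G.W f a) →
    {s : K | ∃ a : M, G.pr k a = a ∧ a ≠ 0 ∧ G.z a + s • G.g a = 0}.Finite

/-- (CG) Clebsch-Gordan. `V[w]/w^m` is `Fin m → V`, and `g + w` is `g.compLeft (Fin m) + shift K V m`.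
PROOF. Induction on `f` (for all `V`, `g`, `H`, `c`; `i` and `m` are fixed). `f = 0`: `(g + w) α = 0` says
`g α_0 = 0` and `g α_j + α_(j-1) = 0` for `0 < j < m`. So `g^m α_(m-1) = ± g α_0 = 0` (if `m > 0`; if `m = 0`
there is nothing to prove), `α_(m-1) ∈ H i`, `2 i + m = c`, hence `α_(m-1) = 0`, and then all
`α_(j-1) = - g α_j = 0`.
Step `f → f + 1`, so `2 i + m = c + (f + 1)`. Let `V' = V × V`, thought of as `V ⊕ ε V`, `ε^2 = 0`, with
`g' (a, b) = (g a, g b + a)` (this is `g + ε`) and `H' q = {(a, b) | a ∈ H q, b ∈ H (q - 1)}`. One has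
`g'^p (a, b) = (g^p a, g^p b + p g^(p-1) a)`. The hypothesis holds for `V'` and `c + 1`: let `q ≤ i`,
`2 q + p = c + 1`, `g'^p (a, b) = 0`; if `p = 0` fine; else `g^(p+1) b = - p g^p a = 0`, `b ∈ H (q - 1)`,
`2 (q - 1) + (p + 1) = c`, so `b = 0`; then `p g^(p-1) a = 0`, `g^(p-1) a = 0`, `2 q + (p - 1) = c`, so
`a = 0`. By induction (`2 i + m = (c + 1) + f`) `(g' + w)^(f+1)` is injective on the elements of degree
`i + m - (f+1)` of `Fin m → V × V`. Now let `α : Fin m → V` be as in the claim (degree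
`i + m - (f + 2)`), `L = g + w` on `Fin m → V`, `L^(f+2) α = 0`. Put `β = (L α, - (f+1) α)`, i.e.
`β j = ((L α) j, - (f + 1) • α j)`, an element of degree `i + m - (f + 1)`. With `L' = g' + w`, i.e. `L + ε`:
`L'^(f+1) (x, y) = (L^(f+1) x, L^(f+1) y + (f+1) L^f x)`, so `L'^(f+1) β = 0`, hence `β = 0` and
`(f + 1) α = 0`, `α = 0`. -/
def S_CG : Prop :=
  ∀ (K V : Type) [Field K] [CharZero K] [AddCommGroup V] [Module K V] (g : V →ₗ[K] V)
    (H : ℤ → Submodule K V), (∀ i, ∀ x ∈ H i, g x ∈ H (i + 1)) →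
    ∀ (i c : ℤ) (f m : ℕ), 2 * i + m = c + f →
    (∀ q ≤ i, ∀ p : ℕ, 2 * q + p = c → ∀ a ∈ H q, (g ^ p) a = 0 → a = 0) →
    ∀ α : Fin m → V, (∀ j : Fin m, α j ∈ H (i + m - (f + 1) - (j : ℕ))) →
      ((g.compLeft (Fin m) + shift K V m) ^ (f + 1)) α = 0 → α = 0

/-- (GMw) The graded vector space `M[w]/w^m`.
PROOF. `z' = z.compLeft (Fin m)`, `g' = g.compLeft (Fin m) + shift K M m`,
`(pr' κ α) j = pr (κ - j) (α j)`. The range of `pr' κ` is finite dimensional: it embeds into the product of
the ranges of `pr (κ - j)` (or: it is contained in the finite sum of the images of these under the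
`LinearMap.single`). -/
def S_GMw : Prop :=
  ∀ (K M : Type) [Field K] [AddCommGroup M] [Module K M] (G : GM K M) (m : ℕ),
    ∃ G' : GM K (Fin m → M), G'.z = G.z.compLeft (Fin m) ∧
      G'.g = G.g.compLeft (Fin m) + shift K M m ∧
      ∀ (κ : ℤ) (α : Fin m → M) (j : Fin m), G'.pr κ α j = G.pr (κ - (j : ℕ)) (α j)

/-- (LA) Injectivity of powers. Allowed hypotheses: `S_LB`, `S_CG`, `S_GMw`.
PROOF. `m = 0`: the set is empty. Let `m ≥ 1`, `G'` as in (GMw), `k = i + m - 1`. Claim: for all but
finitely many `s` the map `z' + s g'` is injective on the elements of degree `k` of `Fin m → M`. (LB) for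
`G'`: let `α` have degree `k - f`, `z'^(f+1) α = 0` and `W f (g'^(f+1) α)`; to show `W f α`. Let
`J = ker z^f ⊔ range z` (a submodule of `M`, stable under `g` and `z`), `V = M ⧸ J`, `g_V` the map induced by
`g` (`Submodule.mapQ`), `H_V q` the image of `{a | pr q a = a, z^(f+1) a = 0}` in `V`. (CG) with
`c = 2 i + m - f`: its hypothesis is the hypothesis of (LA) (`W f a` iff `a ∈ J`;
`g_V^p [a] = [g^p a]`). Applied to `[α_j]`: `(g_V + w)^(f+1) [α] = [g'^(f+1) α] = 0` because all
components of `β + z' γ`, `z'^f β = 0`, lie in `J`. So all `α_j` lie in `J`, which gives `W f α` (choose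
the decompositions componentwise). This proves the claim.
Let now `s ≠ 0` be outside of the finite set and `L = z + s g`, `L^m a = 0`, `pr i a = a`. Put
`α_j = (-1)^j s^j L^(m-1-j) a` for `j < m`. Then `(z' + s g') α = 0`: the component `0` is
`L^m a = 0`, the component `j > 0` is `L α_j + s α_(j-1) = 0`. `α` has degree `i + m - 1`. So `α = 0`, and
`α_(m-1) = ± s^(m-1) a` gives `a = 0`. -/
def S_LA : Prop :=
  ∀ (K M : Type) [Field K] [CharZero K] [AddCommGroup M] [Module K M] (G : GM K M) (i : ℤ) (m : ℕ),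
    (∀ f p : ℕ, ∀ q ≤ i, 2 * q + p + f = 2 * i + m → ∀ a : M, G.pr q a = a →
      (G.z ^ (f + 1)) a = 0 → G.W f ((G.g ^ p) a) → G.W f a) →
    {s : K | ∃ a : M, G.pr i a = a ∧ a ≠ 0 ∧ ((G.z + s • G.g) ^ m) a = 0}.Finite

/-- (GMp) Quotients of the polynomial ring.
PROOF. `M = MvPolynomial (Fin n) K ⧸ J` as a vector space over `K`. `z`, `g`: multiplication with the classes of
`lin c`, `lin e`. `pr i` for `i ≥ 0` is induced by `homogeneousComponent i.toNat` (`HomI J`), and `0` for
`i < 0`. (Use `Submodule.mapQ` or `Submodule.liftQ` with `J.restrictScalars K`.)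
`homogeneousComponent (k+1) (l * f) = l * homogeneousComponent k f`: `hc_mul`
(`Lib/MP_adb389_ag/Box.lean`), `homogeneousComponent 0 (l * f) = 0`: `hc_mul_zero`. Finite dimension:
`homogeneousSubmodule` is spanned by the finitely many monomials of degree `k`. -/
def S_GMp : Prop :=
  ∀ (n : ℕ) (K : Type) [Field K] (J : Ideal (MvPolynomial (Fin n) K)) (c e : Fin n → K), HomI J →
    ∃ G : GM K (MvPolynomial (Fin n) K ⧸ J),
      (∀ f, G.z (Ideal.Quotient.mk J f) = Ideal.Quotient.mk J (lin c * f)) ∧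
      (∀ f, G.g (Ideal.Quotient.mk J f) = Ideal.Quotient.mk J (lin e * f)) ∧
      ∀ (k : ℕ) (f : MvPolynomial (Fin n) K),
        G.pr k (Ideal.Quotient.mk J f) = Ideal.Quotient.mk J (homogeneousComponent k f)

/-- (LP) The degeneration lemma for polynomials. Allowed hypotheses: `S_LA`, `S_LB`, `S_GMp`.
PROOF. `G` as in (GMp). `G.W f [a]` iff `VW J (lin c) f a`. For `q < 0` the elements of degree `q` are zero.
If `a` has degree `q` in `M`, it is the class of `homogeneousComponent q a'` for any representative `a'`, a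
homogeneous polynomial. `lin (c + s • e) = lin c + C s * lin e` (`lin_add_smul`). First part: (LA), second
part: (LB). -/
def S_LP : Prop :=
  (∀ (n : ℕ) (K : Type) [Field K] [CharZero K] (J : Ideal (MvPolynomial (Fin n) K))
    (c e : Fin n → K) (i m : ℕ), HomI J →
    (∀ f q p : ℕ, q ≤ i → 2 * q + p + f = 2 * i + m → Cond J (lin c) e f q p) →
    {s : K | ¬ Inj J (lin (c + s • e) ^ m) i}.Finite) ∧
  ∀ (n : ℕ) (K : Type) [Field K] (J : Ideal (MvPolynomial (Fin n) K))
    (c e : Fin n → K) (k : ℕ), HomI J →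
    (∀ f q : ℕ, q + f = k → Cond J (lin c) e f q (f + 1)) →
    {s : K | ¬ Inj J (lin (c + s • e)) k}.Finite

/-- (Open) Injectivity is an open condition.
PROOF. Let `Inj J (lin c₀ ^ m) i`. Let `b_1, ..., b_r` be homogeneous polynomials of degree `i` whose classes
are a basis of the image of `homogeneousSubmodule i` in `R / J`. The classes of the `lin c₀ ^ m * b_j` are
linearly independent (`Inj`), so there are `K`-linear `ξ_l : R → K` which vanish on `J` with
`ξ_l (lin c₀ ^ m * b_j) = δ_lj`. For a linear `ξ : R → K`, `b` and `m` there is a polynomial `Q` with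
`eval c Q = ξ (lin c ^ m * b)` for all `c` (induction on `m`:
`ξ (lin c ^ (m+1) * b) = ∑_j c_j ξ (lin c ^ m * (X j * b))`). So `q = det (Q_lj)` is a polynomial,
`eval c₀ q = 1`, and if `eval c q ≠ 0`, `a ≡ ∑ u_j b_j` modulo `J`, `lin c ^ m * a ∈ J`, then
`∑_j u_j ξ_l (lin c ^ m * b_j) = 0` for all `l`, so `u = 0` and `a ∈ J`. -/
def S_Open : Prop :=
  ∀ (n : ℕ) (K : Type) [Field K] (J : Ideal (MvPolynomial (Fin n) K)) (i m : ℕ),
    (∃ c : Fin n → K, Inj J (lin c ^ m) i) → Gen fun c => Inj J (lin c ^ m) i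

/-! ### Two variables -/

/-- (TVa) The key computation in two variables.
PROOF. Let `J = ann ψ`, `z = lin c`, `g = lin e`. Every homogeneous polynomial `a` of degree `q` is
`x g^q + z (...) + (element of J)` with `x ∈ K` (for linear forms this is `Two`; monomials are products;
induction on `q`). Suppose `a` has degree `q`, `z^(f+1) a ∈ J`, `g^p a = b' + z c'` with `z^f b' ∈ J`, and not
`VW J z f a`. `a = x g^q + z a₁ + j₁`; then `x ≠ 0` (else `a = j₁ + z a₁`), so `g^(q+p)` is of the form
`b + z c₂` with `z^f b ∈ J`. Claim `z^f a ∈ J`: let `h` be any polynomial. By linearity and `IsDeg`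
(`ψ` of a homogeneous polynomial of degree `≠ E` is zero) we may assume that `h` is homogeneous of
degree `q + p` (`f + q + (q + p) = E`), so `h = y g^(q+p) + z h₁ + j₂`, and
`ψ (z^f a h) = y ψ (z^f a g^(q+p)) + ψ (z^(f+1) a h₁) + 0 = y ψ (z^f b a) + y ψ (z^(f+1) a c₂) = 0`. So
`z^f a ∈ J` and `VW J z f a` (`c = 0`), a contradiction. -/
def S_TVa : Prop :=
  ∀ (n : ℕ) (K : Type) [Field K] (ψ : MvPolynomial (Fin n) K →ₗ[K] K) (E : ℕ), IsDeg ψ E →
    ∀ c e : Fin n → K, Two ψ c e → ∀ f q p : ℕ, 2 * q + p + f = E →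
      Cond (ann ψ) (lin c) e f q p

/-- (TV0) The strong Lefschetz property in two variables. Allowed hypotheses: `S_TVa`, `S_LP`, `S_Open`.
PROOF. (LP), first part, with `J = ann ψ` (`homI_ann`) and `c`, `e`: the conditions hold by (TVa). The
field is infinite, so there is `s` with `Inj`, now (Open). -/
def S_TV0 : Prop :=
  ∀ (n : ℕ) (K : Type) [Field K] [CharZero K] (ψ : MvPolynomial (Fin n) K →ₗ[K] K) (E : ℕ),
    IsDeg ψ E → (∃ c e, Two ψ c e) → ∀ i m : ℕ, 2 * i + m = E →
      Gen fun c => Inj (ann ψ) (lin c ^ m) i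

/-- (TV1) The modules of the degeneration in two variables. Allowed hypotheses: `S_TVa`, `S_TV0`.
PROOF. Let `J = ann ψ`, `z = lin c`. First case: `z ∈ J`. If `f ≥ 1` then `VW J z f a` holds for all `a`
(`b = a`, `c = 0`). If `f = 0`: `VW J z 0 x` iff `x ∈ J` (as `z ∈ J`), so the condition is `Inj J (lin e ^ p) q`,
`2 q + p = E`: (TV0) and `gen_forall_two`. Second case: `z ∉ J`. By (TVa) it is enough that
`Gen fun e => Two ψ c e`. Let `Two ψ c₁ e₁`, `X j ≡ x_j lin c₁ + y_j lin e₁` modulo `J`, and so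
`lin l ≡ (∑ l_j x_j) lin c₁ + (∑ l_j y_j) lin e₁`; let `x, y` be the coefficients of `z`, not both zero. If
`x ∑ e_j y_j - y ∑ e_j x_j ≠ 0` then `lin c₁`, `lin e₁` are combinations of `z`, `lin e` modulo `J`, and
`Two ψ c e` holds. This is a polynomial condition on `e`. If the polynomial is zero then
`x y_j = y x_j` for all `j`, so `(x_j, y_j)` is a multiple of `(x, y)`, every `X j` is a multiple of `z`
modulo `J`, and `Two ψ c e` holds for all `e`. -/
def S_TV1 : Prop :=
  ∀ (n : ℕ) (K : Type) [Field K] [CharZero K] (ψ : MvPolynomial (Fin n) K →ₗ[K] K) (E : ℕ),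
    IsDeg ψ E → (∃ c e, Two ψ c e) → ∀ c : Fin n → K,
      Gen fun e => ∀ f q p : ℕ, 2 * q + p + f = E → Cond (ann ψ) (lin c) e f q p

end Pool.Agent.Lib.MP_adb389_agW
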