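import Pool.Agent.Lib.MP_adb389_agW.SpecL

/-!
# MP_adb389_agW, block N: three and four variables

Every `def S_Foo : Prop` is one task: write `Pool/Agent/Lib/MP_adb389_agW/Foo.lean` containing
`theorem Foo (hyps S_... as allowed in the docstring) : S_Foo` in the namespace
`Pool.Agent.Lib.MP_adb389_agW` (helper lemmas in the namespace `Pool.Agent.Lib.MP_adb389_agW.FooAux`).
All tasks are independent: the allowed statements are hypotheses of the theorem.

Everything takes place in one polynomial ring: `idl A d` with `d i = 0` contains the linear form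
`yf A i`, `idl (unitRow A i) d` with `d i = 0` contains `X i`. Useful lemmas of `Defs.lean`: `mem_ann_psi`,
`mem_pow_iff`, `mem_pow_iff'`, `mem_y_iff`, `idl_one_le`, `idl_le_zero`, `exists_y`, `exists_X`, `two_psi`,
`isDeg_psi`, `homI_ann`, `homI_idl`, `lin_single`, and from `Lib/MP_adb389_ag`: `idl_le_unitRow`, `hc_mul`,
`hc_mul_zero`, `hc_mem`, `yf_hom`, `gen_hom`, `mem_of_low`, `sur_of_inj`, `maxRank_of_upper`, `maxRank_of_HL`.
-/

set_option autoImplicit false

namespace Pool.Agent.Lib.MP_adb389_agW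

open MvPolynomial Pool.Agent.Lib.MP_adb389_ag

/-! ### Linear forms -/

/-- (Pr) Linear forms are prime. PROOF. Irreducible because of the degree (compare
`MvPolynomial.irreducible_of_totalDegree_eq_one` or argue with `totalDegree_mul_of_isDomain`), and
`MvPolynomial` over a field is a unique factorisation domain (`Irreducible.prime`). Second part:
`lin c' = lin c * r`, take the homogeneous component of degree one (`hc_mul`):
`lin c' = lin c * C (r_0)`. -/
def S_Pr : Prop :=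
  ∀ (n : ℕ) (K : Type) [Field K] (c : Fin n → K), c ≠ 0 →
    Prime (lin c) ∧ ∀ c' : Fin n → K, lin c ∣ lin c' → ∃ x : K, lin c' = C x * lin c

/-- (Prj) The projection along `y_i`. PROOF. `prj A i (yf A i) = 0` by computation (`A i i ≠ 0`, `Good` with
`S = {i}`); `X i - prj A i (X i) = C (A i i)⁻¹ * yf A i`, so `p - prj A i p` is in the ideal generated by
`yf A i` for all `p` (both sides are ring homomorphisms to the quotient, or induction on `p`): this gives
the first statement. The others are clear on variables (`prj A i (X l) = X l` for `l ≠ i`, and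
`prj A i (X i)` is a combination of these `X l`). Last statement: if `prj A i (yf A j) = 0` then
`yf A j = yf A i * r`, so `A j = x • A i` (homogeneous component of degree one), and the vector `v` with
`v i = A i j`, `v j = - A i i`, zero otherwise, contradicts `Good` with `S = {i, j}`. -/
def S_Prj : Prop :=
  ∀ (n : ℕ) (K : Type) [Field K] (A : Matrix (Fin n) (Fin n) K), Good A → ∀ i : Fin n,
    (∀ p, prj A i p = 0 ↔ p ∈ Ideal.span {yf A i}) ∧
    (∀ p, p - prj A i p ∈ Ideal.span {yf A i}) ∧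
    (∀ p, prj A i (prj A i p) = prj A i p) ∧
    (∀ c, ∃ c', prj A i (lin c) = lin c') ∧
    (∀ j, j ≠ i → prj A i (X j) = X j) ∧
    ∀ j, j ≠ i → prj A i (yf A j) ≠ 0

/-- (D1) Elements of small degree. Allowed hypotheses: `S_Prj`.
PROOF. `p = ∑_j g_j * gen A d j`; take the homogeneous component of degree `h` (`gen_hom`: `gen A d j` has
degree `d j + 1`; `hc_mul`, `hc_mul_zero`): the terms `j = b`, `j = c` vanish because `h < d j + 1`. Apply
`prj A e`: `gen A d e = yf A e` goes to zero, `gen A d a` to `X a ^ d a * prj A e (yf A a)`. -/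
def S_D1 : Prop :=
  ∀ (n : ℕ) (K : Type) [Field K] (A : Matrix (Fin n) (Fin n) K), Good A →
    ∀ (d : Fin n → ℕ) (e a b c : Fin n), Idx e a b c → d e = 0 →
    ∀ (p : MvPolynomial (Fin n) K) (h : ℕ), p.IsHomogeneous h → h ≤ d b → h ≤ d c →
      p ∈ idl A d → ∃ r, prj A e p = X a ^ d a * prj A e (yf A a) * r

/-! ### The strong Lefschetz property in three variables -/

/-- (N1) PROOF. `x` with `X a ^ (f+1) * x ∈ idl A d` lies in `idl A (update d a (d a - (f+1)))`
(`mem_pow_iff`), whose generators are those of `idl A d` and a multiple of `X a`: `x = b + X a * c`,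
`b ∈ idl A d`. So `VW` holds. -/
def S_N1 : Prop :=
  ∀ (n : ℕ) (K : Type) [Field K] (A : Matrix (Fin n) (Fin n) K), Good A →
    ∀ (d : Fin n → ℕ) (a : Fin n) (g : Fin n → K) (f q p : ℕ), f + 1 < d a →
      Cond (idl A d) (X a) g f q p

/-- (S3c) The modules of the degeneration to `x_a`. Allowed hypotheses: `S_N1`, `S_TV0`, `S_TV1`.
PROOF. Let `d₀ = update d a 0`, `A' = unitRow A a`, `I' = idl A' d₀`, so `∑ d = d a + ∑ d₀`, and `d₀` is
supported on `b`, `c` (`two_psi`). Let `x` have degree `q`, `X a ^ (f+1) * x ∈ idl A d`,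
`lin g ^ p * x = β + X a * γ`, `X a ^ f * β ∈ idl A d`.
`f + 1 < d a`: (N1).
`f + 1 = d a`: `x ∈ idl A d₀` (`mem_pow_iff`), `x = b₁ + yf A a * h`, `b₁ ∈ idl A d` (`exists_y`), where we may
take homogeneous components: `b₁` of degree `q`, `h` of degree `q - 1` (if `q = 0` then `x = b₁` and we are
done). `β ∈ idl A (update d a 1) ≤ I'` (`mem_pow_iff`, `idl_one_le`), `X a ∈ I'`, `idl A d ≤ I'`
(`idl_le_unitRow`), so `lin g ^ p * (yf A a * h) ∈ I'`, i.e. `lin g ^ p * h ∈ ann (psi A' d₀ (yf A a))`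
(`mem_ann_psi`), a functional of degree `∑ d₀ - 1 = 2 (q - 1) + p`. (TV0) for this functional (and all
`q`, `p`: `gen_forall_two`) gives `h ∈ ann ...`, `yf A a * h ∈ I'`, `x ∈ I'`, and `exists_X` gives `VW`.
`f ≥ d a`: `mem_pow_iff'` translates everything to `idl A d₀ = ann (psi A d₀ 1)` and `f - d a`: (TV1) for
`psi A d₀ 1`, `c = Pi.single a 1`, `E = ∑ d₀`. -/
def S_S3c : Prop :=
  ∀ (n : ℕ) (K : Type) [Field K] [CharZero K] (A : Matrix (Fin n) (Fin n) K), Good A →
    ∀ (d : Fin n → ℕ) (a b c : Fin n), (∀ j, j ≠ a → j ≠ b → j ≠ c → d j = 0) →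
      Gen fun g => ∀ f q p : ℕ, 2 * q + p + f = ∑ j, d j → Cond (idl A d) (X a) g f q p

/-- (S3) Allowed hypotheses: `S_S3c`, `S_LP`, `S_Open`. PROOF. `Gen.exists` gives `g`; (LP), first part, with
`c = Pi.single a 1`, `e = g`, `J = idl A d`; `K` is infinite, so some `s` works; (Open). -/
def S_S3 : Prop :=
  ∀ (n : ℕ) (K : Type) [Field K] [CharZero K] (A : Matrix (Fin n) (Fin n) K), Good A →
    ∀ (d : Fin n → ℕ) (a b c : Fin n), (∀ j, j ≠ a → j ≠ b → j ≠ c → d j = 0) →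
      ∀ i m : ℕ, 2 * i + m = ∑ j, d j → Gen fun c => Inj (idl A d) (lin c ^ m) i

/-- (S3F) Final form for three variables. Allowed hypotheses: `S_S3`. PROOF. `gen_forall_two`, `Gen.exists`,
`maxRank_of_HL`. -/
def S_S3F : Prop :=
  ∀ (K : Type) [Field K] [CharZero K] (A : Matrix (Fin 3) (Fin 3) K), Good A →
    ∀ d : Fin 3 → ℕ, ∃ c : Fin 3 → K, ∀ k s : ℕ,
      Inj (idl A d) (lin c ^ s) k ∨ Sur (idl A d) (lin c ^ s) k s

/-! ### The colon by a linear form, small degrees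

In this section `v = lin cv`, `d e = 0` and `yf A e = X e`, and `prj A e (lin cv)` is not a multiple of
`X a` (in particular it is not zero). -/

/-- (L1) Allowed hypotheses: `S_Pr`, `S_Prj`, `S_D1`.
PROOF. Let `x` have degree `q`, `X a ^ (f+1) * x ∈ ann (psi A d v)`. Then `v * x ∈ idl A d₁`,
`d₁ = update d a (d a - (f+1))` (`mem_ann_psi`, `mem_pow_iff`). (D1) for `d₁` and `v * x` of degree `q + 1`:
`prj (v x) = X a ^ (d a - f - 1) * prj (yf A a) * r`. `prj v = lin c'` is prime and does not divide `X a`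
(else `X a = C y * prj v`, `y ≠ 0`), so it divides `prj (yf A a) * r`, cancel it:
`prj x = X a ^ (d a - f - 1) * r'`, a multiple of `X a`. `x - prj x` is a multiple of `yf A e ∈ idl A d`, so
`x = b + X a * r''` with `b ∈ idl A d` and `VW` holds. -/
def S_L1 : Prop :=
  ∀ (n : ℕ) (K : Type) [Field K] (A : Matrix (Fin n) (Fin n) K), Good A →
    ∀ (d : Fin n → ℕ) (e a b c : Fin n) (cv : Fin n → K), Idx e a b c → d e = 0 → yf A e = X e →
    (∀ x : K, prj A e (lin cv) ≠ C x * X a) →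
    ∀ (g : Fin n → K) (f q p : ℕ), f + 1 < d a → q + 1 ≤ d b → q + 1 ≤ d c →
      Cond (ann (psi A d (lin cv))) (X a) g f q p

/-- (L2) Allowed hypotheses: `S_Pr`, `S_Prj`, `S_D1`, `S_TV0`.
PROOF. Let `v = lin cv`, `d₀ = update d a 0`, `A' = unitRow A a`, `I' = idl A' d₀` (`X a ∈ I'`, `X e ∈ idl A d ≤ I'`,
`idl_le_unitRow`). Let `x` have degree `q`, `X a ^ (f+1) * x ∈ ann`, `lin g ^ p * x = β + X a * γ`,
`X a ^ f * β ∈ ann`, `f + 1 = d a`. So `v * x ∈ idl A d₀` (`mem_ann_psi`, `mem_pow_iff`), and (D1) gives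
`prj v * prj x = prj (yf A a) * r`. `prj v` is prime.
Case 1: `prj v` does not divide `prj (yf A a)`. Then `r = prj v * r₁`, `prj x = prj (yf A a) * r₁ =
prj (yf A a * r₁)`, so `x = yf A a * r₁ + b₁`, `b₁` a multiple of `yf A e = X e`; take homogeneous
components: `r₁` of degree `q - 1` (if `q = 0` then `x = b₁ ∈ idl A d`, done). `v * β ∈ idl A (update d a 1) ≤
I'`, so `v * lin g ^ p * x ∈ I'` and `lin g ^ p * r₁ ∈ ann (psi A' d₀ (v * yf A a))`, a functional of degree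
`∑ d₀ - 2 = 2 (q - 1) + p` (two variables `b`, `c`: `two_psi`). By (TV0) `v * yf A a * r₁ ∈ I'`. This has degree
`q + 1`: (D1) for `A'`, `d₀` (`yf A' a = X a`; `prj A' e = prj A e` as the row `e` is the same) gives
`X a ∣ prj v * prj (yf A a) * prj r₁`. `X a` is prime and does not divide `prj v` (a linear form, not a
multiple of `X a`). So `X a` divides `prj (yf A a) * prj r₁ = prj x` (`= prj (x)` up to nothing), and
`x = b + X a * c` with `b` a multiple of `X e`: `VW`.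
Case 2: `prj v` divides `prj (yf A a) ≠ 0`: `prj v = C y * prj (yf A a)`, `y ≠ 0`, so
`v - C y * yf A a` is a multiple of `X e`, hence `X a ^ f * yf A a * β ∈ idl A d`, `β ∈ I'` (`mem_y_iff`), and so
`lin g ^ p * x ∈ I' = ann (psi A' d₀ 1)`, of degree `∑ d₀ = 2 q + p`. (TV0): `x ∈ I'`, `exists_X`: `VW`. -/
def S_L2 : Prop :=
  ∀ (n : ℕ) (K : Type) [Field K] [CharZero K] (A : Matrix (Fin n) (Fin n) K), Good A →
    ∀ (d : Fin n → ℕ) (e a b c : Fin n) (cv : Fin n → K), Idx e a b c → d e = 0 → yf A e = X e →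
    (∀ x : K, prj A e (lin cv) ≠ C x * X a) →
    Gen fun g => ∀ f q p : ℕ, f + 1 = d a → q + 1 ≤ d b → q + 1 ≤ d c →
      2 * q + p + f + 1 = ∑ j, d j → Cond (ann (psi A d (lin cv))) (X a) g f q p

/-- (L3) Allowed hypotheses: `S_TV1`.
PROOF. `d₀ = update d a 0`, `∑ d = d a + ∑ d₀`. By `mem_ann_psi` and `mem_pow_iff'`
`X a ^ (f+1) * x ∈ ann (psi A d v)` iff `X a ^ (f - d a + 1) * x ∈ ann (psi A d₀ v)`, and `VW` for `ann (psi A d v)`
and `f` is `VW` for `ann (psi A d₀ v)` and `f - d a`. (TV1) for `psi A d₀ v`, of degree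
`∑ d₀ - 1 = 2 q + p + (f - d a)`, and `c = Pi.single a 1`. -/
def S_L3 : Prop :=
  ∀ (n : ℕ) (K : Type) [Field K] [CharZero K] (A : Matrix (Fin n) (Fin n) K), Good A →
    ∀ (d : Fin n → ℕ) (a b c : Fin n) (cv : Fin n → K),
    (∀ j, j ≠ a → j ≠ b → j ≠ c → d j = 0) →
    Gen fun g => ∀ f q p : ℕ, d a ≤ f →
      2 * q + p + f + 1 = ∑ j, d j → Cond (ann (psi A d (lin cv))) (X a) g f q p

/-- (L) Allowed hypotheses: `S_L1`, `S_L2`, `S_L3`, `S_S3`, `S_TV0`, `S_LP`, `S_Open`, `S_Prj`.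
PROOF. `d a = 0`: (TV0) for `psi A d (lin cv)` of degree `∑ d - 1`, variables `b`, `c` (`two_psi`).
`d a ≥ 1` and `prj A e (lin cv) = C x * X a`: `lin cv - C x * X a` is a multiple of `yf A e ∈ idl A d`
((Prj), `prj (X a) = X a`). If `x = 0` then `ann (psi A d (lin cv))` is everything. If `x ≠ 0` then
`u ∈ ann (psi A d (lin cv))` iff `X a * u ∈ idl A d` iff `u ∈ idl A (update d a (d a - 1))`: (S3).
Otherwise: (LP), first part, with `c = Pi.single a 1`, and `g` generic for (L2), (L3): for `q ≤ i` one has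
`2 (q + 1) ≤ 2 i + 2 ≤ d a + d b + 1 ≤ 2 d b + 1`, so `q + 1 ≤ d b ≤ d c`. Then (Open). -/
def S_L : Prop :=
  ∀ (n : ℕ) (K : Type) [Field K] [CharZero K] (A : Matrix (Fin n) (Fin n) K), Good A →
    ∀ (d : Fin n → ℕ) (e a b c : Fin n) (cv : Fin n → K), Idx e a b c → d e = 0 → yf A e = X e →
    d a ≤ d b → d b ≤ d c → ∀ i m : ℕ, 2 * i + m + 1 = ∑ j, d j → 2 * i + 1 ≤ d a + d b →
      Gen fun g => Inj (ann (psi A d (lin cv))) (lin g ^ m) i

/-! ### Four variables -/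

/-- (W2) Allowed hypotheses: `S_L`.
PROOF. As in (S3c), `d₀ = update d e 0`, `A' = unitRow A e`, `I' = idl A' d₀`: `x` of degree `q` with
`X e ^ (f+1) * x ∈ idl A d`, `f + 1 = d e`, is `b₁ + yf A e * h`, `b₁ ∈ idl A d`, `h` homogeneous of degree `q - 1`
(if `q = 0` then `x = b₁`, done), and `lin g ^ (f+1) * (yf A e * h) ∈ I'`, i.e.
`lin g ^ (f+1) * h ∈ ann (psi A' d₀ (lin (A e)))` (`yf_eq_lin`). (L) for `A'`, `d₀`, `cv = A e`, `i = q - 1`,
`m = f + 1` (`yf A' e = X e`): `2 (q-1) + (f+1) + 1 = 2 q + f = 2 k + 1 - d e = ∑ d₀`, and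
`2 (q - 1) + 1 = 2 k - 2 f - 1 = d a + d b + d c - d e ≤ d a + d b`. So `yf A e * h ∈ I'`, `x ∈ I'`, `exists_X`. -/
def S_W2 : Prop :=
  ∀ (n : ℕ) (K : Type) [Field K] [CharZero K] (A : Matrix (Fin n) (Fin n) K), Good A →
    ∀ (d : Fin n → ℕ) (e a b c : Fin n), Idx e a b c → d a ≤ d b → d b ≤ d c → d c ≤ d e →
    ∀ k : ℕ, ∑ j, d j = 2 * k + 1 →
      Gen fun g => ∀ f q : ℕ, q + f = k → f + 1 = d e → Cond (idl A d) (X e) g f q (f + 1)

/-- (WA) Allowed hypotheses: `S_S3`. PROOF. `f ≥ 1`: `VW` holds for all elements (`b = x`). `f = 0`: `VW` means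
membership in `idl A d`: (S3) and `gen_forall_two`. -/
def S_WA : Prop :=
  ∀ (n : ℕ) (K : Type) [Field K] [CharZero K] (A : Matrix (Fin n) (Fin n) K), Good A →
    ∀ (d : Fin n → ℕ) (e a b c : Fin n), Idx e a b c → d e = 0 → X e ∈ idl A d →
      Gen fun g => ∀ f q p : ℕ, 2 * q + p + f = ∑ j, d j → Cond (idl A d) (X e) g f q p

/-- (WB) Allowed hypotheses: `S_S3c`. PROOF. `X e = C x * X a + (element of idl A d)`, `x ≠ 0`, so
`X e ^ f * u ∈ idl A d` iff `X a ^ f * u ∈ idl A d`, and `VW` for `X e` and `X a` are equivalent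
(`β + X e * γ = (β + (X e - C x * X a) * γ) + X a * (C x * γ)`). -/
def S_WB : Prop :=
  ∀ (n : ℕ) (K : Type) [Field K] [CharZero K] (A : Matrix (Fin n) (Fin n) K), Good A →
    ∀ (d : Fin n → ℕ) (e a b c : Fin n), Idx e a b c → d e = 0 → ∀ x : K, x ≠ 0 →
      X e - C x * X a ∈ idl A d →
      Gen fun g => ∀ f q p : ℕ, 2 * q + p + f = ∑ j, d j → Cond (idl A d) (X e) g f q p

/-- (WC) Allowed hypotheses: `S_Pr`, `S_Prj`, `S_D1`.
PROOF. Let `v = prj (X e) = lin c' ≠ 0`, prime (`X e = lin (Pi.single e 1)`). Let `x` have degree `q`,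
`X e ^ (f+1) * x ∈ idl A d`, an element of degree `q + f + 1`. (D1):
`v ^ (f+1) * prj x = X a ^ d a * prj (yf A a) * r`. `v` does not divide `X a ^ d a * prj (yf A a)`, so
`v ^ (f+1)` divides `r` (`Prime.pow_dvd_of_dvd_mul_left` or so), and
`prj x = X a ^ d a * prj (yf A a) * r' = prj (gen A d a * r')` (apply `prj` once more, idempotent). So
`x - gen A d a * r'` is a multiple of `yf A e ∈ idl A d`, `x ∈ idl A d`, `VW` holds (`b = x`). -/
def S_WC : Prop :=
  ∀ (n : ℕ) (K : Type) [Field K] (A : Matrix (Fin n) (Fin n) K), Good A →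
    ∀ (d : Fin n → ℕ) (e a b c : Fin n), Idx e a b c → d e = 0 → prj A e (X e) ≠ 0 →
    ¬ prj A e (X e) ∣ X a ^ d a * prj A e (yf A a) →
    ∀ (g : Fin n → K) (f q p : ℕ), q + f + 1 ≤ d b → q + f + 1 ≤ d c →
      Cond (idl A d) (X e) g f q p

/-- (WD) Allowed hypotheses: `S_Pr`, `S_Prj`, `S_D1`, `S_TV0`.
PROOF. `v = prj (X e) = lin c'` is prime, `prj (yf A a) ≠ 0` and `v ∣ prj (yf A a)`, so
`v = C y * prj (yf A a)`, `y ≠ 0`, and `X e - C y * yf A a` is a multiple of `yf A e ∈ idl A d`. Let `x` have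
degree `q`, `X e ^ (f+1) * x ∈ idl A d`; (D1): `v ^ (f+1) * prj x = X a ^ d a * prj (yf A a) * r`, cancel one
factor: `v ^ f * prj x = X a ^ d a * r'`.
`f ≥ 1`: `v` does not divide `X a ^ d a`, so `prj x = X a ^ d a * r''`, hence
`prj (X e * x) = v * X a ^ d a * r'' = prj (C y * gen A d a * r'')` and `X e * x ∈ idl A d`; so
`X e ^ f * x ∈ idl A d` and `VW` holds (`b = x`).
`f = 0`: `prj x = X a ^ d a * r' = prj (X a ^ d a * r')`, so `x = X a ^ d a * r' + b₁`, `b₁` a multiple of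
`yf A e`; take homogeneous components: `r'` has degree `q - d a` (if `q < d a` then `x = b₁ ∈ idl A d`, done).
Let `d₄ = update d a 0`, `I₄ = idl A d₄ ≥ idl A d` (`idl_le_zero`), `yf A a ∈ I₄`, so `X e ∈ I₄`. From
`lin g ^ p * x = β + X e * γ`, `β ∈ idl A d`: `lin g ^ p * (X a ^ d a * r') ∈ I₄`, i.e. `lin g ^ p * r'` is in
`ann (psi A d₄ (X a ^ d a))`, of degree `∑ d₄ - d a = ∑ d - 2 d a = 2 (q - d a) + p` (if `∑ d₄ < d a` use
`isDeg_psi'`; `d₄` is supported on `b`, `c`). (TV0): `X a ^ d a * r' ∈ I₄`, `x ∈ I₄`, so `x = b₂ + yf A a * h`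
with `b₂ ∈ idl A d` (`exists_y`), and `yf A a = C y⁻¹ * X e + (element of idl A d)`: `VW`. -/
def S_WD : Prop :=
  ∀ (n : ℕ) (K : Type) [Field K] [CharZero K] (A : Matrix (Fin n) (Fin n) K), Good A →
    ∀ (d : Fin n → ℕ) (e a b c : Fin n), Idx e a b c → d e = 0 → prj A e (X e) ≠ 0 →
    ¬ prj A e (X e) ∣ X a ^ d a → prj A e (X e) ∣ prj A e (yf A a) →
    Gen fun g => ∀ f q p : ℕ, q + f + 1 ≤ d b → q + f + 1 ≤ d c → 2 * q + p + f = ∑ j, d j →
      Cond (idl A d) (X e) g f q p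

/-- (W3) Allowed hypotheses: `S_Pr`, `S_Prj`, `S_WA`, `S_WB`, `S_WC`, `S_WD`.
PROOF. Let `d₀ = update d e 0`. By `mem_pow_iff'` the condition is `Cond (idl A d₀) (X e) g (f - d e) q (f + 1)`
and `2 q + (f + 1) + (f - d e) = 2 k + 1 - d e = ∑ d₀`. The degree `h = q + (f - d e) + 1 = k + 1 - d e`
satisfies `2 h = d a + d b + d c + 1 - d e ≤ d a + d b + 1 ≤ 2 d b + 1`, so `h ≤ d b ≤ d c`. Let
`v = prj A e (X e)`. `v = 0`: `X e` is a multiple of `yf A e ∈ idl A d₀`: (WA). `v ≠ 0`: prime. If `d a ≥ 1` and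
`v ∣ X a` then `X a = C y * v`, `y ≠ 0`, `X e - C y⁻¹ * X a ∈ idl A d₀`: (WB). Otherwise `v` does not divide
`X a ^ d a`; if `v ∣ prj (yf A a)`: (WD), else `v` does not divide the product: (WC). -/
def S_W3 : Prop :=
  ∀ (n : ℕ) (K : Type) [Field K] [CharZero K] (A : Matrix (Fin n) (Fin n) K), Good A →
    ∀ (d : Fin n → ℕ) (e a b c : Fin n), Idx e a b c → d a ≤ d b → d b ≤ d c → d c ≤ d e →
    ∀ k : ℕ, ∑ j, d j = 2 * k + 1 →
      Gen fun g => ∀ f q : ℕ, q + f = k → d e ≤ f → Cond (idl A d) (X e) g f q (f + 1)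

/-- (Wo) Allowed hypotheses: `S_N1`, `S_W2`, `S_W3`, `S_LP`, `S_Open`.
PROOF. Sort the indices: there are `e a b c` with `Idx e a b c`, `d a ≤ d b ≤ d c ≤ d e`. (LP), second part,
with `J = idl A d`, `c = Pi.single e 1`, and `g` generic for (W2), (W3); `f + 1 < d e`: (N1). Some `s` works;
(Open) with `m = 1`. -/
def S_Wo : Prop :=
  ∀ (K : Type) [Field K] [CharZero K] (A : Matrix (Fin 4) (Fin 4) K), Good A →
    ∀ (d : Fin 4 → ℕ) (k : ℕ), ∑ j, d j = 2 * k + 1 → Gen fun c => Inj (idl A d) (lin c) k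

/-- (WF) The weak Lefschetz property in four variables. Allowed hypotheses: `S_Wo`.
PROOF. Let `D = ∑ d`. `D = 2 k + 1`: (Wo), `Gen.exists`, `sur_of_inj` (`k + 1 + k = D`), `sur_mono`,
`maxRank_of_upper`. `D = 2 k`, `k ≥ 1`: choose `c` generic for (Wo) for all `low d m`, `d m ≠ 0` (sum
`2 (k - 1) + 1`): if `f` has degree `k - 1`, `lin c * f ∈ idl A d ≤ idl A (low d m)` (`idl_le_low`), then
`f ∈ idl A (low d m)` for all these `m`, so `f ∈ idl A d` (`mem_of_low`): `Inj` in degree `k - 1`, hence `Sur` in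
degree `k` and above. `D = 0`: `mem_of_top`. -/
def S_WF : Prop :=
  ∀ (K : Type) [Field K] [CharZero K] (A : Matrix (Fin 4) (Fin 4) K), Good A →
    ∀ d : Fin 4 → ℕ, ∃ c : Fin 4 → K, ∀ k : ℕ,
      Inj (idl A d) (lin c) k ∨ Sur (idl A d) (lin c) k 1

end Pool.Agent.Lib.MP_adb389_agW
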