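import Pool.Agent.Lib.MP_adb389_agW.SpecN

/-! Case B: the variable `X e` is a multiple of `X a` modulo `idl A d`. -/

set_option autoImplicit false

namespace Pool.Agent.Lib.MP_adb389_agW

open MvPolynomial Pool.Agent.Lib.MP_adb389_ag

namespace WBAux

variable {n : ℕ} {K : Type} [Field K]

/-- The inverse relation. -/
theorem symm_mem {J : Ideal (MvPolynomial (Fin n) K)} {z w : MvPolynomial (Fin n) K} {x : K}
    (hx : x ≠ 0) (h : z - C x * w ∈ J) : w - C x⁻¹ * z ∈ J := by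
  have h1 : C x⁻¹ * C x = (1 : MvPolynomial (Fin n) K) := by
    rw [← C_mul, inv_mul_cancel₀ hx, C_1]
  have h2 : w - C x⁻¹ * z = -(C x⁻¹ * (z - C x * w)) := by
    rw [mul_sub, ← mul_assoc, h1, one_mul]
    ring
  rw [h2]
  exact J.neg_mem (J.mul_mem_left _ h)

theorem pow_mem {J : Ideal (MvPolynomial (Fin n) K)} {z w u : MvPolynomial (Fin n) K} {x : K}
    (h : z - C x * w ∈ J) {f : ℕ} (hu : w ^ f * u ∈ J) : z ^ f * u ∈ J := by
  have h1 : z ^ f - (C x * w) ^ f ∈ J := by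
    obtain ⟨r, hr⟩ := sub_dvd_pow_sub_pow z (C x * w) f
    rw [hr]
    exact J.mul_mem_right _ h
  have h2 : z ^ f * u = (z ^ f - (C x * w) ^ f) * u + C x ^ f * (w ^ f * u) := by
    rw [mul_pow]
    ring
  rw [h2]
  exact J.add_mem (J.mul_mem_right _ h1) (J.mul_mem_left _ hu)

theorem vw {J : Ideal (MvPolynomial (Fin n) K)} {z w u : MvPolynomial (Fin n) K} {x y : K}
    (h : z - C x * w ∈ J) (h' : w - C y * z ∈ J) {f : ℕ} (hu : VW J z f u) : VW J w f u := by
  obtain ⟨b, c, rfl, hb⟩ := hu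
  refine ⟨b + (z - C x * w) * c, C x * c, by ring, ?_⟩
  rw [mul_add]
  exact J.add_mem (pow_mem h' hb) (J.mul_mem_left _ (J.mul_mem_right _ h))

theorem cond {J : Ideal (MvPolynomial (Fin n) K)} {z w : MvPolynomial (Fin n) K} {x y : K}
    (h : z - C x * w ∈ J) (h' : w - C y * z ∈ J) {g : Fin n → K} {f q p : ℕ}
    (hc : Cond J w g f q p) : Cond J z g f q p :=
  fun a ha h1 h2 => vw h' h (hc a ha (pow_mem h' h1) (vw h h' h2))

end WBAux

/-- (WB) Case B. -/
theorem WB (hS3c : S_S3c) : S_WB := by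
  intro n K _ _ A hA d e a b c hI hd x hx hm
  have h0 : ∀ j, j ≠ a → j ≠ b → j ≠ c → d j = 0 := by
    intro j ha hb hc
    rcases hI.all j with h | h | h | h
    · rw [h]; exact hd
    · exact absurd h ha
    · exact absurd h hb
    · exact absurd h hc
  refine (hS3c n K A hA d a b c h0).mono fun g hg f q p hE => ?_
  exact WBAux.cond hm (WBAux.symm_mem hx hm) (hg f q p hE)

end Pool.Agent.Lib.MP_adb389_agW
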